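import Pool.Agent.K4H47.BR.Tools

set_option autoImplicit false
set_option linter.unusedSectionVars false

open Filter Topology Metric Set
open scoped Manifold

namespace Pool.Agent.K4H47.BR

variable {E : Type} [NormedAddCommGroup E] [NormedSpace ℂ E] [FiniteDimensional ℂ E] {M : Type}
  [MetricSpace M] [CompactSpace M] [ChartedSpace E M] [IsManifold 𝓘(ℂ, E) 1 M]

/-- Liouville's theorem -/
theorem liouville {η : ℝ} (hSch : Sch E M η) (f : ℂ → M) (hf : Hol E f)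
    (h : ∀ z, dist (f z) (f 0) ≤ η) : ∀ z z', f z = f z' := by
  have key : ∀ z, f z = f 0 := by
    intro z
    refine eq_of_forall_dist_le fun ε hε => ?_
    obtain ⟨δ, hδ, -, hS⟩ := hSch ε hε
    have hr : 0 < (‖z‖ + 1) / δ := by positivity
    refine (hS f 0 ((‖z‖ + 1) / δ) hr hf.mdifferentiableOn (fun z' _ => h z') z ?_).le
    rw [mul_div_cancel₀ _ hδ.ne', dist_zero_right]
    linarith [norm_nonneg z]
  exact fun z z' => (key z).trans (key z').symm

/-- the compact set of periodic Brody curves -/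
def W2 (E : Type) [NormedAddCommGroup E] [NormedSpace ℂ E] (M : Type)
    [MetricSpace M] [ChartedSpace E M] (η c : ℝ) : Set C(ℂ, M) :=
  {F | Hol E F ∧ (∀ z, F (z + 2 * Real.pi * Complex.I) = F z) ∧ ∀ z, Near η F z c}

theorem W2_closed (hcl : IsClosed (HolSet E M)) (η c : ℝ) : IsClosed (W2 E M η c) := by
  have h1 : W2 E M η c = HolSet E M ∩ ((⋂ z : ℂ, {F : C(ℂ, M) | F (z + 2 * Real.pi * Complex.I) = F z}) ∩
      ⋂ z : ℂ, ⋂ z' ∈ ball z c, {F : C(ℂ, M) | dist (F z') (F z) ≤ η}) := by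
    ext F
    simp only [W2, HolSet, Near, mem_ofPred_eq, mem_inter_iff, mem_iInter]
  rw [h1]
  refine hcl.inter (IsClosed.inter (isClosed_iInter fun z => ?_)
    (isClosed_iInter fun z => isClosed_iInter fun z' => isClosed_iInter fun _ => ?_))
  · exact isClosed_eq (ContinuousEvalConst.continuous_eval_const _) (ContinuousEvalConst.continuous_eval_const _)
  · exact isClosed_le ((ContinuousEvalConst.continuous_eval_const _).dist
      (ContinuousEvalConst.continuous_eval_const _)) continuous_const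

theorem W2_compact (hcl : IsClosed (HolSet E M)) {η c : ℝ} (hc : 0 < c) (hCmp : Cmp E M η) :
    IsCompact (W2 E M η c) := by
  rw [isCompact_iff_ultrafilter_le_nhds]
  intro u hu
  have hne : (W2 E M η c).Nonempty := by
    by_contra h
    rw [not_nonempty_iff_eq_empty] at h
    rw [h, principal_empty, le_bot_iff] at hu
    exact u.neBot.ne hu
  obtain ⟨F₀, hF₀⟩ := hne
  classical
  -- a family indexed by `C(ℂ, M)`
  let G : C(ℂ, M) → C(ℂ, M) := fun F => if F ∈ W2 E M η c then F else F₀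
  have hG : ∀ F, G F ∈ W2 E M η c := by
    intro F
    by_cases h : F ∈ W2 E M η c
    · simp only [G, if_pos h]
      exact h
    · simp only [G, if_neg h]
      exact hF₀
  obtain ⟨f, hf, hfG⟩ := hCmp C(ℂ, M) u G (fun F => (hG F).1) fun z =>
    ⟨c, hc, Eventually.of_forall fun F => (hG F).2.2 z⟩
  refine ⟨f, ?_, ?_⟩
  · exact (W2_closed hcl η c).mem_of_tendsto hfG (Eventually.of_forall hG)
  · have h1 : Tendsto (fun F => F) (u : Filter C(ℂ, M)) (𝓝 f) := by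
      refine hfG.congr' ?_
      have : W2 E M η c ∈ (u : Filter C(ℂ, M)) := hu (mem_principal_self _)
      filter_upwards [this] with F hF
      simp only [G, if_pos hF]
    simpa [Tendsto] using h1

theorem W2_inv (η c : ℝ) : Inv Tra (W2 E M η c) := by
  rintro F ⟨h1, h2, h3⟩ _ ⟨b, rfl⟩
  refine ⟨Hol.comp_aff h1 _ _, ?_, ?_⟩
  · intro z
    simp only [ContinuousMap.comp_apply, aff_apply, one_mul]
    rw [← h2 (z + b)]
    congr 1
    ring
  · intro z z' hz'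
    simp only [ContinuousMap.comp_apply, aff_apply, one_mul]
    refine h3 (z + b) (z' + b) ?_
    rw [mem_ball] at hz' ⊢
    simpa using hz'

/-- integer multiples of the period -/
theorem per_int {F : ℂ → M} (h : ∀ z, F (z + 2 * Real.pi * Complex.I) = F z) (n : ℤ) (z : ℂ) :
    F (z + n * (2 * Real.pi * Complex.I)) = F z := by
  have : Function.Periodic F (2 * Real.pi * Complex.I) := h
  exact this.int_mul n z

/-- points of a circle can be moved to the compact circle -/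
theorem exists_circle {F : ℂ → M} (h : ∀ z, F (z + 2 * Real.pi * Complex.I) = F z) (z : ℂ) :
    ∃ y ∈ Icc (0 : ℝ) (2 * Real.pi), F z = F (z.re + y * Complex.I) := by
  have hpos : (0 : ℝ) < 2 * Real.pi := Real.two_pi_pos
  refine ⟨toIcoMod hpos 0 z.im, ?_, ?_⟩
  · have := toIcoMod_mem_Ico hpos 0 z.im
    rw [zero_add] at this
    exact ⟨this.1, this.2.le⟩
  · rw [← per_int h (toIcoDiv hpos 0 z.im) (z.re + (toIcoMod hpos 0 z.im : ℝ) * Complex.I)]
    congr 1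
    have h1 : toIcoMod hpos 0 z.im = z.im - toIcoDiv hpos 0 z.im • (2 * Real.pi) := rfl
    rw [h1]
    apply Complex.ext
    · simp
    · simp

/-- the circle of `F` over `Re z = 0` is not small -/
def K2 (δ : ℝ) : Set C(ℂ, M) :=
  {F | ∃ y ∈ Icc (0 : ℝ) (2 * Real.pi), ∃ y' ∈ Icc (0 : ℝ) (2 * Real.pi),
    δ ≤ dist (F (y * Complex.I)) (F (y' * Complex.I))}

theorem K2_closed (δ : ℝ) : IsClosed (K2 δ : Set C(ℂ, M)) := by
  have h1 : (K2 δ : Set C(ℂ, M)) = Prod.snd ''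
      {p : (Icc (0 : ℝ) (2 * Real.pi) × Icc (0 : ℝ) (2 * Real.pi)) × C(ℂ, M) |
        δ ≤ dist (p.2 ((p.1.1 : ℝ) * Complex.I)) (p.2 ((p.1.2 : ℝ) * Complex.I))} := by
    ext F
    constructor
    · rintro ⟨y, hy, y', hy', h⟩
      exact ⟨((⟨y, hy⟩, ⟨y', hy'⟩), F), h, rfl⟩
    · rintro ⟨⟨⟨⟨y, hy⟩, ⟨y', hy'⟩⟩, F'⟩, h, rfl⟩
      exact ⟨y, hy, y', hy', h⟩
  rw [h1]
  refine isClosedMap_snd_of_compactSpace _ (isClosed_le continuous_const (Continuous.dist ?_ ?_))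
  · exact ContinuousEval.continuous_eval.comp (by fun_prop :
      Continuous fun p : (Icc (0 : ℝ) (2 * Real.pi) × Icc (0 : ℝ) (2 * Real.pi)) × C(ℂ, M) =>
        (p.2, (((p.1.1 : ℝ) : ℂ) * Complex.I)))
  · exact ContinuousEval.continuous_eval.comp (by fun_prop :
      Continuous fun p : (Icc (0 : ℝ) (2 * Real.pi) × Icc (0 : ℝ) (2 * Real.pi)) × C(ℂ, M) =>
        (p.2, (((p.1.2 : ℝ) : ℂ) * Complex.I)))

/-- a point `z` and a point of the same circle at distance more than `δ` -/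
theorem mem_K2 {F : C(ℂ, M)} (h : ∀ z, F (z + 2 * Real.pi * Complex.I) = F z) {z z' : ℂ}
    (hz : z.re = z'.re) {δ : ℝ} (hd : δ ≤ dist (F z) (F z')) :
    F.comp (aff 1 (z.re : ℂ)) ∈ K2 δ := by
  obtain ⟨y, hy, h1⟩ := exists_circle h z
  obtain ⟨y', hy', h2⟩ := exists_circle h z'
  refine ⟨y, hy, y', hy', ?_⟩
  rw [h1, h2, ← hz] at hd
  simp only [ContinuousMap.comp_apply, aff_apply, one_mul]
  rw [add_comm _ (z.re : ℂ), add_comm _ (z.re : ℂ)]
  exact hd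

theorem K2_NC {δ : ℝ} (hδ : 0 < δ) {F : C(ℂ, M)} (h : F ∈ K2 δ) : NC F := by
  obtain ⟨y, -, y', -, h⟩ := h
  refine ⟨y * Complex.I, y' * Complex.I, fun he => ?_⟩
  rw [he, dist_self] at h
  exact absurd h (not_le.2 hδ)

/-- Stage 2, minimal sets. -/
theorem stage2a (hcl : IsClosed (HolSet E M)) {η c : ℝ} (hη : 0 < η) (hc : 0 < c)
    (hSch : Sch E M η) (hCmp : Cmp E M η) (hD1 : S_D1 E M) (hE1 : S_E1)
    (T : C(ℂ, M)) (hT : T ∈ W2 E M η c) (hTn : NC T) :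
    ∃ W, W ⊆ W2 E M η c ∧ Minimal' Tra W := by
  obtain ⟨δ, hδ, hδ1⟩ := hD1 η hη
  refine hE1 M Tra id_mem_Tra Tra_comp (W2 E M η c) (W2 E M η c ∩ K2 δ) (W2_closed hcl η c)
    (W2_inv η c) ⟨T, hT, hTn⟩ ((W2_compact hcl hc hCmp).inter_right (K2_closed δ))
    (fun f hf => K2_NC hδ hf.2) ?_
  rintro W hW hWcl hWinv ⟨f, hf, hfn⟩
  obtain ⟨hfH, hfp, hfc⟩ := hW hf
  have h1 : ∃ z z' : ℂ, z.re = z'.re ∧ δ ≤ dist (f z) (f z') := by
    by_contra hcon
    push Not at hcon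
    have h2 : ∀ z, dist (f z) (f 0) ≤ η := by
      intro z
      refine hδ1 f (-(|z.re| + 1)) (|z.re| + 1) hfH.mdifferentiableOn hfp
        (fun w w' hw _ _ => (hcon w w' hw).le) z 0 ?_ ?_ ?_ ?_
      · have := neg_abs_le z.re
        linarith
      · have := le_abs_self z.re
        linarith
      · rw [Complex.zero_re]
        have := abs_nonneg z.re
        linarith
      · rw [Complex.zero_re]
        have := abs_nonneg z.re
        linarith
    obtain ⟨z, z', hz⟩ := hfn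
    exact hz (liouville hSch f hfH h2 z z')
  obtain ⟨z, z', hz, hd⟩ := h1
  have h3 : f.comp (aff 1 (z.re : ℂ)) ∈ W := hWinv _ hf _ ⟨_, rfl⟩
  exact ⟨_, h3, hW h3, mem_K2 hfp hz hd⟩

/-- Stage 2, recurrence or calm ends. -/
theorem stage2b (hcl : IsClosed (HolSet E M)) {η c : ℝ} (hc : 0 < c)
    (hCmp : Cmp E M η) {W : Set C(ℂ, M)} (hW : W ⊆ W2 E M η c) (hmin : Minimal' Tra W)
    (f : C(ℂ, M)) (hf : f ∈ W) :
    (∀ ε : ℝ, 0 < ε → ∃ R : ℝ, ∀ z z' : ℂ, z.re = z'.re → R ≤ |z.re| → dist (f z) (f z') ≤ ε) ∨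
    ∃ u : Ultrafilter ℂ, Tendsto (fun b : ℂ => |b.re|) (u : Filter ℂ) atTop ∧
      Tendsto (fun b : ℂ => f.comp (aff 1 b)) (u : Filter ℂ) (𝓝 f) := by
  by_contra hcon
  rw [not_or] at hcon
  obtain ⟨h1, h2⟩ := hcon
  apply h2
  push Not at h1
  obtain ⟨ε, hε, h1⟩ := h1
  obtain ⟨hWcl, hWinv, -, hWmin⟩ := hmin
  have hfp := (hW hf).2.1
  choose z z' hzz hz hd using fun k : ℕ => h1 k
  -- the limit of the translates is not constant
  have h3 : ∀ k, f.comp (aff 1 ((z k).re : ℂ)) ∈ W ∩ K2 ε := fun k =>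
    ⟨hWinv _ hf _ ⟨_, rfl⟩, mem_K2 hfp (hzz k) (hd k).le⟩
  have hcomp : IsCompact (W ∩ K2 ε) := by
    have h4 : W ∩ K2 ε = W2 E M η c ∩ (W ∩ K2 ε) := by
      ext g
      exact ⟨fun h => ⟨hW h.1, h⟩, fun h => h.2⟩
    rw [h4]
    exact (W2_compact hcl hc hCmp).inter_right (hWcl.inter (K2_closed ε))
  obtain ⟨g, ⟨hgW, hgK⟩, hg⟩ := isCompact_iff_ultrafilter_le_nhds.1 hcomp
    ((hyperfilter ℕ).map fun k => f.comp (aff 1 ((z k).re : ℂ))) (by
      rw [le_principal_iff]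
      exact Filter.mem_map.2 (univ_mem' h3))
  have hg' : Tendsto (fun k => f.comp (aff 1 ((z k).re : ℂ))) (hyperfilter ℕ : Filter ℕ) (𝓝 g) := hg
  have hfc : f ∈ closure {h | ∃ A ∈ Tra, h = g.comp A} := hWmin g hgW (K2_NC hε hgK) hf
  -- recurrence
  have key : ∀ N ∈ 𝓝 f, ∀ R : ℝ, ∃ b : ℂ, R ≤ |b.re| ∧ f.comp (aff 1 b) ∈ N := by
    intro N hN R
    obtain ⟨N', hN'N, hN'o, hfN'⟩ := mem_nhds_iff.1 hN
    obtain ⟨_, hxN, A, ⟨b, rfl⟩, rfl⟩ := mem_closure_iff.1 hfc N' hN'o hfN'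
    have h5 : Tendsto (fun k => (f.comp (aff 1 ((z k).re : ℂ))).comp (aff 1 b))
        (hyperfilter ℕ : Filter ℕ) (𝓝 (g.comp (aff 1 b))) := hg'.compCM tendsto_const_nhds
    have h6 : ∀ᶠ k in (hyperfilter ℕ : Filter ℕ),
        (f.comp (aff 1 ((z k).re : ℂ))).comp (aff 1 b) ∈ N' := h5 (hN'o.mem_nhds hxN)
    have h7 : ∀ᶠ k : ℕ in (hyperfilter ℕ : Filter ℕ), R + |b.re| ≤ k := by
      have : ∀ᶠ k : ℕ in atTop, R + |b.re| ≤ k :=
        tendsto_natCast_atTop_atTop.eventually_ge_atTop _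
      exact Nat.hyperfilter_le_atTop this
    obtain ⟨k, hk1, hk2⟩ := (h6.and h7).exists
    refine ⟨b + (z k).re, ?_, ?_⟩
    · have h8 := hz k
      have h9 : (b + ((z k).re : ℂ)).re = b.re + (z k).re := by simp
      rw [h9]
      have h10 : |(z k).re| ≤ |b.re + (z k).re| + |b.re| := by
        calc |(z k).re| = |(b.re + (z k).re) - b.re| := by ring_nf
          _ ≤ _ := abs_sub _ _
      linarith
    · rw [ContinuousMap.comp_assoc, aff_comp] at hk1
      apply hN'N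
      simpa using hk1
  have hne : NeBot (comap (fun b : ℂ => f.comp (aff 1 b)) (𝓝 f) ⊓
      comap (fun b : ℂ => |b.re|) atTop) := by
    rw [inf_neBot_iff]
    intro s hs s' hs'
    obtain ⟨N, hN, hNs⟩ := mem_comap.1 hs
    obtain ⟨R, hR, hRs⟩ := mem_comap.1 hs'
    obtain ⟨R', hR'⟩ := mem_atTop_sets.1 hR
    obtain ⟨b, hb1, hb2⟩ := key N hN R'
    exact ⟨b, hNs hb2, hRs (hR' _ hb1)⟩
  refine ⟨Ultrafilter.of (comap (fun b : ℂ => f.comp (aff 1 b)) (𝓝 f) ⊓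
      comap (fun b : ℂ => |b.re|) atTop), ?_, ?_⟩
  · have : (Ultrafilter.of (comap (fun b : ℂ => f.comp (aff 1 b)) (𝓝 f) ⊓
      comap (fun b : ℂ => |b.re|) atTop) : Filter ℂ) ≤ comap (fun b : ℂ => |b.re|) atTop :=
      (Ultrafilter.of_le _).trans inf_le_right
    exact tendsto_comap.mono_left this
  · have : (Ultrafilter.of (comap (fun b : ℂ => f.comp (aff 1 b)) (𝓝 f) ⊓
      comap (fun b : ℂ => |b.re|) atTop) : Filter ℂ) ≤
      comap (fun b : ℂ => f.comp (aff 1 b)) (𝓝 f) :=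
      (Ultrafilter.of_le _).trans inf_le_left
    exact tendsto_comap.mono_left this

/-- Stage 2: a nonconstant periodic Brody curve gives a doubly periodic curve. -/
theorem stage2 (hA2 : S_A2 E M) {η c : ℝ} (hη : 0 < η) (hc : 0 < c)
    (hSch : Sch E M η) (hCmp : Cmp E M η) (hD1 : S_D1 E M) (hD2 : S_D2 E M) (hE1 : S_E1)
    (hE2 : S_E2) (hC1 : S_C1) (hC2 : S_C2) (hH : S_H) (hL : S_L E M) (hN : S_N E M) (hF : S_F)
    {S : Set (ℂ → M)} {Z : Set ℂ} (hS : Countably E M S Z)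
    (T : C(ℂ, M)) (hT : T ∈ W2 E M η c) (hTn : NC T) :
    ∃ s ∈ S, ∃ ω₁ ω₂ : ℂ, LinearIndependent ℝ ![ω₁, ω₂] ∧ ω₁ ∈ Per s ∧ ω₂ ∈ Per s := by
  obtain ⟨W, hW, hmin⟩ := stage2a hA2.1 hη hc hSch hCmp hD1 hE1 T hT hTn
  have hS' := hS
  obtain ⟨hSc, hZc, hSH, hex, h2⟩ := hS'
  obtain ⟨hN1, hN2⟩ := hN hA2 S Z hS
  obtain ⟨t₀, ht₀, j, U, hU, ⟨f, hfU, hfW⟩, hUW⟩ := hE2 M Tra W Tra_surj hmin S hSc
    (fun s hs => (hSH s hs).1.cont) (by
      intro g hg hgn
      obtain ⟨s, hs, φ, -, he⟩ := hex g (hW hg).1 hgn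
      exact ⟨s, hs, φ 0, (he 0).symm⟩)
  obtain ⟨ht₀H, ht₀N⟩ := hSH t₀ ht₀
  obtain ⟨t, rfl⟩ : ∃ t : C(ℂ, M), (t : ℂ → M) = t₀ := ⟨⟨t₀, ht₀H.cont⟩, rfl⟩
  obtain ⟨hfH, hfp, hfc⟩ := hW hfW
  have hfn : NC f := (hUW f hfU hfW).1
  obtain ⟨s', hs', φ, hφ, he⟩ := hex f hfH hfn
  have hφn : NC φ := by
    obtain ⟨z, z', hz⟩ := hfn
    exact ⟨z, z', fun h' => hz (by rw [he, he, h'])⟩
  obtain ⟨V, hV, r, hr, hVr⟩ := near_open f U hU hfU
  have hWinv := hmin.2.1
  have hss : s' = t := by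
    refine (hit hZc h2 ht₀ hs' hφ hφn hr (j := j) ?_).1
    intro b hb
    have h3 := (hUW _ (hVr f (mem_of_mem_nhds hV) b hb) (hWinv _ hfW _ ⟨b, rfl⟩)).2
    rw [← he b]
    simpa using h3
  subst hss
  rcases stage2b hA2.1 hc hCmp hW hmin f hfW with hcalm | ⟨u, hu1, hu2⟩
  · -- calm ends: a rational curve
    exfalso
    obtain ⟨u₁, u₂, hu₁, hu₂, he1, he2⟩ := hD2 hD1 hA2 f hfH hfp hcalm
    refine hN2 u₁ u₂ hu₁ hu₂ (fun z => (he1 z).trans (he2 z).symm) ?_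
    obtain ⟨z, z', hz⟩ := hfn
    exact ⟨Complex.exp z, Complex.exp z', by rwa [he1, he1]⟩
  · -- the lifts of the translates
    have hev : ∀ᶠ b in (u : Filter ℂ), ∃ γ ∈ Per t, ∃ z, ‖z‖ ≤ r ∧ ‖φ (z + b) - γ‖ ≤ j := by
      filter_upwards [hu2 hV] with b hb
      have hd : Differentiable ℂ fun z => φ (z + b) := hφ.comp (by fun_prop)
      have hn : NC fun z => φ (z + b) := by
        obtain ⟨z, z', hz⟩ := hφn
        exact ⟨z - b, z' - b, by simpa using hz⟩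
      obtain ⟨-, b', hb', γ, hγ, hγ'⟩ := hit (s := t) (s' := t) hZc h2 ht₀ ht₀ hd hn hr (j := j) (by
        intro b' hb'
        have h9 := (hUW _ (hVr _ hb b' hb') (hWinv _ (hWinv _ hfW _ ⟨b, rfl⟩) _ ⟨b', rfl⟩)).2
        rw [← he]
        simpa using h9)
      exact ⟨γ, hγ, b', (mem_ball_zero_iff.1 hb').le, hγ'⟩
    have hγex : ∀ b : ℂ, ∃ γ ∈ Per t, (∃ γ' ∈ Per t, ∃ z, ‖z‖ ≤ r ∧ ‖φ (z + b) - γ'‖ ≤ j) →
        ∃ z, ‖z‖ ≤ r ∧ ‖φ (z + b) - γ‖ ≤ j := by
      intro b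
      by_cases h : ∃ γ' ∈ Per t, ∃ z, ‖z‖ ≤ r ∧ ‖φ (z + b) - γ'‖ ≤ j
      · obtain ⟨γ, hγ, h'⟩ := h
        exact ⟨γ, hγ, fun _ => h'⟩
      · exact ⟨0, fun z => by rw [add_zero], fun h' => absurd h' h⟩
    choose γ hγ hγ' using hγex
    -- the lifts
    let ψ : ℂ → C(ℂ, ℂ) := fun b => ⟨fun z => φ (z + b) - γ b, by
      have := hφ.continuous
      fun_prop⟩
    have hψ : ∀ b z, ψ b z = φ (z + b) - γ b := fun b z => rfl
    have hψd : ∀ b, Differentiable ℂ (ψ b) := fun b =>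
      (hφ.comp (by fun_prop : Differentiable ℂ fun z => z + b)).sub_const _
    have hψt : ∀ b z, t (ψ b z) = f (z + b) := by
      intro b z
      have h3 : t (φ (z + b) + -γ b) = t (φ (z + b)) := Per_neg (hγ b) _
      rw [hψ, sub_eq_add_neg, h3, he]
    have hbd : ∀ R : ℝ, ∃ B : ℝ, ∀ᶠ b in (u : Filter ℂ), ∀ z, ‖z‖ ≤ R → ‖ψ b z‖ ≤ B := by
      intro R
      obtain ⟨B, hB⟩ := hL hC1 hH η hη hSch t ht₀H ht₀N (hA2.2.1 t ht₀H) c hc j (max R r)
        (lt_max_of_lt_right hr)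
      refine ⟨B, ?_⟩
      filter_upwards [hev] with b hb z hz
      obtain ⟨z', hz', hz''⟩ := hγ' b hb
      refine hB (ψ b) (hψd b) ?_ ⟨z', hz'.trans (le_max_right _ _), hz''⟩ z
        (hz.trans (le_max_left _ _))
      intro x y hy
      simp only [hψt]
      refine hfc (x + b) (y + b) ?_
      rw [mem_ball] at hy ⊢
      simpa using hy
    obtain ⟨Ψ, hΨ, hΨt⟩ := hC2 ℂ u ψ hψd hbd
    -- the limit is a lift of `f`
    have h4 : t.comp Ψ = f := by
      have h5 : Tendsto (fun b => t.comp (ψ b)) (u : Filter ℂ) (𝓝 (t.comp Ψ)) :=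
        tendsto_const_nhds.compCM hΨt
      have h6 : (fun b => t.comp (ψ b)) = fun b : ℂ => f.comp (aff 1 b) := by
        funext b
        ext z
        simp only [ContinuousMap.comp_apply, aff_apply, one_mul]
        exact hψt b z
      rw [h6] at h5
      exact tendsto_nhds_unique h5 hu2
    obtain ⟨-, γ₀, hγ₀, hγ₀'⟩ := hN1 t ht₀ t ht₀ φ Ψ hφ hφn hΨ (by
      intro z
      rw [← he, ← h4]
      rfl)
    obtain ⟨-, ω, hω, hω'⟩ := hN1 t ht₀ t ht₀ φ (fun z => φ (z + 2 * Real.pi * Complex.I)) hφ hφn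
      (hφ.comp (by fun_prop)) (by
      intro z
      rw [← he, ← he, hfp])
    have hpi : (2 * Real.pi * Complex.I : ℂ) ≠ 0 := Complex.two_pi_I_ne_zero
    -- the periodic part
    let g : C(ℂ, ℂ) := ⟨fun z => φ z - ω * z / (2 * Real.pi * Complex.I), by
      have := hφ.continuous
      fun_prop⟩
    have hg : ∀ z, g z = φ z - ω * z / (2 * Real.pi * Complex.I) := fun z => rfl
    have hgd : Differentiable ℂ g := hφ.sub (by fun_prop)
    have hgp : ∀ z, g (z + 2 * Real.pi * Complex.I) = g z := by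
      intro z
      have h5 : φ (z + 2 * Real.pi * Complex.I) = φ z + ω := hω' z
      rw [hg, hg, h5]
      field_simp
      ring
    have hgc := hF g hgd hgp ℂ u (fun b => b)
      (fun b => ω * b / (2 * Real.pi * Complex.I) - γ b - γ₀) hu1 (by
      have h5 : (fun b : ℂ => g.comp (aff 1 b) +
          ContinuousMap.const ℂ (ω * b / (2 * Real.pi * Complex.I) - γ b - γ₀)) =
          fun b => ψ b + (g - Ψ) := by
        funext b
        ext z
        simp only [ContinuousMap.add_apply, ContinuousMap.sub_apply, ContinuousMap.comp_apply,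
          aff_apply, one_mul, ContinuousMap.const_apply, hg, hψ]
        rw [hγ₀' z]
        field_simp
        ring
      rw [h5]
      have h6 : Tendsto (fun b => ψ b + (g - Ψ)) (u : Filter ℂ) (𝓝 (Ψ + (g - Ψ))) :=
        hΨt.add tendsto_const_nhds
      have h7 : Ψ + (g - Ψ) = g := by abel
      rwa [h7] at h6)
    have hgc' : ∀ z, φ z = ω * z / (2 * Real.pi * Complex.I) + φ 0 := by
      intro z
      have h5 : g z = g 0 := by
        by_contra h
        exact hgc ⟨z, 0, h⟩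
      rw [hg, hg, mul_zero, zero_div, sub_zero] at h5
      rw [← h5]
      ring
    have hω0 : ω ≠ 0 := by
      rintro rfl
      obtain ⟨z, z', hz⟩ := hφn
      apply hz
      rw [hgc' z, hgc' z']
      simp
    -- the second period
    have h8 : Tendsto (fun b => ψ b 0) (u : Filter ℂ) (𝓝 (Ψ 0)) :=
      ((ContinuousEvalConst.continuous_eval_const (0 : ℂ)).tendsto Ψ).comp hΨt
    have h9 : ∀ᶠ b in (u : Filter ℂ), ‖ψ b 0 - Ψ 0‖ < 1 := by
      have := Metric.tendsto_nhds.1 h8 1 one_pos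
      simpa [dist_eq_norm] using this
    have h10 : ∀ᶠ b in (u : Filter ℂ),
        (‖Ψ 0‖ + ‖φ 0‖ + 1) / ‖ω‖ * (2 * Real.pi) < |b.re| :=
      hu1.eventually_gt_atTop _
    obtain ⟨b, hb1, hb2⟩ := (h9.and h10).exists
    refine ⟨t, ht₀, ω, γ b, ?_, hω, hγ b⟩
    rw [LinearIndependent.pair_iff' hω0]
    intro a ha
    have h11 : ‖ω * b / (2 * Real.pi * Complex.I) - γ b‖ ≤ ‖Ψ 0‖ + ‖φ 0‖ + 1 := by
      have e : ω * b / (2 * Real.pi * Complex.I) - γ b = (ψ b 0 - Ψ 0) + Ψ 0 - φ 0 := by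
        rw [hψ, zero_add, hgc' b]
        ring
      rw [e]
      have n1 := norm_sub_le ((ψ b 0 - Ψ 0) + Ψ 0) (φ 0)
      have n2 := norm_add_le (ψ b 0 - Ψ 0) (Ψ 0)
      linarith
    have h12 : ω * b / (2 * Real.pi * Complex.I) - γ b =
        ω * (b / (2 * Real.pi * Complex.I) - a) := by
      rw [← ha, Complex.real_smul]
      ring
    rw [h12, norm_mul] at h11
    have h13 : |b.re| / (2 * Real.pi) ≤ ‖b / (2 * Real.pi * Complex.I) - a‖ := by
      refine le_trans ?_ (Complex.abs_im_le_norm _)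
      have e : (b / (2 * Real.pi * Complex.I) - a : ℂ).im = -(b.re / (2 * Real.pi)) := by
        have e1 : b / (2 * Real.pi * Complex.I) = ((1 / (2 * Real.pi) : ℝ) : ℂ) * (b * -Complex.I) := by
          have : (Real.pi : ℂ) ≠ 0 := Complex.ofReal_ne_zero.2 Real.pi_ne_zero
          push_cast
          field_simp
          rw [Complex.I_sq]
          ring
        rw [e1]
        simp
        ring
      rw [e, abs_neg, abs_div, abs_of_pos Real.two_pi_pos]
    have hωpos : 0 < ‖ω‖ := norm_pos_iff.2 hω0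
    have h14 : ‖ω‖ * (|b.re| / (2 * Real.pi)) ≤ ‖Ψ 0‖ + ‖φ 0‖ + 1 :=
      (mul_le_mul_of_nonneg_left h13 hωpos.le).trans h11
    have h15 : (‖Ψ 0‖ + ‖φ 0‖ + 1) / ‖ω‖ < |b.re| / (2 * Real.pi) := by
      rw [lt_div_iff₀ Real.two_pi_pos]
      exact hb2
    rw [div_lt_iff₀ hωpos] at h15
    linarith

end Pool.Agent.K4H47.BR
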