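import Pool.Agent.K4H47.BR.Stage1
import Pool.Agent.K4H47.BR.Stage2

set_option autoImplicit false
set_option linter.unusedSectionVars false

open Filter Topology Metric Set
open scoped Manifold

namespace Pool.Agent.K4H47.BR

/-- all the statements of the jobs -/
structure Jobs (E : Type) [NormedAddCommGroup E] [NormedSpace ℂ E] [FiniteDimensional ℂ E]
    (M : Type) [MetricSpace M] [CompactSpace M] [ChartedSpace E M] [IsManifold 𝓘(ℂ, E) 1 M] :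
    Prop where
  a1 : S_A1 E M
  a2 : S_A2 E M
  a3 : S_A3 E M
  d1 : S_D1 E M
  d2 : S_D2 E M
  c1 : S_C1
  c2 : S_C2
  c3 : S_C3
  f : S_F
  e1 : S_E1
  e2 : S_E2
  h : S_H
  l : S_L E M
  r : S_R E M
  k : S_K E M
  g : S_G E M
  g2 : S_G2 E M
  n : S_N E M

section

variable {E : Type} [NormedAddCommGroup E] [NormedSpace ℂ E] [FiniteDimensional ℂ E] {M : Type}
  [MetricSpace M] [CompactSpace M] [ChartedSpace E M] [IsManifold 𝓘(ℂ, E) 1 M]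

/-- the theorem from the jobs -/
theorem main (J : Jobs E M) {S : Set (ℂ → M)} {Z : Set ℂ} (hS : Countably E M S Z) (f₀ : ℂ → M)
    (hf₀ : Hol E f₀) (hn₀ : NC f₀) :
    ∃ s ∈ S, ∃ ω₁ ω₂ : ℂ, LinearIndependent ℝ ![ω₁, ω₂] ∧ ω₁ ∈ Per s ∧ ω₂ ∈ Per s := by
  obtain ⟨η, hη, hSch⟩ := J.a1
  have hCmp := J.a3 η hη hSch J.a2.1
  obtain ⟨s, -, hsH, hsN, hCen⟩ := stage1 J.a2 hη (J.k η hη hSch J.a2.1 hCmp J.r) J.e1 J.e2 J.c3
    J.c1 J.c2 hS f₀ hf₀ hn₀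
  obtain ⟨T, hTH, hTN, hTp, c, hc, hTc⟩ := J.g2 η hη s hsH hsN (J.g η hη hSch hCmp J.r s hsH hsN hCen)
  exact stage2 J.a2 hη hc hSch hCmp J.d1 J.d2 J.e1 J.e2 J.c1 J.c2 J.h J.l J.n J.f hS T
    ⟨hTH, hTp, hTc⟩ hTN

/-- the fibres of a nonconstant curve are countable -/
theorem fibre_countable (hid : ∀ f : ℂ → M, Hol E f → ∀ z₀ : ℂ, (∃ᶠ z in 𝓝[≠] z₀, f z = f z₀) →
    ∀ z, f z = f z₀) {s : ℂ → M} (hs : Hol E s) (hn : NC s) (p : M) : (s ⁻¹' {p}).Countable := by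
  have hcl : IsClosed (s ⁻¹' {p}) := isClosed_singleton.preimage hs.continuous
  have hd : DiscreteTopology (s ⁻¹' {p}) := by
    rw [discreteTopology_subtype_iff]
    intro x hx
    by_contra hcon
    have hne : NeBot (𝓝[≠] x ⊓ 𝓟 (s ⁻¹' {p})) := ⟨hcon⟩
    have h1 : ∃ᶠ z in 𝓝[≠] x, s z = s x := by
      have h2 : ∃ᶠ z in 𝓝[≠] x, z ∈ s ⁻¹' {p} := frequently_mem_iff_neBot.2 hne
      refine h2.mono fun z hz => ?_
      rw [show s z = p from hz, show s x = p from hx]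
    have h2 := hid s hs x h1
    obtain ⟨z, z', hz⟩ := hn
    exact hz ((h2 z).trans (h2 z').symm)
  have : Countable (s ⁻¹' {p}) := by
    have : SecondCountableTopology (s ⁻¹' {p}) := inferInstance
    exact countable_of_Lindelof_of_discrete
  exact Set.countable_coe_iff.1 this

end

/-- **Theorem.** -/
theorem final (E : Type) [NormedAddCommGroup E] [NormedSpace ℂ E] [FiniteDimensional ℂ E]
    (J : ∀ (M : Type) [MetricSpace M] [CompactSpace M] [ChartedSpace E M]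
      [IsManifold 𝓘(ℂ, E) 1 M], Jobs E M)
    (M : Type) [TopologicalSpace M] [T2Space M] [CompactSpace M] [ChartedSpace E M]
    [IsManifold 𝓘(ℂ, E) 1 M] (S : Set (ℂ → M)) (hS : S.Countable)
    (hS1 : ∀ s ∈ S, MDifferentiable 𝓘(ℂ, ℂ) 𝓘(ℂ, E) s ∧ ∃ z z', s z ≠ s z')
    (hS2 : ∀ s ∈ S, {w : ℂ | ∃ w', s w' = s w ∧ ¬ ∀ z, s (z + (w' - w)) = s z}.Countable)
    (hS3 : ∀ s ∈ S, ∀ s' ∈ S, s ≠ s' → (range s ∩ range s').Countable)
    (hS4 : ∀ f : ℂ → M, MDifferentiable 𝓘(ℂ, ℂ) 𝓘(ℂ, E) f → (∃ z z', f z ≠ f z') →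
      ∃ s ∈ S, ∃ φ : ℂ → ℂ, Differentiable ℂ φ ∧ f = s ∘ φ)
    (f : ℂ → M) (hf : MDifferentiable 𝓘(ℂ, ℂ) 𝓘(ℂ, E) f) (hf' : ∃ z z', f z ≠ f z') :
    ∃ s ∈ S, ∃ ω₁ ω₂ : ℂ, LinearIndependent ℝ ![ω₁, ω₂] ∧ (∀ z, s (z + ω₁) = s z) ∧
      ∀ z, s (z + ω₂) = s z := by
  have : ProperSpace E := FiniteDimensional.proper ℂ E
  have hsc : SecondCountableTopology M := ChartedSpace.secondCountable_of_sigmaCompact E M
  have hmet : TopologicalSpace.MetrizableSpace M := inferInstance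
  letI : MetricSpace M := TopologicalSpace.metrizableSpaceMetric M
  have JM := J M
  have hZ : ∃ Z : Set ℂ, Countably E M S Z := by
    refine ⟨(⋃ s ∈ S, {w : ℂ | ∃ w', s w' = s w ∧ ¬ ∀ z, s (z + (w' - w)) = s z}) ∪
      ⋃ s ∈ S, ⋃ s' ∈ S, ⋃ (_ : s ≠ s'), ⋃ p ∈ range s ∩ range s', s ⁻¹' {p}, hS, ?_, hS1, ?_, ?_⟩
    · refine (hS.biUnion hS2).union (hS.biUnion fun s hs => hS.biUnion fun s' hs' => ?_)
      refine Set.countable_iUnion fun hne => ?_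
      exact (hS3 s hs s' hs' hne).biUnion fun p _ =>
        fibre_countable (E := E) JM.a2.2.1 (hS1 s hs).1 (hS1 s hs).2 p
    · intro f hf hfn
      obtain ⟨s, hs, φ, hφ, rfl⟩ := hS4 f hf hfn
      exact ⟨s, hs, φ, hφ, fun z => rfl⟩
    · intro s hs s' hs' w w' hw he
      rw [mem_union, not_or] at hw
      obtain ⟨hw1, hw2⟩ := hw
      have hss : s' = s := by
        by_contra hne
        apply hw2
        simp only [mem_iUnion]
        exact ⟨s, hs, s', hs', fun h => hne h.symm, s w, ⟨⟨w, rfl⟩, ⟨w', he.symm⟩⟩, rfl⟩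
      subst hss
      refine ⟨rfl, ?_⟩
      by_contra hcon
      apply hw1
      simp only [mem_iUnion]
      exact ⟨s', hs, w', he.symm, hcon⟩
  obtain ⟨Z, hZ⟩ := hZ
  exact main JM hZ f hf hf'

end Pool.Agent.K4H47.BR
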