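import Mathlib

/-!
# Entire curves in compact complex manifolds: definitions and statements of the jobs

`M` is a compact metric space with the structure of a complex manifold modelled on the finite
dimensional complex normed space `E` (the metric is any metric that gives the topology of `M`).
Entire curves are the `MDifferentiable` maps `ℂ → M`.
-/

set_option autoImplicit false

open Filter Topology Metric Set
open scoped Manifold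

namespace Pool.Agent.K4H47.BR

section defs

variable (E : Type) [NormedAddCommGroup E] [NormedSpace ℂ E] {M : Type} [MetricSpace M]
  [ChartedSpace E M]

/-- holomorphic maps `ℂ → M` -/
abbrev Hol (f : ℂ → M) : Prop := MDifferentiable 𝓘(ℂ, ℂ) 𝓘(ℂ, E) f

/-- holomorphic on an open set -/
abbrev HolOn (U : Set ℂ) (f : ℂ → M) : Prop := MDifferentiableOn 𝓘(ℂ, ℂ) 𝓘(ℂ, E) f U

end defs

/-- nonconstant -/
def NC {M : Type} (f : ℂ → M) : Prop := ∃ z z', f z ≠ f z'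

/-- the affine map `z ↦ a z + b` -/
def aff (a b : ℂ) : C(ℂ, ℂ) := ⟨fun z => a * z + b, by fun_prop⟩

/-- the group of affine maps -/
def Aff : Set C(ℂ, ℂ) := {A | ∃ a b : ℂ, a ≠ 0 ∧ A = aff a b}

/-- the group of translations -/
def Tra : Set C(ℂ, ℂ) := {A | ∃ b : ℂ, A = aff 1 b}

/-- `f` maps the ball around `a` of radius `r` to the `η`-ball around `f a` -/
def Near {M : Type} [MetricSpace M] (η : ℝ) (f : ℂ → M) (a : ℂ) (r : ℝ) : Prop :=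
  ∀ z ∈ ball a r, dist (f z) (f a) ≤ η

/-- the periods of `s` -/
def Per {M : Type} (s : ℂ → M) : Set ℂ := {γ | ∀ z, s (z + γ) = s z}

section jobs

variable (E : Type) [NormedAddCommGroup E] [NormedSpace ℂ E] [FiniteDimensional ℂ E] (M : Type)
  [MetricSpace M] [CompactSpace M] [ChartedSpace E M] [IsManifold 𝓘(ℂ, E) 1 M]

/-- the Schwarz lemma for curves which stay in an `η`-ball -/
def Sch (η : ℝ) : Prop := ∀ ε : ℝ, 0 < ε → ∃ δ : ℝ, 0 < δ ∧ δ ≤ 1 ∧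
  ∀ (f : ℂ → M) (a : ℂ) (r : ℝ), 0 < r → HolOn E (ball a r) f → Near η f a r →
    ∀ z, dist z a < δ * r → dist (f z) (f a) < ε

/-- the holomorphic curves -/
def HolSet : Set C(ℂ, M) := {f | Hol E f}

/-- Job A1. -/
def S_A1 : Prop := ∃ η : ℝ, 0 < η ∧ Sch E M η

/-- Job A2. (1) The holomorphic maps are closed in `C(ℂ, M)`. (2) Identity theorem. (3) Removable
singularities. -/
def S_A2 : Prop :=
  IsClosed (HolSet E M) ∧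
  (∀ f : ℂ → M, Hol E f → ∀ z₀ : ℂ, (∃ᶠ z in 𝓝[≠] z₀, f z = f z₀) → ∀ z, f z = f z₀) ∧
  (∀ f : ℂ → M, ContinuousAt f 0 → (∀ z, z ≠ 0 → MDifferentiableAt 𝓘(ℂ, ℂ) 𝓘(ℂ, E) f z) →
    Hol E f)

/-- compactness along ultrafilters -/
def Cmp (η : ℝ) : Prop := ∀ (ι : Type) (u : Ultrafilter ι) (F : ι → C(ℂ, M)),
  (∀ i, Hol E (F i)) → (∀ z : ℂ, ∃ r : ℝ, 0 < r ∧ ∀ᶠ i in (u : Filter ι), Near η (F i) z r) →
    ∃ f : C(ℂ, M), Hol E f ∧ Tendsto F u (𝓝 f)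

/-- Job A3. -/
def S_A3 : Prop := ∀ η : ℝ, 0 < η → Sch E M η → IsClosed (HolSet E M) → Cmp E M η

/-- Job D1. If all the circles of a cylinder have small images then the whole cylinder has. -/
def S_D1 : Prop :=
  ∀ η : ℝ, 0 < η → ∃ δ : ℝ, 0 < δ ∧ ∀ (F : ℂ → M) (x₁ x₂ : ℝ),
    HolOn E {z | x₁ < z.re ∧ z.re < x₂} F → (∀ z, F (z + 2 * Real.pi * Complex.I) = F z) →
    (∀ z z' : ℂ, z.re = z'.re → x₁ < z.re → z.re < x₂ → dist (F z) (F z') ≤ δ) →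
    ∀ z z' : ℂ, x₁ < z.re → z.re < x₂ → x₁ < z'.re → z'.re < x₂ → dist (F z) (F z') ≤ η

/-- Job D2. A periodic curve with small circles near both ends comes from a holomorphic map from
the projective line, with the coordinates `exp z` and `exp (-z)`. -/
def S_D2 : Prop := S_D1 E M → S_A2 E M → ∀ F : ℂ → M, Hol E F →
  (∀ z, F (z + 2 * Real.pi * Complex.I) = F z) →
  (∀ ε : ℝ, 0 < ε → ∃ R : ℝ, ∀ z z' : ℂ, z.re = z'.re → R ≤ |z.re| → dist (F z) (F z') ≤ ε) →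
    ∃ u₁ u₂ : ℂ → M, Hol E u₁ ∧ Hol E u₂ ∧ (∀ z, u₁ (Complex.exp z) = F z) ∧
      ∀ z, u₂ (Complex.exp (-z)) = F z

end jobs

/-- Job C1 (Clunie-Hayman). -/
def S_C1 : Prop := ∀ (φ : ℂ → ℂ) (R L : ℝ), 0 < R → 0 ≤ L → Differentiable ℂ φ →
  (∀ z, ‖z‖ ≤ 3 * R → ‖φ z‖ ≤ 1 → ‖deriv φ z‖ ≤ L) → (∃ z, ‖z‖ ≤ R ∧ ‖φ z‖ ≤ 1) →
  ∀ z, ‖z‖ ≤ R → ‖φ z‖ ≤ Real.exp (4 * L * R)

/-- Job C2 (Montel along ultrafilters). -/
def S_C2 : Prop := ∀ (ι : Type) (u : Ultrafilter ι) (F : ι → C(ℂ, ℂ)),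
  (∀ i, Differentiable ℂ (F i)) →
  (∀ R : ℝ, ∃ B : ℝ, ∀ᶠ i in (u : Filter ι), ∀ z, ‖z‖ ≤ R → ‖F i z‖ ≤ B) →
  ∃ f : C(ℂ, ℂ), Differentiable ℂ f ∧ Tendsto F u (𝓝 f)

/-- Job C3: rescaling an entire function near given values. -/
def S_C3 : Prop := S_C1 → S_C2 → ∀ φ : C(ℂ, ℂ), Differentiable ℂ φ → NC φ →
  ∀ (w : ℕ → ℂ) (ρ : ℕ → ℝ), (∀ k, 0 < ρ k) →
  ∃ (a b : ℕ → ℂ) (F : ℕ → C(ℂ, ℂ)) (Ψ : C(ℂ, ℂ)), (∀ k, a k ≠ 0) ∧
    (∀ k z, φ (a k * z + b k) = w k + ρ k * F k z) ∧ Differentiable ℂ Ψ ∧ NC Ψ ∧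
    Tendsto F (hyperfilter ℕ) (𝓝 Ψ)

/-- Job F: no recurrence (up to constants) of periodic entire functions. -/
def S_F : Prop := ∀ g : C(ℂ, ℂ), Differentiable ℂ g →
  (∀ z, g (z + 2 * Real.pi * Complex.I) = g z) →
  ∀ (ι : Type) (u : Ultrafilter ι) (b c : ι → ℂ),
  Tendsto (fun k => |(b k).re|) (u : Filter ι) atTop →
  Tendsto (fun k => g.comp (aff 1 (b k)) + ContinuousMap.const ℂ (c k)) (u : Filter ι) (𝓝 g) →
  ¬ NC g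

/-- `W` is closed under precomposition with the maps of `G` -/
def Inv {M : Type} [TopologicalSpace M] (G : Set C(ℂ, ℂ)) (W : Set C(ℂ, M)) : Prop :=
  ∀ f ∈ W, ∀ A ∈ G, f.comp A ∈ W

/-- a minimal closed invariant set of curves -/
def Minimal' {M : Type} [TopologicalSpace M] (G : Set C(ℂ, ℂ)) (W : Set C(ℂ, M)) : Prop :=
  IsClosed W ∧ Inv G W ∧ (∃ f ∈ W, NC f) ∧ ∀ g ∈ W, NC g → W ⊆ closure {h | ∃ A ∈ G, h = g.comp A}

/-- Job E1: existence of minimal sets. -/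
def S_E1 : Prop := ∀ (M : Type) [MetricSpace M] [CompactSpace M] (G : Set C(ℂ, ℂ)),
  ContinuousMap.id ℂ ∈ G → (∀ A ∈ G, ∀ B ∈ G, A.comp B ∈ G) → ∀ (W₀ K : Set C(ℂ, M)),
  IsClosed W₀ → Inv G W₀ → (∃ f ∈ W₀, NC f) → IsCompact K → (∀ f ∈ K, NC f) →
  (∀ W, W ⊆ W₀ → IsClosed W → Inv G W → (∃ f ∈ W, NC f) → (W ∩ K).Nonempty) →
  ∃ W, W ⊆ W₀ ∧ Minimal' G W

/-- Job E2: Baire's theorem in a minimal set. -/
def S_E2 : Prop := ∀ (M : Type) [MetricSpace M] [CompactSpace M] (G : Set C(ℂ, ℂ))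
  (W : Set C(ℂ, M)), (∀ A ∈ G, Function.Surjective A) → Minimal' G W →
  ∀ S : Set (ℂ → M), S.Countable → (∀ s ∈ S, Continuous s) →
  (∀ g ∈ W, NC g → ∃ s ∈ S, g 0 ∈ range s) →
  ∃ s ∈ S, ∃ (j : ℕ) (U : Set C(ℂ, M)), IsOpen U ∧ (U ∩ W).Nonempty ∧
    ∀ g ∈ U, g ∈ W → NC g ∧ g 0 ∈ s '' closedBall (0 : ℂ) j

/-- Job H: circles avoiding the fibres. -/
def S_H : Prop := ∀ (M : Type) [MetricSpace M] [CompactSpace M] (t : ℂ → M), Continuous t →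
  NC t → (∀ z₀ : ℂ, (∃ᶠ z in 𝓝[≠] z₀, t z = t z₀) → ∀ z, t z = t z₀) → ∀ J : ℝ, 0 ≤ J →
  ∃ ε : ℝ, 0 < ε ∧ ∀ q : M, ∃ ρ : ℝ, J < ρ ∧ ρ < J + 1 ∧ ∀ w : ℂ, ‖w‖ = ρ → ε ≤ dist (t w) q

section jobs2

variable (E : Type) [NormedAddCommGroup E] [NormedSpace ℂ E] [FiniteDimensional ℂ E] (M : Type)
  [MetricSpace M] [CompactSpace M] [ChartedSpace E M] [IsManifold 𝓘(ℂ, E) 1 M]

/-- Job L: lifts of uniformly near curves are locally bounded. -/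
def S_L : Prop := S_C1 → S_H → ∀ η : ℝ, 0 < η → Sch E M η →
  ∀ t : ℂ → M, Hol E t → NC t → (∀ z₀ : ℂ, (∃ᶠ z in 𝓝[≠] z₀, t z = t z₀) → ∀ z, t z = t z₀) →
  ∀ c : ℝ, 0 < c → ∀ (J R : ℝ), 0 < R → ∃ B : ℝ, ∀ ψ : ℂ → ℂ, Differentiable ℂ ψ →
    (∀ z, Near η (fun z => t (ψ z)) z c) → (∃ z, ‖z‖ ≤ R ∧ ‖ψ z‖ ≤ J) →
    ∀ z, ‖z‖ ≤ R → ‖ψ z‖ ≤ B

/-- the compact set of Brody curves -/
def K1 (η : ℝ) : Set C(ℂ, M) := {g | Hol E g ∧ (∀ z, Near η g z (1 / 2)) ∧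
  ∃ z ∈ closedBall (0 : ℂ) 1, η ≤ dist (g z) (g 0)}

/-- Job R: limits of curves which are near on larger and larger discs. -/
def S_R : Prop := ∀ η : ℝ, 0 < η → Cmp E M η → ∀ (ι : Type) (u : Ultrafilter ι)
  (F : ι → C(ℂ, M)), (∀ i, Hol E (F i)) → ∀ N : ι → ℝ, Tendsto N u atTop → ∀ c : ℝ, 0 < c →
  (∀ i z, ‖z‖ ≤ N i → Near η (F i) z c) → (∀ i, ∃ z ∈ closedBall (0 : ℂ) 1, η ≤ dist (F i z) (F i 0)) →
  ∃ g : C(ℂ, M), Hol E g ∧ Tendsto F u (𝓝 g) ∧ (∀ z, Near η g z c) ∧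
    ∃ z ∈ closedBall (0 : ℂ) 1, η ≤ dist (g z) (g 0)

/-- Job K: the compact set of Brody curves meets every closed invariant set. -/
def S_K : Prop := ∀ η : ℝ, 0 < η → Sch E M η → IsClosed (HolSet E M) → Cmp E M η →
  S_R E M → IsCompact (K1 E M η) ∧
  ∀ W : Set C(ℂ, M), W ⊆ HolSet E M → IsClosed W → Inv Aff W → (∃ f ∈ W, NC f) →
    (W ∩ K1 E M η).Nonempty

/-- the rescaled curves of `s` with a nonconstant limit have their centres near the periods -/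
def Cen (s : C(ℂ, M)) : Prop := ∀ (w : ℕ → ℂ) (ρ : ℕ → ℝ), (∀ k, 0 < ρ k) → ∀ g : C(ℂ, M),
  Tendsto (fun k => s.comp (aff (ρ k) (w k))) (hyperfilter ℕ) (𝓝 g) → NC g →
  ∃ C : ℝ, ∀ᶠ k in (hyperfilter ℕ : Filter ℕ), infDist (w k) (Per s) ≤ C * (1 + ρ k)

/-- Job G: growth. -/
def S_G : Prop := ∀ η : ℝ, 0 < η → Sch E M η → Cmp E M η → S_R E M → ∀ s : C(ℂ, M), Hol E s →
  NC s → Cen M s → ∃ c C : ℝ, 0 < c ∧ 0 < C ∧
    (∀ w : ℂ, C ≤ infDist w (Per s) → Near η s w (c * infDist w (Per s)))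

/-- Job G2: a nonconstant periodic Brody curve. -/
def S_G2 : Prop := ∀ η : ℝ, 0 < η → ∀ s : C(ℂ, M), Hol E s → NC s → (∃ c C : ℝ, 0 < c ∧ 0 < C ∧
    (∀ w : ℂ, C ≤ infDist w (Per s) → Near η s w (c * infDist w (Per s)))) →
  ∃ T : C(ℂ, M), Hol E T ∧ NC T ∧ (∀ z, T (z + 2 * Real.pi * Complex.I) = T z) ∧
    ∃ c : ℝ, 0 < c ∧ ∀ z, Near η T z c

/-- the hypotheses of the theorem: up to reparametrisation there are only countably many entire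
curves, and no rational curve -/
def Countably (S : Set (ℂ → M)) (Z : Set ℂ) : Prop :=
  S.Countable ∧ Z.Countable ∧ (∀ s ∈ S, Hol E s ∧ NC s) ∧
  (∀ f : ℂ → M, Hol E f → NC f → ∃ s ∈ S, ∃ φ : ℂ → ℂ, Differentiable ℂ φ ∧ ∀ z, f z = s (φ z)) ∧
  ∀ s ∈ S, ∀ s' ∈ S, ∀ w w', w ∉ Z → s w = s' w' → s' = s ∧ ∀ z, s (z + (w' - w)) = s z

/-- Job N: uniqueness of lifts and no rational curves. -/
def S_N : Prop := S_A2 E M → ∀ (S : Set (ℂ → M)) (Z : Set ℂ), Countably E M S Z →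
  (∀ s ∈ S, ∀ s' ∈ S, ∀ φ ψ : ℂ → ℂ, Differentiable ℂ φ → NC φ → Differentiable ℂ ψ →
    (∀ z, s (φ z) = s' (ψ z)) → s' = s ∧ ∃ γ ∈ Per s, ∀ z, ψ z = φ z + γ) ∧
  (∀ u₁ u₂ : ℂ → M, Hol E u₁ → Hol E u₂ →
    (∀ z, u₁ (Complex.exp z) = u₂ (Complex.exp (-z))) → ¬ NC u₁)

end jobs2

end Pool.Agent.K4H47.BR
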