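import Mathlib
import Pool.Agent.K4H47.BR.Spec

/-!
# Baire's theorem in a minimal set of curves (job E2)
-/

set_option autoImplicit false

open Filter Topology Metric Set
open scoped Manifold Uniformity

namespace Pool.Agent.K4H47.BR

theorem baire_closed {M : Type} [MetricSpace M] [CompactSpace M] {W : Set C(ℂ, M)}
    (hW : IsClosed W) : BaireSpace W := by
  have : CompleteSpace W := hW.completeSpace_coe
  have : (𝓤 W).IsCountablyGenerated := Filter.comap.isCountablyGenerated _ _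
  infer_instance

theorem isClosed_const {M : Type} [MetricSpace M] : IsClosed {g : C(ℂ, M) | ¬ NC g} := by
  have e : {g : C(ℂ, M) | ¬ NC g} = ⋂ z : ℂ, ⋂ z' : ℂ, {g : C(ℂ, M) | g z = g z'} := by
    ext g
    simp [NC]
  rw [e]
  exact isClosed_iInter fun z => isClosed_iInter fun z' =>
    isClosed_eq (ContinuousEvalConst.continuous_eval_const z)
      (ContinuousEvalConst.continuous_eval_const z')

theorem e2 : S_E2 := by
  intro M _ _ G W hG hmin S hS hSc hSr
  obtain ⟨hWc, hinv, ⟨h, hhW, hhnc⟩, hdense⟩ := hmin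
  have := baire_closed hWc
  have : Countable S := hS.to_subtype
  have : Nonempty W := ⟨⟨h, hhW⟩⟩
  -- an open set that meets `W` contains a nonconstant element of `W`
  have key : ∀ U : Set C(ℂ, M), IsOpen U → (U ∩ W).Nonempty → ∃ g ∈ U ∩ W, NC g := by
    rintro U hU ⟨g, hgU, hgW⟩
    obtain ⟨k, hkU, A, hA, rfl⟩ := mem_closure_iff.1 (hdense h hhW hhnc hgW) U hU hgU
    refine ⟨h.comp A, ⟨hkU, hinv h hhW A hA⟩, ?_⟩
    obtain ⟨z, z', hz⟩ := hhnc
    obtain ⟨y, rfl⟩ := hG A hA z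
    obtain ⟨y', rfl⟩ := hG A hA z'
    exact ⟨y, y', hz⟩
  let f : Option (S × ℕ) → Set W := fun i => match i with
    | none => {g : W | ¬ NC (g : C(ℂ, M))}
    | some (s, j) => {g : W | (g : C(ℂ, M)) 0 ∈ (s : ℂ → M) '' closedBall (0 : ℂ) j}
  have hc : ∀ i, IsClosed (f i) := by
    rintro (_ | ⟨s, j⟩)
    · exact isClosed_const.preimage continuous_subtype_val
    · have h1 : IsClosed ((s : ℂ → M) '' closedBall (0 : ℂ) j) :=
        ((isCompact_closedBall _ _).image (hSc s s.2)).isClosed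
      exact h1.preimage ((ContinuousEvalConst.continuous_eval_const (0 : ℂ)).comp
        continuous_subtype_val)
  have hU : ⋃ i, f i = univ := by
    rw [eq_univ_iff_forall]
    intro g
    rw [mem_iUnion]
    by_cases hg : NC (g : C(ℂ, M))
    · obtain ⟨s, hs, w, hw⟩ := hSr g g.2 hg
      obtain ⟨j, hj⟩ := exists_nat_ge ‖w‖
      exact ⟨some (⟨s, hs⟩, j), w, by simpa using hj, hw⟩
    · exact ⟨none, hg⟩
  obtain ⟨i, hi⟩ := nonempty_interior_of_iUnion_of_closed hc hU
  -- the interior comes from an open set `U'` of curves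
  obtain ⟨U', hU'o, hU'⟩ := isOpen_induced_iff.1 (isOpen_interior (s := f i))
  have hsub : ∀ g ∈ U', ∀ hg : g ∈ W, (⟨g, hg⟩ : W) ∈ f i := by
    intro g hgU hg
    apply interior_subset
    rw [← hU']
    exact hgU
  have hne : (U' ∩ W).Nonempty := by
    obtain ⟨g, hg⟩ := hi
    rw [← hU'] at hg
    exact ⟨g, hg, g.2⟩
  rcases i with _ | ⟨s, j⟩
  · obtain ⟨g, ⟨hgU, hgW⟩, hgnc⟩ := key U' hU'o hne
    exact absurd hgnc (hsub g hgU hgW)
  · refine ⟨s, s.2, j, U' ∩ {g : C(ℂ, M) | ¬ NC g}ᶜ, hU'o.inter isClosed_const.isOpen_compl, ?_, ?_⟩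
    · obtain ⟨g, ⟨hgU, hgW⟩, hgnc⟩ := key U' hU'o hne
      exact ⟨g, ⟨hgU, fun hh => hh hgnc⟩, hgW⟩
    · rintro g ⟨hgU, hgnc⟩ hgW
      refine ⟨not_not.1 hgnc, hsub g hgU hgW⟩

end Pool.Agent.K4H47.BR
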