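import Pool.Agent.K4H47.BR.Spec

/-! # Jobs R and K: limits of Brody curves and the compact set of Brody curves -/

set_option autoImplicit false

open Filter Topology Metric Set
open scoped Manifold

namespace Pool.Agent.K4H47.BR

section brody

variable (E : Type) [NormedAddCommGroup E] [NormedSpace ℂ E] [FiniteDimensional ℂ E] (M : Type)
  [MetricSpace M] [CompactSpace M] [ChartedSpace E M] [IsManifold 𝓘(ℂ, E) 1 M]

theorem r_gen (η : ℝ) (hC : Cmp E M η) (ι : Type) (u : Ultrafilter ι)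
    (F : ι → C(ℂ, M)) (hF : ∀ i, Hol E (F i)) (c : ℝ) (hc : 0 < c)
    (hN : ∀ z, ∀ᶠ i in (u : Filter ι), Near η (F i) z c)
    (hP : ∀ᶠ i in (u : Filter ι), ∃ z ∈ closedBall (0 : ℂ) 1, η ≤ dist (F i z) (F i 0)) :
    ∃ g : C(ℂ, M), Hol E g ∧ Tendsto F u (𝓝 g) ∧ (∀ z, Near η g z c) ∧
      ∃ z ∈ closedBall (0 : ℂ) 1, η ≤ dist (g z) (g 0) := by
  obtain ⟨g, hg, hlim⟩ := hC ι u F hF (fun z => ⟨c, hc, hN z⟩)
  have hpt : ∀ z, Tendsto (fun i => F i z) (u : Filter ι) (𝓝 (g z)) := fun z =>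
    ((continuous_eval_const (F := C(ℂ, M)) z).tendsto g).comp hlim
  refine ⟨g, hg, hlim, ?_, ?_⟩
  · intro z w hw
    have h1 : Tendsto (fun i => dist (F i w) (F i z)) (u : Filter ι) (𝓝 (dist (g w) (g z))) :=
      (hpt w).dist (hpt z)
    refine le_of_tendsto h1 ?_
    filter_upwards [hN z] with i hi
    exact hi w hw
  · obtain ⟨p, hp⟩ : ∃ p : ι → ℂ, ∀ i, p i ∈ closedBall (0 : ℂ) 1 ∧
        ((∃ z ∈ closedBall (0 : ℂ) 1, η ≤ dist (F i z) (F i 0)) →
          η ≤ dist (F i (p i)) (F i 0)) := by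
      have : ∀ i, ∃ p : ℂ, p ∈ closedBall (0 : ℂ) 1 ∧
        ((∃ z ∈ closedBall (0 : ℂ) 1, η ≤ dist (F i z) (F i 0)) →
          η ≤ dist (F i p) (F i 0)) := by
        intro i
        by_cases h : ∃ z ∈ closedBall (0 : ℂ) 1, η ≤ dist (F i z) (F i 0)
        · obtain ⟨z, hz, hz'⟩ := h
          exact ⟨z, hz, fun _ => hz'⟩
        · exact ⟨0, by simp, fun h' => absurd h' h⟩
      choose p hp using this
      exact ⟨p, hp⟩
    have hcpt : IsCompact (closedBall (0 : ℂ) 1) := isCompact_closedBall 0 1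
    obtain ⟨z, hz, hzl⟩ := hcpt.ultrafilter_le_nhds (u.map p) (by
      rw [le_principal_iff]
      exact Filter.mem_map.2 (Filter.Eventually.of_forall (fun i => (hp i).1)))
    have hzl' : Tendsto p (u : Filter ι) (𝓝 z) := hzl
    refine ⟨z, hz, ?_⟩
    have h2 : Tendsto (fun i => F i (p i)) (u : Filter ι) (𝓝 (g z)) :=
      ((continuous_eval (F := C(ℂ, M)) (X := ℂ) (Y := M)).tendsto (g, z)).comp
        (hlim.prodMk_nhds hzl')
    refine ge_of_tendsto (h2.dist (hpt 0)) ?_
    filter_upwards [hP] with i hi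
    exact (hp i).2 hi

theorem r : S_R E M := by
  intro η _ hC ι u F hF N hN c hc h1 h2
  refine r_gen E M η hC ι u F hF c hc ?_ (Filter.Eventually.of_forall h2)
  intro z
  filter_upwards [hN.eventually_ge_atTop ‖z‖] with i hi
  exact h1 i z hi

/-- the rescaling point -/
theorem pickBrody {M : Type} [MetricSpace M] {η : ℝ} (hη : 0 < η) (f : C(ℂ, M)) {r0 : ℝ} (hr0 : 0 < r0)
    (h0 : ¬ Near η f 0 r0) (k : ℕ) :
    ∃ (s : ℂ) (r : ℝ), 0 < r ∧ ¬ Near η f s r ∧ ∀ z, ‖z - s‖ ≤ k * r → Near η f z (r / 2) := by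
  have hk : (0 : ℝ) ≤ k := Nat.cast_nonneg k
  obtain ⟨Q, hQ⟩ : ∃ Q : ℕ → Prop, ∀ n, Q n ↔ ∃ s : ℂ, ‖s‖ ≤ 2 * k * r0 * (1 - (1 / 2) ^ n) ∧
    ¬ Near η f s (r0 * (1 / 2) ^ n) := ⟨_, fun n => Iff.rfl⟩
  have hhalf : ∀ n : ℕ, (0 : ℝ) < (1 / 2) ^ n := fun n => by positivity
  have hle : ∀ n : ℕ, 2 * k * r0 * (1 - (1 / 2) ^ n) ≤ 2 * k * r0 := by
    intro n
    have := hhalf n
    have h : 0 ≤ 2 * k * r0 := by positivity
    nlinarith
  have hQ0 : Q 0 := by
    rw [hQ]
    refine ⟨0, by simp, ?_⟩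
    simpa using h0
  have hnot : ¬ ∀ n, Q n := by
    intro hall
    -- uniform continuity on a compact ball
    have huc : UniformContinuousOn f (closedBall (0 : ℂ) (2 * k * r0 + 1)) :=
      (isCompact_closedBall _ _).uniformContinuousOn_of_continuous f.continuous.continuousOn
    rw [Metric.uniformContinuousOn_iff] at huc
    obtain ⟨δ, hδ, hδ'⟩ := huc η hη
    obtain ⟨n, hn⟩ := exists_pow_lt_of_lt_one (div_pos (lt_min hδ one_pos) hr0)
      (by norm_num : (1 / 2 : ℝ) < 1)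
    obtain ⟨s, hs1, hs2⟩ := (hQ n).mp (hall n)
    apply hs2
    intro z hz
    rw [lt_div_iff₀ hr0] at hn
    rw [mem_ball] at hz
    have hz1 : dist z s < min δ 1 := by linarith
    have hs3 : s ∈ closedBall (0 : ℂ) (2 * k * r0 + 1) := by
      rw [mem_closedBall, dist_zero_right]
      linarith [hs1.trans (hle n)]
    have hz3 : z ∈ closedBall (0 : ℂ) (2 * k * r0 + 1) := by
      rw [mem_closedBall, dist_zero_right]
      have : ‖z‖ ≤ ‖z - s‖ + ‖s‖ := by
        calc ‖z‖ = ‖(z - s) + s‖ := by rw [sub_add_cancel]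
          _ ≤ _ := norm_add_le _ _
      rw [dist_eq_norm] at hz1
      linarith [hs1.trans (hle n), min_le_right δ 1]
    exact (hδ' z hz3 s hs3 (lt_of_lt_of_le hz1 (min_le_left _ _))).le
  have hstep : ∃ n, Q n ∧ ¬ Q (n + 1) := by
    by_contra hcon
    push Not at hcon
    apply hnot
    intro n
    induction n with
    | zero => exact hQ0
    | succ n ih => exact hcon n ih
  obtain ⟨n, hn1, hn2⟩ := hstep
  obtain ⟨s, hs1, hs2⟩ := (hQ n).mp hn1
  refine ⟨s, r0 * (1 / 2) ^ n, mul_pos hr0 (hhalf n), hs2, ?_⟩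
  intro s' hs'
  by_contra hcon
  apply hn2
  rw [hQ]
  refine ⟨s', ?_, ?_⟩
  · have h1 : ‖s'‖ ≤ ‖s' - s‖ + ‖s‖ := by
      calc ‖s'‖ = ‖(s' - s) + s‖ := by rw [sub_add_cancel]
        _ ≤ _ := norm_add_le _ _
    have h2 : 2 * k * r0 * (1 - (1 / 2) ^ (n + 1)) =
        k * (r0 * (1 / 2) ^ n) + 2 * k * r0 * (1 - (1 / 2) ^ n) := by
      rw [pow_succ]; ring
    rw [h2]
    linarith
  · have : r0 * (1 / 2) ^ (n + 1) = r0 * (1 / 2) ^ n / 2 := by rw [pow_succ]; ring
    rw [this]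
    exact hcon

theorem k : S_K E M := by
  intro η hη hS _ hC _
  constructor
  · rw [isCompact_iff_ultrafilter_le_nhds]
    intro U hU
    have hUm : K1 E M η ∈ (U : Filter C(ℂ, M)) := le_principal_iff.1 hU
    obtain ⟨f0, hf0⟩ := U.nonempty_of_mem hUm
    classical
    let F : C(ℂ, M) → C(ℂ, M) := fun f => if f ∈ K1 E M η then f else f0
    have hFK : ∀ f, F f ∈ K1 E M η := by
      intro f
      by_cases h : f ∈ K1 E M η
      · simp only [F, if_pos h]; exact h
      · simp only [F, if_neg h]; exact hf0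
    obtain ⟨g, hg1, hg2, hg3, hg4⟩ := r_gen E M η hC _ U F (fun f => (hFK f).1) (1 / 2)
      (by norm_num) (fun z => Filter.Eventually.of_forall (fun f => (hFK f).2.1 z))
      (Filter.Eventually.of_forall (fun f => (hFK f).2.2))
    refine ⟨g, ⟨hg1, hg3, hg4⟩, ?_⟩
    have heq : F =ᶠ[(U : Filter C(ℂ, M))] id := by
      filter_upwards [hUm] with f hf
      simp only [F, if_pos hf, id]
    have := hg2.congr' heq
    exact this
  · intro W hW hWc hWi ⟨f, hfW, hfNC⟩
    have hfH : Hol E f := hW hfW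
    -- Liouville
    obtain ⟨r0, hr0, hnr⟩ : ∃ r0 : ℝ, 0 < r0 ∧ ¬ Near η f 0 r0 := by
      by_contra hcon
      push Not at hcon
      obtain ⟨z, z', hzz⟩ := hfNC
      have key : ∀ z, f z = f 0 := by
        intro z
        rw [← dist_le_zero]
        refine le_of_forall_pos_le_add ?_
        intro ε hε
        rw [zero_add]
        obtain ⟨δ, hδ, _, hδ'⟩ := hS ε hε
        have hr : 0 < (‖z‖ + 1) / δ := by positivity
        refine (hδ' f 0 ((‖z‖ + 1) / δ) hr (hfH.mdifferentiableOn) (hcon _ hr) z ?_).le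
        rw [dist_zero_right, mul_div_cancel₀ _ hδ.ne']
        linarith
      exact hzz ((key z).trans (key z').symm)
    have hpick := fun k : ℕ => pickBrody hη f hr0 hnr k
    choose s ρ hρ hs hz using hpick
    have hGW : ∀ k, f.comp (aff (ρ k) (s k)) ∈ W := fun k =>
      hWi f hfW _ ⟨(ρ k : ℂ), s k, by exact_mod_cast (hρ k).ne', rfl⟩
    have hG : ∀ k z, f.comp (aff (ρ k) (s k)) z = f (ρ k * z + s k) := fun k z => rfl
    obtain ⟨g, hg1, hg2, hg3, hg4⟩ := r_gen E M η hC ℕ (hyperfilter ℕ)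
      (fun k => f.comp (aff (ρ k) (s k))) (fun k => hW (hGW k)) (1 / 2) (by norm_num)
      (by
        intro z
        have h1 : Tendsto (fun k : ℕ => (k : ℝ)) (hyperfilter ℕ : Filter ℕ) atTop :=
          tendsto_natCast_atTop_atTop.mono_left Nat.hyperfilter_le_atTop
        filter_upwards [h1.eventually_ge_atTop ‖z‖] with k hk
        intro w hw
        rw [hG, hG]
        refine hz k (ρ k * z + s k) ?_ (ρ k * w + s k) ?_
        · rw [add_sub_cancel_right, norm_mul, Complex.norm_real, Real.norm_eq_abs,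
            abs_of_pos (hρ k), mul_comm]
          exact mul_le_mul_of_nonneg_right hk (hρ k).le
        · rw [mem_ball, dist_eq_norm] at hw ⊢
          have : (ρ k : ℂ) * w + s k - (ρ k * z + s k) = ρ k * (w - z) := by ring
          rw [this, norm_mul, Complex.norm_real, Real.norm_eq_abs, abs_of_pos (hρ k)]
          have := mul_lt_mul_of_pos_left hw (hρ k)
          linarith)
      (Filter.Eventually.of_forall (by
        intro k
        have h := hs k
        simp only [Near, not_forall] at h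
        obtain ⟨z, hz1, hz2⟩ := h
        rw [not_le] at hz2
        have hρk : (ρ k : ℂ) ≠ 0 := by exact_mod_cast (hρ k).ne'
        refine ⟨(z - s k) / ρ k, ?_, ?_⟩
        · rw [mem_closedBall, dist_zero_right, norm_div, Complex.norm_real, Real.norm_eq_abs,
            abs_of_pos (hρ k), div_le_one (hρ k)]
          rw [mem_ball, dist_eq_norm] at hz1
          exact hz1.le
        · rw [hG, hG, mul_div_cancel₀ _ hρk, sub_add_cancel, mul_zero, zero_add]
          exact hz2.le))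
    refine ⟨g, ?_, hg1, hg3, hg4⟩
    exact hWc.mem_of_tendsto hg2 (Filter.Eventually.of_forall hGW)

end brody

end Pool.Agent.K4H47.BR
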