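import Pool.Agent.K4H47.BR.Spec
import Pool.Agent.MP06ac62.LH

/-!
# Job C1: the lemma of Clunie and Hayman
-/

set_option autoImplicit false

open Filter Topology Metric Set

namespace Pool.Agent.K4H47.BR

/-- Harnack's inequality for the logarithm of a holomorphic function of modulus larger than one -/
lemma harnack_big {φ : ℂ → ℂ} (hφ : Differentiable ℂ φ) {z : ℂ} {d : ℝ} (hd : 0 < d)
    (hb : ∀ x ∈ ball z d, 1 < ‖φ x‖) {x : ℂ} (hx : x ∈ ball z d) :
    (d - ‖x - z‖) / (d + ‖x - z‖) * Real.log ‖φ z‖ ≤ Real.log ‖φ x‖ := by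
  have hmem : ∀ w ∈ ball (1 : ℂ) d, z + (w - 1) ∈ ball z d := by
    intro w hw
    rw [mem_ball, dist_eq_norm] at hw ⊢
    simpa using hw
  have h := (MinMod.LH.harnack_log d hd (fun w => (φ (z + (w - 1)))⁻¹) (by
    intro w hw
    have h1 : φ (z + (w - 1)) ≠ 0 := norm_pos_iff.1 (by linarith [hb _ (hmem w hw)])
    have h2 : DifferentiableAt ℂ (fun w => φ (z + (w - 1))) w :=
      (hφ _).comp w (by fun_prop)
    exact (h2.inv h1).differentiableWithinAt) (by
    intro w hw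
    have h1 := hb _ (hmem w hw)
    have h2 : φ (z + (w - 1)) ≠ 0 := norm_pos_iff.1 (by linarith)
    refine ⟨inv_ne_zero h2, ?_⟩
    rw [norm_inv]
    exact inv_le_one_of_one_le₀ h1.le) (1 + (x - z)) (by
    rw [mem_ball, dist_eq_norm] at hx ⊢
    simpa using hx)).1
  have e1 : (1 : ℂ) + (x - z) - 1 = x - z := by ring
  have e2 : z + (x - z) = x := by ring
  have e3 : z + ((1 : ℂ) - 1) = z := by ring
  simp only [e1, e2, e3, norm_inv, Real.log_inv, neg_neg] at h
  exact h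

theorem c1 : S_C1 := by
  intro φ R L hR hL hφ hder hz0 z hz
  obtain ⟨z0, hz0R, hz0φ⟩ := hz0
  have hcont : Continuous φ := hφ.continuous
  rcases le_or_gt ‖φ z‖ 1 with hle | hgt
  · exact hle.trans (Real.one_le_exp (by positivity))
  set S : Set ℂ := {x | ‖φ x‖ ≤ 1} with hS
  have hSc : IsClosed S := isClosed_le hcont.norm continuous_const
  have hSn : S.Nonempty := ⟨z0, hz0φ⟩
  obtain ⟨z1, hz1S, hz1d⟩ := hSc.exists_infDist_eq_dist hSn z
  set d : ℝ := dist z z1 with hd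
  have hz1φ : ‖φ z1‖ ≤ 1 := hz1S
  have hdpos : 0 < d := by
    rw [hd, dist_pos]
    rintro rfl
    linarith
  have hd2 : d ≤ 2 * R := by
    have h1 : infDist z S ≤ dist z z0 := infDist_le_dist_of_mem hz0φ
    have h2 : dist z z0 ≤ ‖z‖ + ‖z0‖ := by rw [dist_eq_norm]; exact norm_sub_le _ _
    linarith
  have hz13 : ‖z1‖ ≤ 3 * R := by
    have h1 : ‖z1‖ ≤ ‖z‖ + ‖z1 - z‖ := by
      have := norm_add_le z (z1 - z)
      simpa using this
    rw [← dist_eq_norm, dist_comm] at h1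
    linarith
  have hball : ∀ x ∈ ball z d, 1 < ‖φ x‖ := by
    intro x hx
    by_contra hcon
    have h1 : infDist z S ≤ dist z x := infDist_le_dist_of_mem (not_lt.1 hcon)
    rw [mem_ball, dist_comm] at hx
    linarith
  -- the segment
  set v : ℂ := z1 - z with hv
  have hvn : ‖v‖ = d := by rw [hv, ← dist_eq_norm, dist_comm]
  have hg : HasDerivAt (fun t : ℝ => φ (z + t * v)) (deriv φ z1 * v) 1 := by
    have h1 : HasDerivAt (fun t : ℝ => z + (t : ℂ) * v) v 1 := by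
      have h2 : HasDerivAt (fun t : ℝ => ((t : ℝ) : ℂ)) 1 1 := (hasDerivAt_id (1 : ℝ)).ofReal_comp
      simpa using (h2.mul_const v).const_add z
    have h3 : HasDerivAt φ (deriv φ z1) (z + ((1 : ℝ) : ℂ) * v) := by
      have : z + ((1 : ℝ) : ℂ) * v = z1 := by rw [hv]; push_cast; ring
      rw [this]
      exact (hφ z1).hasDerivAt
    exact h3.comp (1 : ℝ) h1
  have hg1 : φ (z + ((1 : ℝ) : ℂ) * v) = φ z1 := by
    congr 1
    rw [hv]; push_cast; ring
  have hslope := (hasDerivAt_iff_tendsto_slope.1 hg).norm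
  have hslope' : Tendsto (fun t : ℝ => ‖slope (fun t : ℝ => φ (z + t * v)) 1 t‖) (𝓝[<] 1)
      (𝓝 ‖deriv φ z1 * v‖) :=
    hslope.mono_left (nhdsWithin_mono _ fun t ht => ne_of_lt ht)
  have hlim : Tendsto (fun t : ℝ => Real.log ‖φ z‖ / (1 + t)) (𝓝[<] 1)
      (𝓝 (Real.log ‖φ z‖ / (1 + 1))) := by
    refine tendsto_nhdsWithin_of_tendsto_nhds ?_
    exact (tendsto_const_nhds.div (tendsto_const_nhds.add tendsto_id) (by norm_num))
  have hev : ∀ᶠ t in 𝓝[<] (1 : ℝ), Real.log ‖φ z‖ / (1 + t) ≤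
      ‖slope (fun t : ℝ => φ (z + t * v)) 1 t‖ := by
    have h1 : Ioo (0 : ℝ) 1 ∈ 𝓝[<] (1 : ℝ) := Ioo_mem_nhdsLT one_pos
    filter_upwards [h1] with t ht
    obtain ⟨ht0, ht1⟩ := ht
    have hx : z + (t : ℂ) * v ∈ ball z d := by
      rw [mem_ball, dist_eq_norm, add_sub_cancel_left, norm_mul, Complex.norm_real,
        Real.norm_of_nonneg ht0.le, hvn]
      nlinarith
    have hxn : ‖z + (t : ℂ) * v - z‖ = t * d := by
      rw [add_sub_cancel_left, norm_mul, Complex.norm_real, Real.norm_of_nonneg ht0.le, hvn]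
    have h2 := harnack_big hφ hdpos hball hx
    rw [hxn] at h2
    have h3 : (d - t * d) / (d + t * d) = (1 - t) / (1 + t) := by
      have : d ≠ 0 := hdpos.ne'
      field_simp
    rw [h3] at h2
    have h4 : Real.log ‖φ (z + (t : ℂ) * v)‖ ≤ ‖φ (z + (t : ℂ) * v)‖ - 1 :=
      Real.log_le_sub_one_of_pos (by linarith [hball _ hx])
    have h5 : ‖φ (z + (t : ℂ) * v)‖ - 1 ≤ ‖φ (z + (t : ℂ) * v) - φ z1‖ := by
      have := norm_sub_norm_le (φ (z + (t : ℂ) * v)) (φ z1)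
      linarith
    have h6 : ‖slope (fun t : ℝ => φ (z + t * v)) 1 t‖ = ‖φ (z + (t : ℂ) * v) - φ z1‖ / (1 - t) := by
      rw [slope_def_module, norm_smul, hg1, norm_inv, Real.norm_eq_abs, abs_of_neg (by linarith)]
      rw [neg_sub, inv_mul_eq_div]
    rw [h6, div_le_div_iff₀ (by linarith) (by linarith)]
    have h7 : (1 - t) / (1 + t) * Real.log ‖φ z‖ ≤ ‖φ (z + (t : ℂ) * v) - φ z1‖ := by linarith
    rw [div_mul_eq_mul_div, div_le_iff₀ (by linarith)] at h7
    linarith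
  have h8 := le_of_tendsto_of_tendsto hlim hslope' hev
  have h9 : ‖deriv φ z1 * v‖ ≤ L * d := by
    rw [norm_mul, hvn]
    exact mul_le_mul_of_nonneg_right (hder z1 hz13 hz1φ) hdpos.le
  have h10 : Real.log ‖φ z‖ ≤ 4 * L * R := by
    have : L * d ≤ L * (2 * R) := mul_le_mul_of_nonneg_left hd2 hL
    linarith
  rw [← Real.exp_log (by linarith : 0 < ‖φ z‖)]
  exact Real.exp_le_exp.2 h10

end Pool.Agent.K4H47.BR
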