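import Pool.Agent.K4H47.BR.Spec

/-!
# Job H: circles avoiding the fibres
-/

set_option autoImplicit false

open Filter Topology Metric Set

namespace Pool.Agent.K4H47.BR

theorem h : S_H := by
  intro M _ _ t ht hnc hid J hJ
  -- one point
  have key : ∀ p : M, ∃ ρ : ℝ, J < ρ ∧ ρ < J + 1 ∧ ∃ ε : ℝ, 0 < ε ∧
      ∀ w : ℂ, ‖w‖ = ρ → 2 * ε ≤ dist (t w) p := by
    intro p
    have hfin : {w : ℂ | w ∈ closedBall (0 : ℂ) (J + 1) ∧ t w = p}.Finite := by
      by_contra hinf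
      have hinf' : {w : ℂ | w ∈ closedBall (0 : ℂ) (J + 1) ∧ t w = p}.Infinite := hinf
      obtain ⟨w0, -, hw0⟩ := hinf'.exists_accPt_of_subset_isCompact
        (isCompact_closedBall (0 : ℂ) (J + 1)) (fun w hw => hw.1)
      rw [accPt_iff_frequently] at hw0
      have hfr : ∃ᶠ z in 𝓝[≠] w0, t z = p := by
        rw [frequently_nhdsWithin_iff]
        exact hw0.mono fun z hz => ⟨hz.2.2, hz.1⟩
      have htw : t w0 = p := by
        have hcl : w0 ∈ closure (t ⁻¹' {p}) := by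
          rw [mem_closure_iff_frequently]
          exact hw0.mono fun z hz => hz.2.2
        rw [IsClosed.closure_eq (isClosed_singleton.preimage ht)] at hcl
        exact hcl
      have hall := hid w0 (hfr.mono fun z hz => by rw [hz, htw])
      obtain ⟨z, z', hzz⟩ := hnc
      exact hzz (by rw [hall z, hall z'])
    have hIoo : (Ioo J (J + 1)).Infinite := Ioo_infinite (by linarith)
    obtain ⟨ρ, hρ, hρ'⟩ := (hIoo.sdiff (hfin.image fun w : ℂ => ‖w‖)).nonempty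
    refine ⟨ρ, hρ.1, hρ.2, ?_⟩
    have hne : (sphere (0 : ℂ) ρ).Nonempty := (NormedSpace.sphere_nonempty).2 (by linarith [hρ.1])
    obtain ⟨w1, hw1, hmin⟩ := (isCompact_sphere (0 : ℂ) ρ).exists_isMinOn hne
      (f := fun w => dist (t w) p) (by fun_prop)
    have hn1 : ‖w1‖ = ρ := by simpa using hw1
    have hpos : 0 < dist (t w1) p := by
      rw [dist_pos]
      intro hh
      exact hρ' ⟨w1, ⟨by simp [hn1, hρ.2.le], hh⟩, hn1⟩
    refine ⟨dist (t w1) p / 2, by positivity, fun w hw => ?_⟩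
    have := hmin (show w ∈ sphere (0 : ℂ) ρ by simpa using hw)
    have h2 : dist (t w1) p ≤ dist (t w) p := this
    linarith
  -- compactness
  have hind : ∃ ε : ℝ, 0 < ε ∧ ∀ q : M, q ∈ (univ : Set M) → ∃ ρ : ℝ, J < ρ ∧ ρ < J + 1 ∧
      ∀ w : ℂ, ‖w‖ = ρ → ε ≤ dist (t w) q := by
    refine IsCompact.induction_on (isCompact_univ (X := M)) (p := fun S => ∃ ε : ℝ, 0 < ε ∧
      ∀ q : M, q ∈ S → ∃ ρ : ℝ, J < ρ ∧ ρ < J + 1 ∧ ∀ w : ℂ, ‖w‖ = ρ → ε ≤ dist (t w) q)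
      ⟨1, one_pos, fun q hq => hq.elim⟩ ?_ ?_ ?_
    · rintro S T hST ⟨ε, hε, hq⟩
      exact ⟨ε, hε, fun q hqS => hq q (hST hqS)⟩
    · rintro S T ⟨ε, hε, hq⟩ ⟨ε', hε', hq'⟩
      refine ⟨min ε ε', lt_min hε hε', fun q hqS => ?_⟩
      rcases hqS with hqS | hqS
      · obtain ⟨ρ, h1, h2, h3⟩ := hq q hqS
        exact ⟨ρ, h1, h2, fun w hw => (min_le_left _ _).trans (h3 w hw)⟩
      · obtain ⟨ρ, h1, h2, h3⟩ := hq' q hqS
        exact ⟨ρ, h1, h2, fun w hw => (min_le_right _ _).trans (h3 w hw)⟩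
    · intro p _
      obtain ⟨ρ, h1, h2, ε, hε, h3⟩ := key p
      refine ⟨ball p ε, mem_nhdsWithin_of_mem_nhds (ball_mem_nhds p hε), ε, hε, fun q hq => ?_⟩
      refine ⟨ρ, h1, h2, fun w hw => ?_⟩
      have h4 := h3 w hw
      have h5 : dist q p < ε := hq
      have h6 := dist_triangle (t w) q p
      linarith
  obtain ⟨ε, hε, hq⟩ := hind
  exact ⟨ε, hε, fun q => hq q (mem_univ q)⟩

end Pool.Agent.K4H47.BR
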