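import Pool.Agent.K4H47.BR.Spec

/-!
# Job A3: compactness along ultrafilters
-/

set_option autoImplicit false

open Filter Topology Metric Set
open scoped Manifold

namespace Pool.Agent.K4H47.BR

section

variable (E : Type) [NormedAddCommGroup E] [NormedSpace ℂ E] [FiniteDimensional ℂ E] (M : Type)
  [MetricSpace M] [CompactSpace M] [ChartedSpace E M] [IsManifold 𝓘(ℂ, E) 1 M]

theorem a3 : S_A3 E M := by
  intro η _ hS hcl ι u F hF hN
  have hlim : ∀ z : ℂ, ∃ p : M, Tendsto (fun i => F i z) (u : Filter ι) (𝓝 p) := by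
    intro z
    obtain ⟨p, -, hp⟩ := (isCompact_univ (X := M)).ultrafilter_le_nhds (u.map fun i => F i z)
      (by simp)
    exact ⟨p, hp⟩
  choose f hf using hlim
  have heq : ∀ (z : ℂ) (ε : ℝ), 0 < ε → ∃ r : ℝ, 0 < r ∧
      ∀ᶠ i in (u : Filter ι), ∀ w, dist w z < r → dist (F i w) (F i z) < ε := by
    intro z ε hε
    obtain ⟨r, hr, hev⟩ := hN z
    obtain ⟨δ, hδ, -, h⟩ := hS ε hε
    refine ⟨δ * r, by positivity, ?_⟩
    filter_upwards [hev] with i hi w hw
    exact h (F i) z r hr (hF i).mdifferentiableOn hi w hw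
  have hfd : ∀ (z : ℂ) (ε : ℝ), 0 < ε → ∃ r : ℝ, 0 < r ∧
      ∀ w, dist w z < r → dist (f w) (f z) ≤ ε := by
    intro z ε hε
    obtain ⟨r, hr, hev⟩ := heq z ε hε
    refine ⟨r, hr, fun w hw => ?_⟩
    exact le_of_tendsto ((hf w).dist (hf z)) (hev.mono fun i hi => (hi w hw).le)
  have hfc : Continuous f := by
    rw [Metric.continuous_iff]
    intro z ε hε
    obtain ⟨r, hr, h⟩ := hfd z (ε / 2) (by linarith)
    exact ⟨r, hr, fun w hw => (h w hw).trans_lt (by linarith)⟩
  have ht : Tendsto F (u : Filter ι) (𝓝 (⟨f, hfc⟩ : C(ℂ, M))) := by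
    rw [ContinuousMap.tendsto_iff_tendstoLocallyUniformly, Metric.tendstoLocallyUniformly_iff]
    intro ε hε z
    obtain ⟨r, hr, hev⟩ := heq z (ε / 3) (by linarith)
    obtain ⟨r', hr', h'⟩ := hfd z (ε / 4) (by linarith)
    refine ⟨ball z (min r r'), ball_mem_nhds _ (lt_min hr hr'), ?_⟩
    filter_upwards [hev, (hf z).eventually (ball_mem_nhds _ (by linarith : 0 < ε / 3))]
      with i hi h3 w hw
    have hw' : dist w z < min r r' := hw
    have h1 := hi w (hw'.trans_le (min_le_left _ _))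
    have h2 := h' w (hw'.trans_le (min_le_right _ _))
    have h3' : dist (F i z) (f z) < ε / 3 := h3
    change dist (f w) (F i w) < ε
    have h4 : dist (f w) (F i w) ≤ dist (f w) (f z) + dist (f z) (F i z) + dist (F i z) (F i w) :=
      dist_triangle4 _ _ _ _
    rw [dist_comm (f z), dist_comm (F i z) (F i w)] at h4
    linarith
  exact ⟨⟨f, hfc⟩, hcl.mem_of_tendsto ht (Eventually.of_forall hF), ht⟩

end

end Pool.Agent.K4H47.BR
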