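import Pool.Agent.K4H47.BR.Spec

/-!
# Job D1: the drift lemma for cylinders with small circles
-/

set_option autoImplicit false
set_option linter.unusedSectionVars false

open Filter Topology Metric Set MeasureTheory
open scoped Manifold

namespace Pool.Agent.K4H47.BR

section avg

variable {E : Type} [NormedAddCommGroup E] [NormedSpace ℂ E] [FiniteDimensional ℂ E]

/-- the integrals of a periodic holomorphic function over the circles of a cylinder agree -/
lemma avg_eq {G : ℂ → E} {a b : ℝ} (hab : a ≤ b)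
    (hper : ∀ z : ℂ, a ≤ z.re → z.re ≤ b → G (z + 2 * Real.pi * Complex.I) = G z)
    (hG : ∀ z : ℂ, a ≤ z.re → z.re ≤ b → DifferentiableAt ℂ G z) :
    (∫ y : ℝ in (0 : ℝ)..(2 * Real.pi), G (b + y * Complex.I)) =
      ∫ y : ℝ in (0 : ℝ)..(2 * Real.pi), G (a + y * Complex.I) := by
  have : CompleteSpace E := FiniteDimensional.complete ℂ E
  have h := Complex.integral_boundary_rect_eq_zero_of_differentiableOn G (a : ℂ)
    ((b : ℂ) + 2 * Real.pi * Complex.I) ?_
  · have e1 : ((b : ℂ) + 2 * Real.pi * Complex.I).re = b := by simp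
    have e2 : ((b : ℂ) + 2 * Real.pi * Complex.I).im = 2 * Real.pi := by simp
    rw [e1, e2, Complex.ofReal_re, Complex.ofReal_im] at h
    have e3 : (∫ x : ℝ in a..b, G (x + ((2 * Real.pi : ℝ) : ℂ) * Complex.I)) =
        ∫ x : ℝ in a..b, G (x + ((0 : ℝ) : ℂ) * Complex.I) := by
      apply intervalIntegral.integral_congr
      intro x hx
      rw [uIcc_of_le hab] at hx
      have h1 := hper (x : ℂ) (by simpa using hx.1) (by simpa using hx.2)
      simp only [Complex.ofReal_mul, Complex.ofReal_ofNat, Complex.ofReal_zero, zero_mul, add_zero]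
      exact h1
    rw [e3, sub_self, zero_add, sub_eq_zero] at h
    exact (smul_right_injective E Complex.I_ne_zero) h
  · intro z hz
    rw [Complex.mem_reProdIm] at hz
    have e1 : ((b : ℂ) + 2 * Real.pi * Complex.I).re = b := by simp
    rw [Complex.ofReal_re, e1, uIcc_of_le hab] at hz
    exact (hG z hz.1.1 hz.1.2).differentiableWithinAt

/-- the difference of a function with small oscillation on a circle and its average -/
lemma avg_near {G : ℂ → E} {a ε : ℝ} (z : ℂ) (_ : z.re = a)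
    (hc : Continuous fun y : ℝ => G (a + y * Complex.I))
    (hG : ∀ w : ℂ, w.re = a → ‖G w - G z‖ ≤ ε) :
    ‖(∫ y : ℝ in (0 : ℝ)..(2 * Real.pi), G (a + y * Complex.I)) - (2 * Real.pi : ℝ) • G z‖ ≤
      ε * (2 * Real.pi) := by
  have : CompleteSpace E := FiniteDimensional.complete ℂ E
  have h1 : (∫ y : ℝ in (0 : ℝ)..(2 * Real.pi), G (a + y * Complex.I)) - (2 * Real.pi : ℝ) • G z =
      ∫ y : ℝ in (0 : ℝ)..(2 * Real.pi), (G (a + y * Complex.I) - G z) := by
    rw [intervalIntegral.integral_sub (hc.intervalIntegrable _ _)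
      (continuous_const.intervalIntegrable _ _), intervalIntegral.integral_const, sub_zero]
  rw [h1]
  have h2 := intervalIntegral.norm_integral_le_of_norm_le_const
    (f := fun y : ℝ => G (a + y * Complex.I) - G z) (a := 0) (b := 2 * Real.pi) (C := ε)
    (fun y _ => hG _ (by simp))
  rwa [sub_zero, abs_of_pos Real.two_pi_pos] at h2

end avg

section drift

variable {E : Type} [NormedAddCommGroup E] [NormedSpace ℂ E] [FiniteDimensional ℂ E] {M : Type}
  [MetricSpace M] [CompactSpace M] [ChartedSpace E M] [IsManifold 𝓘(ℂ, E) 1 M]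

/-- drift to the right, within one chart -/
lemma right {F : ℂ → M} {x₁ x₂ : ℝ} (hF : HolOn E {z | x₁ < z.re ∧ z.re < x₂} F)
    (hper : ∀ z, F (z + 2 * Real.pi * Complex.I) = F z) {p : M} {R η ε δ : ℝ}
    (hK : closedBall p (2 * R) ⊆ (extChartAt 𝓘(ℂ, E) p).source)
    (U1 : ∀ q ∈ closedBall p (2 * R), ∀ q' ∈ closedBall p (2 * R),
      ‖extChartAt 𝓘(ℂ, E) p q - extChartAt 𝓘(ℂ, E) p q'‖ < ε → dist q q' < η)
    (U2 : ∀ q ∈ closedBall p (2 * R), ∀ q' ∈ closedBall p (2 * R), dist q q' ≤ δ →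
      ‖extChartAt 𝓘(ℂ, E) p q - extChartAt 𝓘(ℂ, E) p q'‖ ≤ ε / 3)
    (hε : 0 < ε) (hη : 0 < η) (hηR : η ≤ R) (hδη : δ ≤ η)
    (hcirc : ∀ z z' : ℂ, z.re = z'.re → x₁ < z.re → z.re < x₂ → dist (F z) (F z') ≤ δ)
    {z₀ : ℂ} (hz₀ : F z₀ ∈ ball p R) (hx₁ : x₁ < z₀.re) :
    ∀ z : ℂ, z₀.re ≤ z.re → z.re < x₂ → dist (F z) (F z₀) ≤ η := by
  intro z hz hzx
  have hopen : IsOpen {z : ℂ | x₁ < z.re ∧ z.re < x₂} :=
    (isOpen_lt continuous_const Complex.continuous_re).inter
      (isOpen_lt Complex.continuous_re continuous_const)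
  have hdiff : ∀ w : ℂ, x₁ < w.re → w.re < x₂ → MDifferentiableAt 𝓘(ℂ, ℂ) 𝓘(ℂ, E) F w :=
    fun w h1 h2 => (hF w ⟨h1, h2⟩).mdifferentiableAt (hopen.mem_nhds ⟨h1, h2⟩)
  have hcont : ∀ w : ℂ, x₁ < w.re → w.re < x₂ → ContinuousAt F w :=
    fun w h1 h2 => (hdiff w h1 h2).continuousAt
  set s : Set ℝ := {x | ∀ θ : ℝ, dist (F (x + θ * Complex.I)) (F z₀) ≤ η} with hs
  have hre : ∀ x θ : ℝ, ((x : ℂ) + θ * Complex.I).re = x := fun x θ => by simp
  have hmem : ∀ w : ℂ, w.re ∈ s → dist (F w) (F z₀) ≤ η := by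
    intro w hw
    have := hw w.im
    rwa [Complex.re_add_im] at this
  have hKin : ∀ q : M, dist q (F z₀) ≤ η → q ∈ closedBall p (2 * R) := by
    intro q hq
    rw [mem_closedBall]
    rw [mem_ball] at hz₀
    calc dist q p ≤ dist q (F z₀) + dist (F z₀) p := dist_triangle _ _ _
      _ ≤ 2 * R := by linarith
  have key : Icc z₀.re z.re ⊆ s := by
    apply IsClosed.Icc_subset_of_forall_mem_nhdsGT_of_Icc_subset
    · -- closedness
      have h1 : s ∩ Icc z₀.re z.re = ⋂ θ : ℝ, {x ∈ Icc z₀.re z.re |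
          dist (F (x + θ * Complex.I)) (F z₀) ≤ η} := by
        ext x
        simp only [hs, mem_inter_iff, mem_iInter, mem_ofPred_eq]
        constructor
        · rintro ⟨h1, h2⟩ θ
          exact ⟨h2, h1 θ⟩
        · intro h
          exact ⟨fun θ => (h θ).2, (h 0).1⟩
      rw [h1]
      refine isClosed_iInter fun θ => ?_
      have h2 : ContinuousOn (fun x : ℝ => dist (F (x + θ * Complex.I)) (F z₀))
          (Icc z₀.re z.re) := by
        intro x hx
        apply ContinuousAt.continuousWithinAt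
        have h3 : ContinuousAt F ((x : ℂ) + θ * Complex.I) :=
          hcont _ (by rw [hre]; linarith [hx.1]) (by rw [hre]; linarith [hx.2])
        have h4 : ContinuousAt (fun x : ℝ => (x : ℂ) + θ * Complex.I) x := by fun_prop
        have h5 : ContinuousAt (fun x : ℝ => F ((x : ℂ) + θ * Complex.I)) x :=
          ContinuousAt.comp (f := fun x : ℝ => (x : ℂ) + θ * Complex.I) (g := F) h3 h4
        exact h5.dist continuousAt_const
      exact h2.preimage_isClosed_of_isClosed isClosed_Icc isClosed_Iic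
    · -- the first circle
      intro θ
      exact (hcirc _ _ (hre _ _) (by rw [hre]; exact hx₁)
        (by rw [hre]; exact lt_of_le_of_lt hz hzx)).trans hδη
    · -- the step
      intro t ht hts
      have ht2 : t < x₂ := lt_trans ht.2 hzx
      have ht1 : x₁ < t := lt_of_lt_of_le hx₁ ht.1
      set φ := extChartAt 𝓘(ℂ, E) p with hφ
      have hball : ∀ w : ℂ, z₀.re ≤ w.re → w.re ≤ t → F w ∈ closedBall p (2 * R) :=
        fun w h1 h2 => hKin _ (hmem w (hts ⟨h1, h2⟩))
      have hGd : ∀ w : ℂ, z₀.re ≤ w.re → w.re ≤ t → DifferentiableAt ℂ (fun w => φ (F w)) w := by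
        intro w h1 h2
        have h3 : F w ∈ (chartAt E p).source := by
          have := hK (hball w h1 h2)
          rwa [extChartAt_source] at this
        have h4 : MDifferentiableAt 𝓘(ℂ, E) 𝓘(ℂ, E) φ (F w) := mdifferentiableAt_extChartAt h3
        have h5 := h4.comp w (hdiff w (by linarith) (by linarith))
        exact h5.differentiableAt
      have hGper : ∀ w : ℂ, z₀.re ≤ w.re → w.re ≤ t →
          (fun w => φ (F w)) (w + 2 * Real.pi * Complex.I) = (fun w => φ (F w)) w := by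
        intro w _ _
        simp only [hper w]
      have hcircG : ∀ w w' : ℂ, w.re = w'.re → z₀.re ≤ w'.re → w'.re ≤ t →
          ‖φ (F w) - φ (F w')‖ ≤ ε / 3 := by
        intro w w' h1 h2 h3
        exact U2 _ (hball w (by rw [h1]; exact h2) (by rw [h1]; exact h3)) _ (hball w' h2 h3)
          (hcirc w w' h1 (by linarith) (by linarith))
      have hcontG : ∀ x : ℝ, z₀.re ≤ x → x ≤ t →
          Continuous fun y : ℝ => (fun w => φ (F w)) (x + y * Complex.I) := by
        intro x h1 h2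
        rw [continuous_iff_continuousAt]
        intro y
        have h3 := (hGd ((x : ℂ) + y * Complex.I) (by rw [hre]; exact h1)
          (by rw [hre]; exact h2)).continuousAt
        have h4 : ContinuousAt (fun y : ℝ => (x : ℂ) + y * Complex.I) y := by fun_prop
        exact ContinuousAt.comp (f := fun y : ℝ => (x : ℂ) + y * Complex.I)
          (g := fun w => φ (F w)) h3 h4
      -- the values on the circle over `t`
      have himp : ∀ w : ℂ, w.re = t → dist (F w) (F z₀) < η := by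
        intro w hw
        apply U1 _ (hball w (by rw [hw]; exact ht.1) hw.le) _ (hball z₀ le_rfl ht.1)
        have a1 := avg_eq ht.1 hGper hGd
        have a2 := avg_near (G := fun w => φ (F w)) (ε := ε / 3) w hw (hcontG t ht.1 le_rfl)
          (fun w' hw' => hcircG w' w (by rw [hw', hw]) (by rw [hw]; exact ht.1) hw.le)
        have a3 := avg_near (G := fun w => φ (F w)) (ε := ε / 3) z₀ rfl (hcontG z₀.re le_rfl ht.1)
          (fun w' hw' => hcircG w' z₀ hw' le_rfl ht.1)
        rw [a1] at a2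
        set A := ∫ y : ℝ in (0 : ℝ)..(2 * Real.pi), φ (F ((z₀.re : ℂ) + y * Complex.I)) with hA
        have a4 : ‖(2 * Real.pi : ℝ) • (φ (F w) - φ (F z₀))‖ ≤ 2 * (ε / 3 * (2 * Real.pi)) := by
          have e1 : (2 * Real.pi : ℝ) • (φ (F w) - φ (F z₀)) =
              (A - (2 * Real.pi : ℝ) • φ (F z₀)) - (A - (2 * Real.pi : ℝ) • φ (F w)) := by
            rw [smul_sub]; abel
          rw [e1]
          calc _ ≤ ‖A - (2 * Real.pi : ℝ) • φ (F z₀)‖ + ‖A - (2 * Real.pi : ℝ) • φ (F w)‖ :=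
                norm_sub_le _ _
            _ ≤ ε / 3 * (2 * Real.pi) + ε / 3 * (2 * Real.pi) := add_le_add a3 a2
            _ = _ := by ring
        rw [norm_smul, Real.norm_eq_abs, abs_of_pos Real.two_pi_pos] at a4
        have a5 : (2 * Real.pi) * ‖φ (F w) - φ (F z₀)‖ ≤ (2 * Real.pi) * (2 * ε / 3) := by
          calc _ ≤ 2 * (ε / 3 * (2 * Real.pi)) := a4
            _ = _ := by ring
        have a6 := le_of_mul_le_mul_left a5 Real.two_pi_pos
        linarith
      -- a neighbourhood of the circle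
      have hUopen : IsOpen {w : ℂ | (x₁ < w.re ∧ w.re < x₂) ∧ dist (F w) (F z₀) < η} := by
        rw [isOpen_iff_mem_nhds]
        rintro w ⟨h1, h2⟩
        have h3 : ContinuousAt (fun w => dist (F w) (F z₀)) w :=
          (hcont w h1.1 h1.2).dist continuousAt_const
        exact Filter.inter_mem (hopen.mem_nhds h1) (h3.eventually_lt continuousAt_const h2)
      have hCc : IsCompact ((fun θ : ℝ => (t : ℂ) + θ * Complex.I) '' Icc 0 (2 * Real.pi)) :=
        isCompact_Icc.image (by fun_prop)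
      have hCU : ((fun θ : ℝ => (t : ℂ) + θ * Complex.I) '' Icc 0 (2 * Real.pi)) ⊆
          {w : ℂ | (x₁ < w.re ∧ w.re < x₂) ∧ dist (F w) (F z₀) < η} := by
        rintro _ ⟨θ, _, rfl⟩
        exact ⟨⟨by rw [hre]; exact ht1, by rw [hre]; exact ht2⟩, himp _ (hre _ _)⟩
      obtain ⟨r, hr, hrU⟩ := hCc.exists_thickening_subset_open hUopen hCU
      have hnh : Ioo t (t + r) ∈ 𝓝[>] t := Ioo_mem_nhdsGT (by linarith)
      filter_upwards [hnh] with x hx θ
      have hpf : Function.Periodic (fun θ : ℝ => F ((x : ℂ) + θ * Complex.I)) (2 * Real.pi) := by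
        intro θ
        have e1 : (x : ℂ) + ((θ + 2 * Real.pi : ℝ) : ℂ) * Complex.I =
            ((x : ℂ) + θ * Complex.I) + 2 * Real.pi * Complex.I := by
          push_cast; ring
        change F ((x : ℂ) + ((θ + 2 * Real.pi : ℝ) : ℂ) * Complex.I) = _
        rw [e1, hper]
      obtain ⟨y, hy, hyθ⟩ := hpf.exists_mem_Ico₀ Real.two_pi_pos θ
      have hyθ' : F ((x : ℂ) + θ * Complex.I) = F ((x : ℂ) + y * Complex.I) := hyθ
      rw [hyθ']
      have h5 : ((x : ℂ) + y * Complex.I) ∈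
          thickening r ((fun θ : ℝ => (t : ℂ) + θ * Complex.I) '' Icc 0 (2 * Real.pi)) := by
        rw [mem_thickening_iff]
        refine ⟨_, ⟨y, ⟨hy.1, hy.2.le⟩, rfl⟩, ?_⟩
        rw [Complex.dist_eq]
        have e2 : (x : ℂ) + y * Complex.I - ((t : ℂ) + y * Complex.I) = ((x - t : ℝ) : ℂ) := by
          push_cast; ring
        rw [e2, Complex.norm_real, Real.norm_eq_abs, abs_of_pos (by linarith [hx.1])]
        linarith [hx.2]
      exact (hrU h5).2.le
  exact hmem z (key ⟨hz, le_rfl⟩)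

variable (E) in
/-- the local version of the drift lemma -/
lemma drift_local (p : M) (η : ℝ) (hη : 0 < η) : ∃ V ∈ 𝓝 p, ∀ᶠ δ : ℝ in 𝓝[>] 0,
    ∀ (F : ℂ → M) (x₁ x₂ : ℝ), HolOn E {z | x₁ < z.re ∧ z.re < x₂} F →
    (∀ z, F (z + 2 * Real.pi * Complex.I) = F z) →
    (∀ z z' : ℂ, z.re = z'.re → x₁ < z.re → z.re < x₂ → dist (F z) (F z') ≤ δ) →
    ∀ z₀ : ℂ, F z₀ ∈ V → x₁ < z₀.re → z₀.re < x₂ →
    ∀ z : ℂ, x₁ < z.re → z.re < x₂ → dist (F z) (F z₀) ≤ η := by
  obtain ⟨R', hR', hball⟩ := Metric.mem_nhds_iff.1 (extChartAt_source_mem_nhds (I := 𝓘(ℂ, E)) p)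
  obtain ⟨R, hRd⟩ : ∃ R : ℝ, R = R' / 4 := ⟨_, rfl⟩
  have hR : 0 < R := by rw [hRd]; positivity
  have hK : closedBall p (2 * R) ⊆ (extChartAt 𝓘(ℂ, E) p).source :=
    (closedBall_subset_ball (by rw [hRd]; linarith)).trans hball
  have hKc : IsCompact (closedBall p (2 * R)) := isClosed_closedBall.isCompact
  set φ := extChartAt 𝓘(ℂ, E) p with hφ
  have hc1 : ContinuousOn φ (closedBall p (2 * R)) := (continuousOn_extChartAt p).mono hK
  have hu1 := hKc.uniformContinuousOn_of_continuous hc1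
  have hc2 : ContinuousOn φ.symm (φ '' closedBall p (2 * R)) := by
    refine (continuousOn_extChartAt_symm p).mono ?_
    rintro _ ⟨q, hq, rfl⟩
    exact φ.map_source (hK hq)
  have hu2 := (hKc.image_of_continuousOn hc1).uniformContinuousOn_of_continuous hc2
  rw [Metric.uniformContinuousOn_iff] at hu1 hu2
  set η' := min η R with hη'
  have hη'0 : 0 < η' := lt_min hη hR
  obtain ⟨ε, hε, H2⟩ := hu2 η' hη'0
  obtain ⟨δ₀, hδ₀, H1⟩ := hu1 (ε / 3) (by positivity)
  have U1 : ∀ q ∈ closedBall p (2 * R), ∀ q' ∈ closedBall p (2 * R),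
      ‖φ q - φ q'‖ < ε → dist q q' < η' := by
    intro q hq q' hq' h
    have h1 := H2 (φ q) ⟨q, hq, rfl⟩ (φ q') ⟨q', hq', rfl⟩ (by rwa [dist_eq_norm])
    rwa [φ.left_inv (hK hq), φ.left_inv (hK hq')] at h1
  refine ⟨ball p R, ball_mem_nhds p hR, ?_⟩
  have hev : ∀ᶠ δ : ℝ in 𝓝[>] 0, δ < min δ₀ η' :=
    (gt_mem_nhds (lt_min hδ₀ hη'0)).filter_mono nhdsWithin_le_nhds
  filter_upwards [hev] with δ hδ F x₁ x₂ hF hper hcirc z₀ hz₀ h1 h2 z h3 h4
  have hδ1 : δ < δ₀ := lt_of_lt_of_le hδ (min_le_left _ _)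
  have hδ2 : δ ≤ η' := (lt_of_lt_of_le hδ (min_le_right _ _)).le
  have U2 : ∀ q ∈ closedBall p (2 * R), ∀ q' ∈ closedBall p (2 * R), dist q q' ≤ δ →
      ‖φ q - φ q'‖ ≤ ε / 3 := by
    intro q hq q' hq' h
    rw [← dist_eq_norm]
    exact (H1 q hq q' hq' (lt_of_le_of_lt h hδ1)).le
  have hηη : η' ≤ η := min_le_left _ _
  rcases le_total z₀.re z.re with hle | hle
  · exact (right hF hper hK U1 U2 hε hη'0 (min_le_right _ _) hδ2 hcirc hz₀ h1 z hle h4).trans hηη
  · -- reflect
    have hF' : HolOn E {z : ℂ | -x₂ < z.re ∧ z.re < -x₁} (fun w => F (-w)) := by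
      intro w hw
      have hopen : IsOpen {z : ℂ | x₁ < z.re ∧ z.re < x₂} :=
        (isOpen_lt continuous_const Complex.continuous_re).inter
          (isOpen_lt Complex.continuous_re continuous_const)
      have hw1 : x₁ < (-w).re ∧ (-w).re < x₂ := by
        rw [Complex.neg_re]
        exact ⟨by linarith [hw.2], by linarith [hw.1]⟩
      have e1 : MDifferentiableAt 𝓘(ℂ, ℂ) 𝓘(ℂ, E) F (-w) :=
        (hF (-w) hw1).mdifferentiableAt (hopen.mem_nhds hw1)
      have e2 : MDifferentiableAt 𝓘(ℂ, ℂ) 𝓘(ℂ, ℂ) (fun w : ℂ => -w) w :=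
        (differentiableAt_id.neg).mdifferentiableAt
      exact (e1.comp w e2).mdifferentiableWithinAt
    have hper' : ∀ w, (fun w => F (-w)) (w + 2 * Real.pi * Complex.I) = (fun w => F (-w)) w := by
      intro w
      have := hper (-(w + 2 * Real.pi * Complex.I))
      have e : -(w + 2 * Real.pi * Complex.I) + 2 * Real.pi * Complex.I = -w := by ring
      rw [e] at this
      exact this.symm
    have hcirc' : ∀ w w' : ℂ, w.re = w'.re → -x₂ < w.re → w.re < -x₁ →
        dist ((fun w => F (-w)) w) ((fun w => F (-w)) w') ≤ δ := by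
      intro w w' h5 h6 h7
      exact hcirc (-w) (-w') (by rw [Complex.neg_re, Complex.neg_re, h5])
        (by rw [Complex.neg_re]; linarith) (by rw [Complex.neg_re]; linarith)
    have := right hF' hper' hK U1 U2 hε hη'0 (min_le_right _ _) hδ2 hcirc' (z₀ := -z₀)
      (by simpa using hz₀) (by rw [Complex.neg_re]; linarith) (-z)
      (by rw [Complex.neg_re, Complex.neg_re]; linarith) (by rw [Complex.neg_re]; linarith)
    simp only [neg_neg] at this
    exact this.trans hηη

end drift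

variable (E : Type) [NormedAddCommGroup E] [NormedSpace ℂ E] [FiniteDimensional ℂ E] (M : Type)
  [MetricSpace M] [CompactSpace M] [ChartedSpace E M] [IsManifold 𝓘(ℂ, E) 1 M]

/-- Job D1 -/
theorem d1 : S_D1 E M := by
  intro η hη
  choose V hV hδ using fun p : M => drift_local E p η hη
  obtain ⟨t, ht⟩ := CompactSpace.elim_nhds_subcover V hV
  have h1 : ∀ᶠ δ : ℝ in 𝓝[>] 0, ∀ p ∈ t, ∀ (F : ℂ → M) (x₁ x₂ : ℝ),
      HolOn E {z | x₁ < z.re ∧ z.re < x₂} F →
      (∀ z, F (z + 2 * Real.pi * Complex.I) = F z) →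
      (∀ z z' : ℂ, z.re = z'.re → x₁ < z.re → z.re < x₂ → dist (F z) (F z') ≤ δ) →
      ∀ z₀ : ℂ, F z₀ ∈ V p → x₁ < z₀.re → z₀.re < x₂ →
      ∀ z : ℂ, x₁ < z.re → z.re < x₂ → dist (F z) (F z₀) ≤ η :=
    (Filter.eventually_all_finset t).2 fun p _ => hδ p
  obtain ⟨δ, h2, h3⟩ := (h1.and self_mem_nhdsWithin).exists
  refine ⟨δ, h3, fun F x₁ x₂ hF hper hcirc z z' a1 a2 a3 a4 => ?_⟩
  have h4 : F z' ∈ ⋃ x ∈ t, V x := by rw [ht]; exact mem_univ _
  obtain ⟨p, hp, hp'⟩ := mem_iUnion₂.1 h4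
  exact h2 p hp F x₁ x₂ hF hper hcirc z' hp' a3 a4 z a1 a2

end Pool.Agent.K4H47.BR
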