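import Pool.Agent.K4H47.BR.Spec

/-!
# Periodic entire curves with small circles near the ends come from the projective line
-/

set_option autoImplicit false

open Filter Topology Metric Set
open scoped Manifold

namespace Pool.Agent.K4H47.BR

variable {E : Type} [NormedAddCommGroup E] [NormedSpace ℂ E] [FiniteDimensional ℂ E] {M : Type}
  [MetricSpace M] [CompactSpace M] [ChartedSpace E M] [IsManifold 𝓘(ℂ, E) 1 M]

lemma ends_per {X : Type} {F : ℂ → X} (hp : ∀ z, F (z + 2 * Real.pi * Complex.I) = F z)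
    {w w' : ℂ} (h : Complex.exp w = Complex.exp w') : F w = F w' := by
  obtain ⟨n, hn⟩ := Complex.exp_eq_exp_iff_exists_int.1 h
  have hp' : Function.Periodic F (2 * Real.pi * Complex.I) := hp
  rw [hn]
  exact hp'.int_mul n w'

lemma one_end (h1 : S_D1 E M) (h2 : S_A2 E M) {F : ℂ → M} (hF : Hol E F)
    (hp : ∀ z, F (z + 2 * Real.pi * Complex.I) = F z)
    (hs : ∀ ε : ℝ, 0 < ε → ∃ R : ℝ, ∀ z z' : ℂ, z.re = z'.re → z.re ≤ -R →
      dist (F z) (F z') ≤ ε) :
    ∃ u : ℂ → M, Hol E u ∧ ∀ z, u (Complex.exp z) = F z := by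
  have hc : ∀ η : ℝ, 0 < η → ∃ R : ℝ, ∀ z z' : ℂ, z.re < -R → z'.re < -R →
      dist (F z) (F z') ≤ η := by
    intro η hη
    obtain ⟨δ, hδ, H⟩ := h1 η hη
    obtain ⟨R, hR⟩ := hs δ hδ
    refine ⟨R, fun z z' hz hz' => ?_⟩
    refine H F (min z.re z'.re - 1) (-R) hF.mdifferentiableOn hp
      (fun w w' e _ hw2 => hR w w' e hw2.le) z z' ?_ hz ?_ hz'
    · linarith [min_le_left z.re z'.re]
    · linarith [min_le_right z.re z'.re]
  -- the limit at the end
  set l : Filter ℂ := comap Complex.re atBot with hl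
  have hlne : l.NeBot := NeBot.comap_of_surj inferInstance Complex.re_surjective
  have hcau : Cauchy (map F l) := by
    rw [Metric.cauchy_iff]
    refine ⟨hlne.map F, fun ε hε => ?_⟩
    obtain ⟨R, hR⟩ := hc (ε / 2) (by linarith)
    refine ⟨F '' {z | z.re < -R}, image_mem_map (preimage_mem_comap (Iio_mem_atBot (-R))), ?_⟩
    rintro _ ⟨z, hz, rfl⟩ _ ⟨z', hz', rfl⟩
    linarith [hR z z' hz hz']
  obtain ⟨p, hpl⟩ := CompleteSpace.complete hcau
  classical
  let u : ℂ → M := fun x => if x = 0 then p else F (Complex.log x)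
  have hu0 : u 0 = p := if_pos rfl
  have hu : ∀ x, x ≠ 0 → u x = F (Complex.log x) := fun x hx => if_neg hx
  have hu' : ∀ w, u (Complex.exp w) = F w := by
    intro w
    rw [hu _ (Complex.exp_ne_zero w)]
    exact ends_per hp (Complex.exp_log (Complex.exp_ne_zero w))
  refine ⟨u, h2.2.2 u ?_ ?_, hu'⟩
  · rw [continuousAt_iff_punctured_nhds, hu0]
    have h3 : Tendsto Complex.log (𝓝[≠] 0) l := by
      rw [hl, tendsto_comap_iff]
      have h4 : Complex.re ∘ Complex.log = Real.log ∘ norm := by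
        funext x
        simp [Complex.log_re]
      rw [h4]
      exact Real.tendsto_log_nhdsGT_zero.comp tendsto_norm_nhdsNE_zero
    have h5 : Tendsto (fun x => F (Complex.log x)) (𝓝[≠] 0) (𝓝 p) :=
      Tendsto.comp (show Tendsto F l (𝓝 p) from hpl) h3
    refine h5.congr' ?_
    filter_upwards [self_mem_nhdsWithin] with x hx
    exact (hu x hx).symm
  · intro x hx
    have h3 : u =ᶠ[𝓝 x] F ∘ (fun y => Complex.log (y / x) + Complex.log x) := by
      filter_upwards [isOpen_ne.mem_nhds hx] with y hy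
      have hy' : y ≠ 0 := hy
      rw [hu y hy']
      refine ends_per hp ?_
      rw [Complex.exp_add, Complex.exp_log hy', Complex.exp_log (div_ne_zero hy' hx),
        Complex.exp_log hx, div_mul_cancel₀ _ hx]
    have h4 : DifferentiableAt ℂ (fun y => Complex.log (y / x) + Complex.log x) x := by
      have h5 : x / x ∈ Complex.slitPlane := by
        rw [div_self hx]
        exact Complex.one_mem_slitPlane
      exact ((differentiableAt_id.div_const x).clog h5).add_const _
    have h5 : MDifferentiableAt 𝓘(ℂ, ℂ) 𝓘(ℂ, E)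
        (F ∘ (fun y => Complex.log (y / x) + Complex.log x)) x :=
      (hF _).comp x h4.mdifferentiableAt
    exact h5.congr_of_eventuallyEq h3

/-- **Job D2.** -/
theorem d2 : S_D2 E M := by
  intro h1 h2 F hF hp hs
  obtain ⟨u₁, hu₁, e₁⟩ := one_end h1 h2 hF hp (fun ε hε => by
    obtain ⟨R, hR⟩ := hs ε hε
    refine ⟨R, fun z z' e hz => hR z z' e ?_⟩
    exact (le_neg.2 hz).trans (neg_le_abs z.re))
  have hF2 : Hol E (fun z => F (-z)) := hF.comp differentiable_neg.mdifferentiable
  obtain ⟨u₂, hu₂, e₂⟩ := one_end h1 h2 hF2 (fun z => by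
    have h3 := hp (-(z + 2 * Real.pi * Complex.I))
    rw [← h3]
    congr 1
    ring) (fun ε hε => by
    obtain ⟨R, hR⟩ := hs ε hε
    refine ⟨R, fun z z' e hz => hR (-z) (-z') (by simp [e]) ?_⟩
    rw [Complex.neg_re, abs_neg]
    exact (le_neg.2 hz).trans (neg_le_abs z.re))
  refine ⟨u₁, u₂, hu₁, hu₂, e₁, fun z => ?_⟩
  rw [e₂, neg_neg]

end Pool.Agent.K4H47.BR
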