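import Mathlib
import Pool.Agent.K4H47.BR.Spec

/-!
# A nonconstant periodic Brody curve (job G2)
-/

set_option autoImplicit false

open Filter Topology Metric Set
open scoped Manifold

namespace Pool.Agent.K4H47.BR

variable {M : Type} [MetricSpace M]

omit [MetricSpace M] in
/-- `0` is a period -/
lemma zero_mem_Per (s : ℂ → M) : (0 : ℂ) ∈ Per s := fun z => by rw [add_zero]

/-- a curve which is near far away from its periods is uniformly near -/
lemma near_uniform {η : ℝ} (hη : 0 < η) (s : C(ℂ, M)) {c C : ℝ} (hc : 0 < c) (hC : 0 < C)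
    (h : ∀ w : ℂ, C ≤ infDist w (Per s) → Near η s w (c * infDist w (Per s))) :
    ∃ r : ℝ, 0 < r ∧ ∀ w, Near η s w r := by
  have huc : UniformContinuousOn (s : ℂ → M) (closedBall (0 : ℂ) (C + 1)) :=
    (isCompact_closedBall _ _).uniformContinuousOn_of_continuous s.continuous.continuousOn
  obtain ⟨δ, hδ, hδ'⟩ := Metric.uniformContinuousOn_iff.1 huc η hη
  refine ⟨min (c * C) (min δ 1), lt_min (mul_pos hc hC) (lt_min hδ one_pos), ?_⟩
  intro w z hz
  rw [mem_ball] at hz
  rcases le_or_gt C (infDist w (Per s)) with hw | hw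
  · apply h w hw
    rw [mem_ball]
    calc dist z w < min (c * C) (min δ 1) := hz
      _ ≤ c * C := min_le_left _ _
      _ ≤ c * infDist w (Per s) := mul_le_mul_of_nonneg_left hw hc.le
  · obtain ⟨γ, hγ, hwγ⟩ := (infDist_lt_iff ⟨0, zero_mem_Per _⟩).1 hw
    have e1 : s z = s (z - γ) := by
      have := hγ (z - γ)
      rw [sub_add_cancel] at this
      exact this
    have e2 : s w = s (w - γ) := by
      have := hγ (w - γ)
      rw [sub_add_cancel] at this
      exact this
    rw [e1, e2]
    have hwd : ‖w - γ‖ < C := by rwa [← dist_eq_norm]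
    have hzd : dist z w < δ := lt_of_lt_of_le hz ((min_le_right _ _).trans (min_le_left _ _))
    have hz1 : dist z w < 1 := lt_of_lt_of_le hz ((min_le_right _ _).trans (min_le_right _ _))
    have hd : dist (z - γ) (w - γ) = dist z w := dist_sub_right z w γ
    refine (hδ' _ ?_ _ ?_ ?_).le
    · rw [mem_closedBall, dist_zero_right]
      have : ‖z - γ‖ ≤ ‖w - γ‖ + ‖(z - γ) - (w - γ)‖ := by
        have := norm_add_le (w - γ) ((z - γ) - (w - γ))
        rwa [add_sub_cancel] at this
      have hn : ‖(z - γ) - (w - γ)‖ = dist z w := by rw [← dist_eq_norm]; exact hd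
      rw [hn] at this
      linarith
    · rw [mem_closedBall, dist_zero_right]
      linarith
    · rw [hd]
      exact hzd

section

variable (E : Type) [NormedAddCommGroup E] [NormedSpace ℂ E] [FiniteDimensional ℂ E] (M : Type)
  [MetricSpace M] [CompactSpace M] [ChartedSpace E M] [IsManifold 𝓘(ℂ, E) 1 M]

theorem g2 : S_G2 E M := by
  intro η hη s hs hnc ⟨c, C, hc, hC, hfar⟩
  obtain ⟨r, hr, hnear⟩ := near_uniform hη s hc hC hfar
  by_cases hper : ∃ ω ∈ Per s, ω ≠ 0
  · obtain ⟨ω, hω, hω0⟩ := hper
    have hpi : (2 * Real.pi * Complex.I : ℂ) ≠ 0 := Complex.two_pi_I_ne_zero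
    set a : ℂ := ω / (2 * Real.pi * Complex.I) with ha
    have ha0 : a ≠ 0 := div_ne_zero hω0 hpi
    refine ⟨s.comp (aff a 0), ?_, ?_, ?_, r / ‖a‖, by positivity, ?_⟩
    · have h1 : MDifferentiable 𝓘(ℂ, ℂ) 𝓘(ℂ, ℂ) (fun z : ℂ => a * z + 0) := by
        apply Differentiable.mdifferentiable
        fun_prop
      exact hs.comp h1
    · obtain ⟨z, z', hzz⟩ := hnc
      refine ⟨z / a, z' / a, ?_⟩
      change s (a * (z / a) + 0) ≠ s (a * (z' / a) + 0)
      rw [mul_div_cancel₀ _ ha0, mul_div_cancel₀ _ ha0, add_zero, add_zero]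
      exact hzz
    · intro z
      change s (a * (z + 2 * Real.pi * Complex.I) + 0) = s (a * z + 0)
      have e : a * (z + 2 * Real.pi * Complex.I) + 0 = (a * z + 0) + ω := by
        have : a * (2 * Real.pi * Complex.I) = ω := by
          rw [ha]
          exact div_mul_cancel₀ _ hpi
        rw [mul_add, this]
        ring
      rw [e]
      exact hω _
    · intro w z hz
      change dist (s (a * z + 0)) (s (a * w + 0)) ≤ η
      apply hnear
      rw [mem_ball, add_zero, add_zero, dist_eq_norm, ← mul_sub, norm_mul, ← dist_eq_norm]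
      rw [mem_ball] at hz
      rwa [lt_div_iff₀ (norm_pos_iff.2 ha0), mul_comm] at hz
  · have hper' : ∀ γ ∈ Per s, γ = 0 := by
      intro γ hγ
      by_contra hne
      exact hper ⟨γ, hγ, hne⟩
    have hP : Per (s : ℂ → M) = {0} := by
      apply Set.Subset.antisymm
      · intro γ hγ
        exact hper' γ hγ
      · intro γ hγ
        rw [mem_singleton_iff] at hγ
        rw [hγ]
        exact zero_mem_Per _
    have hinf : ∀ w : ℂ, infDist w (Per (s : ℂ → M)) = ‖w‖ := by
      intro w
      rw [hP, infDist_singleton, dist_zero_right]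
    have hcont : ContinuousAt (fun h : ℂ => ‖Complex.exp h - 1‖) 0 := by fun_prop
    have h0 : ‖Complex.exp 0 - 1‖ < min c (r / C) := by
      rw [Complex.exp_zero, sub_self, norm_zero]
      exact lt_min hc (by positivity)
    obtain ⟨c₃, hc₃, hc₃'⟩ := Metric.eventually_nhds_iff.1 (hcont.eventually_lt_const h0)
    refine ⟨s.comp ⟨Complex.exp, Complex.continuous_exp⟩, ?_, ?_, ?_, c₃, hc₃, ?_⟩
    · have h1 : MDifferentiable 𝓘(ℂ, ℂ) 𝓘(ℂ, ℂ) Complex.exp :=
        Complex.differentiable_exp.mdifferentiable
      exact hs.comp h1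
    · by_contra hcon
      have hall : ∀ z z' : ℂ, s (Complex.exp z) = s (Complex.exp z') := by
        intro z z'
        by_contra hne
        exact hcon ⟨z, z', hne⟩
      have hconst : (s : ℂ → M) = fun _ => s 1 := by
        apply Continuous.ext_on (dense_compl_singleton (0 : ℂ)) s.continuous continuous_const
        intro w hw
        have hw0 : w ≠ 0 := hw
        have h1 := hall (Complex.log w) 0
        rw [Complex.exp_log hw0, Complex.exp_zero] at h1
        exact h1
      obtain ⟨z, z', hzz⟩ := hnc
      apply hzz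
      rw [hconst]
    · intro z
      change s (Complex.exp (z + 2 * Real.pi * Complex.I)) = s (Complex.exp z)
      rw [Complex.exp_periodic z]
    · intro w z hz
      change dist (s (Complex.exp z)) (s (Complex.exp w)) ≤ η
      rw [mem_ball] at hz
      have hh : ‖Complex.exp (z - w) - 1‖ < min c (r / C) := by
        apply hc₃'
        rw [dist_zero_right, ← dist_eq_norm]
        exact hz
      have hexp : ‖Complex.exp z - Complex.exp w‖ = ‖Complex.exp w‖ * ‖Complex.exp (z - w) - 1‖ := by
        rw [← norm_mul, mul_sub, mul_one, ← Complex.exp_add, add_sub_cancel]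
      have hpos : 0 < ‖Complex.exp w‖ := norm_pos_iff.2 (Complex.exp_ne_zero w)
      rcases le_or_gt C ‖Complex.exp w‖ with hw | hw
      · have h1 := hfar (Complex.exp w) (by rw [hinf]; exact hw)
        rw [hinf] at h1
        apply h1
        rw [mem_ball, dist_eq_norm, hexp, mul_comm c]
        exact mul_lt_mul_of_pos_left (lt_of_lt_of_le hh (min_le_left _ _)) hpos
      · apply hnear
        rw [mem_ball, dist_eq_norm, hexp]
        have h2 : ‖Complex.exp (z - w) - 1‖ < r / C := lt_of_lt_of_le hh (min_le_right _ _)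
        calc ‖Complex.exp w‖ * ‖Complex.exp (z - w) - 1‖ < C * (r / C) :=
              mul_lt_mul'' hw h2 hpos.le (norm_nonneg _)
          _ = r := mul_div_cancel₀ _ hC.ne'

end

end Pool.Agent.K4H47.BR
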