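import Pool.Agent.K4H47.BR.Spec

/-!
# Job G: growth
-/

set_option autoImplicit false

open Filter Topology Metric Set
open scoped Manifold

namespace Pool.Agent.K4H47.BR

namespace Gg

lemma pickGrow {M : Type} [MetricSpace M] {s : ℂ → M} (hs : Continuous s) {η : ℝ} (hη : 0 < η) {p₀ : ℂ}
    {r₀ N : ℝ} (hr₀ : 0 < r₀) (hN : 0 < N) (h0 : ¬ Near η s p₀ r₀) :
    ∃ (p : ℂ) (r : ℝ), 0 < r ∧ r ≤ r₀ ∧ dist p p₀ ≤ 2 * N * r₀ ∧ ¬ Near η s p r ∧
      ∀ z : ℂ, dist z p ≤ N * r → Near η s z (r / 2) := by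
  have hhalf : ∀ n : ℕ, (0 : ℝ) < (1 / 2) ^ n := fun n => by positivity
  obtain ⟨Q, hQ⟩ : ∃ Q : ℕ → Prop, ∀ n, Q n ↔ ∃ p : ℂ,
    dist p p₀ ≤ 2 * N * r₀ * (1 - (1 / 2) ^ n) ∧ ¬ Near η s p (r₀ * (1 / 2) ^ n) :=
    ⟨_, fun n => Iff.rfl⟩
  have hle : ∀ n : ℕ, 2 * N * r₀ * (1 - (1 / 2) ^ n) ≤ 2 * N * r₀ := by
    intro n
    have := hhalf n
    have h1 : 0 < N * r₀ := mul_pos hN hr₀
    nlinarith
  have hQ0 : Q 0 := by
    rw [hQ]
    refine ⟨p₀, by simp, ?_⟩
    simpa using h0
  have hnot : ¬ ∀ n, Q n := by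
    intro hall
    have hK : IsCompact (closedBall p₀ (2 * N * r₀ + 1)) := isCompact_closedBall _ _
    have huc := hK.uniformContinuousOn_of_continuous hs.continuousOn
    rw [Metric.uniformContinuousOn_iff] at huc
    obtain ⟨δ, hδ, hδ'⟩ := huc η hη
    obtain ⟨n, hn⟩ := exists_pow_lt_of_lt_one (div_pos (lt_min hδ one_pos) hr₀)
      (by norm_num : (1 / 2 : ℝ) < 1)
    rw [lt_div_iff₀ hr₀] at hn
    obtain ⟨p, hp1, hp2⟩ := (hQ n).mp (hall n)
    apply hp2
    intro z hz
    rw [mem_ball] at hz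
    have h1 : dist z p < min δ 1 := by linarith
    have h2 : dist p p₀ ≤ 2 * N * r₀ := hp1.trans (hle n)
    refine (hδ' z ?_ p ?_ (h1.trans_le (min_le_left _ _))).le
    · rw [mem_closedBall]
      have := h1.trans_le (min_le_right _ _)
      linarith [dist_triangle z p p₀]
    · rw [mem_closedBall]
      linarith
  have hstep : ∃ n, Q n ∧ ¬ Q (n + 1) := by
    by_contra hcon
    push Not at hcon
    apply hnot
    intro n
    induction n with
    | zero => exact hQ0
    | succ n ih => exact hcon n ih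
  obtain ⟨n, hn1, hn2⟩ := hstep
  obtain ⟨p, hp1, hp2⟩ := (hQ n).mp hn1
  refine ⟨p, r₀ * (1 / 2) ^ n, mul_pos hr₀ (hhalf n), ?_, hp1.trans (hle n), hp2, ?_⟩
  · have : ((1 / 2 : ℝ)) ^ n ≤ 1 := pow_le_one₀ (by norm_num) (by norm_num)
    nlinarith
  · intro z hz
    by_contra hcon
    apply hn2
    rw [hQ]
    refine ⟨z, ?_, ?_⟩
    · have h2 : 2 * N * r₀ * (1 - (1 / 2) ^ (n + 1)) =
          N * (r₀ * (1 / 2) ^ n) + 2 * N * r₀ * (1 - (1 / 2) ^ n) := by
        rw [pow_succ]; ring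
      rw [h2]
      linarith [dist_triangle z p p₀]
    · intro h
      apply hcon
      have h3 : r₀ * (1 / 2) ^ n / 2 = r₀ * (1 / 2) ^ (n + 1) := by
        rw [pow_succ]; ring
      rw [h3]
      exact h

end Gg

open Gg

section

variable (E : Type) [NormedAddCommGroup E] [NormedSpace ℂ E] [FiniteDimensional ℂ E] (M : Type)
  [MetricSpace M] [CompactSpace M] [ChartedSpace E M] [IsManifold 𝓘(ℂ, E) 1 M]

/-- Job G. -/
theorem g : S_G E M := by
  intro η hη _ hCmp hR s hs _ hCen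
  by_contra hcon
  push Not at hcon
  have hk : ∀ k : ℕ, (0 : ℝ) < (k : ℝ) + 1 := fun k => by positivity
  choose w hw1 hw2 using fun k : ℕ => hcon (1 / ((k : ℝ) + 1)) ((k : ℝ) + 1)
    (by have := hk k; positivity) (hk k)
  set D : ℕ → ℝ := fun k => infDist (w k) (Per s) with hD
  have hDpos : ∀ k, 0 < D k := fun k => lt_of_lt_of_le (hk k) (hw1 k)
  choose p r hr hr0 hp hp2 hp3 using fun k : ℕ =>
    pickGrow (s := s) s.continuous hη (p₀ := w k) (r₀ := 1 / ((k : ℝ) + 1) * D k)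
      (N := ((k : ℝ) + 1) / 4) (by have := hk k; have := hDpos k; positivity)
      (by have := hk k; positivity) (hw2 k)
  have hp' : ∀ k, dist (p k) (w k) ≤ D k / 2 := by
    intro k
    refine (hp k).trans (le_of_eq ?_)
    have := (hk k).ne'
    field_simp
    norm_num
  have hFa : ∀ k z, (s.comp (aff (r k) (p k))) z = s ((r k : ℂ) * z + p k) := fun k z => rfl
  have hFd : ∀ k z, dist ((r k : ℂ) * z + p k) (p k) = r k * ‖z‖ := by
    intro k z
    rw [dist_eq_norm, add_sub_cancel_right, norm_mul, Complex.norm_real, Real.norm_of_nonneg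
      (hr k).le]
  obtain ⟨g, hg1, hg2, -, z₁, -, hz₁⟩ := hR η hη hCmp ℕ (hyperfilter ℕ)
    (fun k => s.comp (aff (r k) (p k)))
    (fun k => by
      show MDifferentiable 𝓘(ℂ, ℂ) 𝓘(ℂ, E) (s ∘ (aff (r k) (p k)))
      refine MDifferentiable.comp hs ?_
      refine Differentiable.mdifferentiable ?_
      show Differentiable ℂ (fun z : ℂ => (r k : ℂ) * z + p k)
      fun_prop)
    (fun k => ((k : ℝ) + 1) / 4)
    (by
      have h1 : Tendsto (fun k : ℕ => ((k : ℝ) + 1) / 4) atTop atTop := by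
        apply Tendsto.atTop_div_const (by norm_num)
        exact tendsto_atTop_add_const_right _ _ tendsto_natCast_atTop_atTop
      exact h1.mono_left Nat.hyperfilter_le_atTop)
    (1 / 2) (by norm_num)
    (fun k z hz => by
      intro y hy
      rw [hFa, hFa]
      apply hp3 k ((r k : ℂ) * z + p k) (by
        rw [hFd]
        have := hr k
        nlinarith)
      rw [mem_ball, dist_eq_norm] at hy ⊢
      have h1 : (r k : ℂ) * y + p k - ((r k : ℂ) * z + p k) = (r k : ℂ) * (y - z) := by ring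
      rw [h1, norm_mul, Complex.norm_real, Real.norm_of_nonneg (hr k).le]
      have := hr k
      nlinarith)
    (fun k => by
      have h1 := hp2 k
      rw [Near] at h1
      push Not at h1
      obtain ⟨y, hy, hy2⟩ := h1
      have hrk : (r k : ℂ) ≠ 0 := by exact_mod_cast (hr k).ne'
      refine ⟨(y - p k) / r k, ?_, ?_⟩
      · rw [mem_closedBall, dist_zero_right, norm_div, Complex.norm_real,
          Real.norm_of_nonneg (hr k).le, div_le_one (hr k), ← dist_eq_norm]
        exact (mem_ball.mp hy).le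
      · rw [hFa, hFa]
        have h2 : (r k : ℂ) * ((y - p k) / r k) + p k = y := by
          field_simp
          ring
        rw [h2, mul_zero, zero_add]
        exact hy2.le)
  have hgn : NC g := ⟨z₁, 0, fun h => by
    rw [h, dist_self] at hz₁
    linarith⟩
  obtain ⟨C, hC⟩ := hCen p r hr g hg2 hgn
  have hbig : ∀ᶠ k : ℕ in (hyperfilter ℕ : Filter ℕ), 4 * |C| < (k : ℝ) + 1 := by
    have h1 : Tendsto (fun k : ℕ => (k : ℝ) + 1) atTop atTop :=
      tendsto_atTop_add_const_right _ _ tendsto_natCast_atTop_atTop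
    exact (h1.mono_left Nat.hyperfilter_le_atTop).eventually_gt_atTop _
  obtain ⟨k, hk1, hk2⟩ := (hC.and hbig).exists
  have h1 : D k ≤ infDist (p k) (Per s) + dist (w k) (p k) := infDist_le_infDist_add_dist
  rw [dist_comm] at h1
  have h2 := hp' k
  have h3 : infDist (p k) (Per s) ≤ |C| * (1 + r k) := by
    refine hk1.trans ?_
    have := hr k
    have := le_abs_self C
    nlinarith
  have h4 : r k ≤ D k / ((k : ℝ) + 1) := by
    refine (hr0 k).trans (le_of_eq ?_)
    ring
  have h5 : 1 ≤ D k / ((k : ℝ) + 1) := by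
    rw [le_div_iff₀ (hk k), one_mul]
    exact hw1 k
  have h6 : D k / 2 ≤ |C| * (2 * (D k / ((k : ℝ) + 1))) := by
    have h7 : |C| * (1 + r k) ≤ |C| * (2 * (D k / ((k : ℝ) + 1))) := by
      apply mul_le_mul_of_nonneg_left _ (abs_nonneg C)
      linarith
    linarith
  have h8 : D k * ((k : ℝ) + 1) ≤ 4 * |C| * D k := by
    have h9 := mul_le_mul_of_nonneg_right h6 (hk k).le
    have h10 : |C| * (2 * (D k / ((k : ℝ) + 1))) * ((k : ℝ) + 1) = 2 * |C| * D k := by
      have := (hk k).ne'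
      field_simp
    rw [h10] at h9
    linarith
  have h11 : (k : ℝ) + 1 ≤ 4 * |C| := by
    have := hDpos k
    nlinarith
  linarith

end

end Pool.Agent.K4H47.BR
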