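import Pool.Agent.K4H47.BR.Spec

/-!
# Lifts of uniformly near curves are locally bounded
-/

set_option autoImplicit false

open Filter Topology Metric Set
open scoped Manifold

namespace Pool.Agent.K4H47.BR

variable (E : Type) [NormedAddCommGroup E] [NormedSpace ℂ E] [FiniteDimensional ℂ E] (M : Type)
  [MetricSpace M] [CompactSpace M] [ChartedSpace E M] [IsManifold 𝓘(ℂ, E) 1 M]

theorem l : S_L E M := by
  intro hC1 hH η hη hSch t ht hNC hid c hc J R hR
  have htc : Continuous t := ht.continuous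
  set J' : ℝ := max J 1 with hJ'
  have hJ1 : 1 ≤ J' := le_max_right _ _
  have hJ0 : 0 < J' := by linarith
  obtain ⟨ε, hε, hq⟩ := hH M t htc hNC hid J' hJ0.le
  obtain ⟨δ, hδ, -, hδf⟩ := hSch ε hε
  have hδc : 0 < δ * c := mul_pos hδ hc
  set L : ℝ := 2 * (J' + 1) / (δ * c) / J' with hL
  have hL0 : 0 ≤ L := by positivity
  refine ⟨J' * Real.exp (4 * L * R), fun ψ hψ hnear hex => ?_⟩
  -- the local bound
  have key : ∀ a : ℂ, ‖ψ a‖ ≤ J' → ∀ z ∈ ball a (δ * c), ‖ψ z‖ ≤ J' + 1 := by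
    intro a ha z hz
    obtain ⟨ρ, h1, h2, h3⟩ := hq (t (ψ a))
    have hHol : HolOn E (ball a c) (fun z => t (ψ z)) := by
      have : MDifferentiable 𝓘(ℂ, ℂ) 𝓘(ℂ, E) (t ∘ ψ) :=
        MDifferentiable.comp ht hψ.mdifferentiable
      exact this.mdifferentiableOn
    have h4 : ∀ y ∈ ball a (δ * c), ‖ψ y‖ ≠ ρ := by
      intro y hy hyρ
      have h5 := hδf (fun z => t (ψ z)) a c hc hHol (hnear a) y (mem_ball.1 hy)
      have h6 := h3 (ψ y) hyρ
      exact absurd h5 (not_lt.2 h6)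
    by_contra hcon
    push Not at hcon
    -- intermediate value theorem
    have hpre : IsPreconnected (ball a (δ * c)) := (convex_ball a (δ * c)).isPreconnected
    have hcont : ContinuousOn (fun y => ‖ψ y‖) (ball a (δ * c)) :=
      (hψ.continuous.norm).continuousOn
    have h7 := hpre.intermediate_value (mem_ball_self hδc) hz hcont
    obtain ⟨y, hy, hyρ⟩ := h7 (show ρ ∈ Icc (‖ψ a‖) (‖ψ z‖) from ⟨by linarith, by linarith⟩)
    exact h4 y hy hyρ
  have hder : ∀ a : ℂ, ‖ψ a‖ ≤ J' → ‖deriv ψ a‖ ≤ 2 * (J' + 1) / (δ * c) := by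
    intro a ha
    have h1 : 0 < δ * c / 2 := by positivity
    have h2 := Complex.norm_deriv_le_of_forall_mem_sphere_norm_le (c := a) (R := δ * c / 2)
      (C := J' + 1) (f := ψ) h1 hψ.diffContOnCl (by
        intro z hz
        apply key a ha z
        rw [mem_ball]
        rw [mem_sphere] at hz
        linarith)
    calc ‖deriv ψ a‖ ≤ (J' + 1) / (δ * c / 2) := h2
      _ = 2 * (J' + 1) / (δ * c) := by
        field_simp
  have hnd : ∀ z, deriv (fun z => ψ z / (J' : ℂ)) z = deriv ψ z / (J' : ℂ) := fun z => by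
    simp
  have hnJ : ‖(J' : ℂ)‖ = J' := by
    rw [Complex.norm_real, Real.norm_eq_abs, abs_of_pos hJ0]
  have h8 := hC1 (fun z => ψ z / (J' : ℂ)) R L hR hL0 (hψ.div_const _) (by
      intro z _ hz
      rw [norm_div, hnJ, div_le_one hJ0] at hz
      rw [hnd, norm_div, hnJ, hL]
      exact div_le_div_of_nonneg_right (hder z hz) hJ0.le) (by
      obtain ⟨z, hz, hzJ⟩ := hex
      refine ⟨z, hz, ?_⟩
      rw [norm_div, hnJ, div_le_one hJ0]
      exact hzJ.trans (le_max_left _ _))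
  intro z hz
  have h9 := h8 z hz
  rw [norm_div, hnJ, div_le_iff₀ hJ0] at h9
  linarith [mul_comm J' (Real.exp (4 * L * R))]

end Pool.Agent.K4H47.BR
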