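import Pool.Agent.K4H47.BR.Spec

/-!
# Job A2: limits, identity theorem and removable singularities for curves in a complex manifold
-/

set_option autoImplicit false

open Filter Topology Metric Set
open scoped Manifold

namespace Pool.Agent.K4H47.BR

section charts

variable {E : Type} [NormedAddCommGroup E] [NormedSpace ℂ E] {X : Type} [TopologicalSpace X]
  [ChartedSpace E X] [IsManifold 𝓘(ℂ, E) 1 X]

/-- a holomorphic map in a chart -/
theorem loc_diffOn {U : Set ℂ} {h : ℂ → X} (hh : MDifferentiableOn 𝓘(ℂ, ℂ) 𝓘(ℂ, E) h U) {c : X}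
    (hm : MapsTo h U (chartAt E c).source) : DifferentiableOn ℂ (fun z => chartAt E c (h z)) U := by
  have h1 : MDifferentiableOn 𝓘(ℂ, E) 𝓘(ℂ, E) (extChartAt 𝓘(ℂ, E) c) (chartAt E c).source :=
    mdifferentiableOn_extChartAt
  exact mdifferentiableOn_iff_differentiableOn.mp (h1.comp hh hm)

/-- from a chart to the manifold -/
theorem loc_mdiffAt {f : ℂ → X} {z : ℂ} (hc : ContinuousAt f z)
    (hd : DifferentiableAt ℂ (fun w => chartAt E (f z) (f w)) z) :
    MDifferentiableAt 𝓘(ℂ, ℂ) 𝓘(ℂ, E) f z := by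
  rw [mdifferentiableAt_iff]
  refine ⟨hc, ?_⟩
  simpa [writtenInExtChartAt, Function.comp_def, differentiableWithinAt_univ] using hd

end charts

section jobs

variable (E : Type) [NormedAddCommGroup E] [NormedSpace ℂ E] [FiniteDimensional ℂ E] (M : Type)
  [MetricSpace M] [CompactSpace M] [ChartedSpace E M] [IsManifold 𝓘(ℂ, E) 1 M]

/-- limits of holomorphic maps are holomorphic -/
theorem hol_closed : IsClosed (HolSet E M) := by
  have hE : CompleteSpace E := FiniteDimensional.complete ℂ E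
  rw [isClosed_iff_ultrafilter]
  intro f u hu hS z₀
  set c := chartAt E (f z₀) with hcdef
  have hsrc : IsOpen (f ⁻¹' c.source) := c.open_source.preimage f.continuous
  obtain ⟨r, hr, hrs⟩ := Metric.isOpen_iff.mp hsrc z₀ (mem_chart_source E (f z₀))
  have hr2 : closedBall z₀ (r / 2) ⊆ f ⁻¹' c.source :=
    (closedBall_subset_ball (by linarith)).trans hrs
  -- eventually the maps stay in the chart
  have hev : ∀ᶠ g : C(ℂ, M) in (u : Filter C(ℂ, M)), MapsTo g (closedBall z₀ (r / 2)) c.source :=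
    hu (ContinuousMap.eventually_mapsTo (isCompact_closedBall z₀ (r / 2)) c.open_source hr2)
  have hdiff : ∀ᶠ g : C(ℂ, M) in (u : Filter C(ℂ, M)),
      DifferentiableOn ℂ (fun z => c (g z)) (ball z₀ (r / 2)) := by
    filter_upwards [hev, hS] with g hg hgh
    exact loc_diffOn (fun z _ => (hgh z).mdifferentiableWithinAt)
      (hg.mono_left ball_subset_closedBall)
  have hlim : TendstoLocallyUniformlyOn (fun (g : C(ℂ, M)) z => c (g z)) (fun z => c (f z))
      (u : Filter C(ℂ, M)) (ball z₀ (r / 2)) := by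
    rw [tendstoLocallyUniformlyOn_iff_filter]
    intro x hx
    rw [tendstoUniformlyOnFilter_iff_tendsto]
    have hxs : f x ∈ c.source := hr2 (ball_subset_closedBall hx)
    have hcx : ContinuousAt c (f x) := c.continuousAt hxs
    have h1 : Tendsto (fun q : C(ℂ, M) × ℂ => q.1 q.2) ((u : Filter C(ℂ, M)) ×ˢ 𝓝[ball z₀ (r / 2)] x)
        (𝓝 (f x)) := by
      have h2 : Tendsto (fun q : C(ℂ, M) × ℂ => q.1 q.2) (𝓝 (f, x)) (𝓝 (f x)) :=
        (ContinuousEval.continuous_eval (F := C(ℂ, M))).tendsto (f, x)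
      rw [nhds_prod_eq] at h2
      exact h2.mono_left (prod_mono hu nhdsWithin_le_nhds)
    have h3 : Tendsto (fun q : C(ℂ, M) × ℂ => f q.2) ((u : Filter C(ℂ, M)) ×ˢ 𝓝[ball z₀ (r / 2)] x)
        (𝓝 (f x)) :=
      ((f.continuous.tendsto x).mono_left nhdsWithin_le_nhds).comp tendsto_snd
    have h4 := (hcx.tendsto.comp h3).prodMk_nhds (hcx.tendsto.comp h1)
    exact h4.mono_right (nhds_le_uniformity _)
  have hd : DifferentiableOn ℂ (fun z => c (f z)) (ball z₀ (r / 2)) :=
    hlim.differentiableOn hdiff isOpen_ball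
  exact loc_mdiffAt f.continuous.continuousAt
    ((hd z₀ (mem_ball_self (by linarith))).differentiableAt (ball_mem_nhds z₀ (by linarith)))

/-- the identity theorem -/
theorem hol_identity (f : ℂ → M) (hf : Hol E f) (z₀ : ℂ) (hz₀ : ∃ᶠ z in 𝓝[≠] z₀, f z = f z₀) :
    ∀ z, f z = f z₀ := by
  have hE : CompleteSpace E := FiniteDimensional.complete ℂ E
  have hfc : Continuous f := hf.continuous
  have key : ∀ z₁ : ℂ, f z₁ = f z₀ → (∃ᶠ z in 𝓝[≠] z₁, f z = f z₀) → ∀ᶠ w in 𝓝 z₁, f w = f z₀ := by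
    intro z₁ h1 h2
    set c := chartAt E (f z₀) with hcdef
    have hsrc : IsOpen (f ⁻¹' c.source) := c.open_source.preimage hfc
    have hmem : z₁ ∈ f ⁻¹' c.source := by
      rw [mem_preimage, h1]
      exact mem_chart_source E (f z₀)
    have hd : DifferentiableOn ℂ (fun z => c (f z)) (f ⁻¹' c.source) :=
      loc_diffOn (fun z _ => (hf z).mdifferentiableWithinAt) (fun z hz => hz)
    have ha : AnalyticAt ℂ (fun z => c (f z)) z₁ := hd.analyticAt (hsrc.mem_nhds hmem)
    have h3 : ∃ᶠ z in 𝓝[≠] z₁, c (f z) = c (f z₀) := h2.mono fun z hz => by rw [hz]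
    have h4 := (ha.frequently_eq_iff_eventually_eq analyticAt_const).mp h3
    filter_upwards [h4, hsrc.mem_nhds hmem] with w hw hws
    exact c.injOn hws (mem_chart_source E (f z₀)) hw
  let A : Set ℂ := {z | ∀ᶠ w in 𝓝 z, f w = f z₀}
  have hAo : IsOpen A := isOpen_setOf_eventually_nhds
  have hAs : ∀ z ∈ A, f z = f z₀ := fun z hz => hz.self_of_nhds
  have hAc : IsClosed A := by
    refine isClosed_of_closure_subset fun z₁ hz₁ => ?_
    by_contra hn
    have h1 : f z₁ = f z₀ := by
      have h2 : IsClosed {z | f z = f z₀} := isClosed_eq hfc continuous_const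
      exact h2.closure_subset_iff.mpr hAs hz₁
    refine hn (key z₁ h1 ?_)
    rw [frequently_nhdsWithin_iff]
    refine (mem_closure_iff_frequently.mp hz₁).mono fun x hx => ⟨hAs x hx, ?_⟩
    rintro rfl
    exact hn hx
  have hA : A = univ := IsClopen.eq_univ ⟨hAc, hAo⟩ ⟨z₀, key z₀ rfl hz₀⟩
  intro z
  exact hAs z (by rw [hA]; exact mem_univ z)

/-- removable singularities -/
theorem hol_removable (f : ℂ → M) (h0 : ContinuousAt f 0)
    (hf : ∀ z, z ≠ 0 → MDifferentiableAt 𝓘(ℂ, ℂ) 𝓘(ℂ, E) f z) : Hol E f := by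
  have hE : CompleteSpace E := FiniteDimensional.complete ℂ E
  intro z
  by_cases hz : z = 0
  · subst hz
    set c := chartAt E (f 0) with hcdef
    have hs : f ⁻¹' c.source ∈ 𝓝 (0 : ℂ) :=
      h0.preimage_mem_nhds (c.open_source.mem_nhds (mem_chart_source E (f 0)))
    have hd : DifferentiableOn ℂ (fun z => c (f z)) (f ⁻¹' c.source \ {0}) :=
      loc_diffOn (fun z hz => (hf z (by simpa using hz.2)).mdifferentiableWithinAt) (fun z hz => hz.1)
    have hcc : ContinuousAt (fun z => c (f z)) 0 :=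
      ContinuousAt.comp (f := f) (g := c) (c.continuousAt (mem_chart_source E (f 0))) h0
    have h1 := (Complex.differentiableOn_compl_singleton_and_continuousAt_iff hs).mp ⟨hd, hcc⟩
    exact loc_mdiffAt h0 (h1.differentiableAt hs)
  · exact hf z hz

/-- **Job A2.** -/
theorem a2 : S_A2 E M :=
  ⟨hol_closed E M, hol_identity E M, hol_removable E M⟩

end jobs

end Pool.Agent.K4H47.BR
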