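import Pool.Agent.K4H47.BR.Spec

/-!
# Job C2: Montel's theorem along ultrafilters
-/

set_option autoImplicit false

open Filter Topology Metric Set

namespace Pool.Agent.K4H47.BR

theorem c2 : S_C2 := by
  intro ι u F hF hB
  -- Lipschitz bounds
  have hLip : ∀ R : ℝ, ∃ K : ℝ, 0 ≤ K ∧ ∀ᶠ i in (u : Filter ι), ∀ z w : ℂ, ‖z‖ ≤ R → ‖w‖ ≤ R →
      ‖F i w - F i z‖ ≤ K * ‖w - z‖ := by
    intro R
    obtain ⟨B, hB1⟩ := hB (R + 1)
    refine ⟨max B 0, le_max_right _ _, ?_⟩
    filter_upwards [hB1] with i hi z w hz hw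
    refine (convex_closedBall (0 : ℂ) R).norm_image_sub_le_of_norm_deriv_le
      (fun x _ => (hF i x)) (fun x hx => ?_) (mem_closedBall_zero_iff.2 hz)
      (mem_closedBall_zero_iff.2 hw)
    have h1 : ‖deriv (F i) x‖ ≤ max B 0 / 1 := by
      refine Complex.norm_deriv_le_of_forall_mem_sphere_norm_le one_pos
        (hF i).diffContOnCl (fun y hy => ?_)
      refine (hi y ?_).trans (le_max_left _ _)
      rw [mem_closedBall_zero_iff] at hx
      rw [mem_sphere, dist_eq_norm] at hy
      have := norm_add_le x (y - x)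
      simp only [add_sub_cancel] at this
      linarith
    simpa using h1
  -- pointwise limits
  have hpt : ∀ z : ℂ, ∃ w : ℂ, Tendsto (fun i => F i z) u (𝓝 w) := by
    intro z
    obtain ⟨B, hB1⟩ := hB ‖z‖
    have h1 : ((u.map (fun i => F i z) : Ultrafilter ℂ) : Filter ℂ) ≤ 𝓟 (closedBall 0 B) := by
      rw [le_principal_iff, Ultrafilter.coe_map, mem_map]
      filter_upwards [hB1] with i hi
      exact mem_closedBall_zero_iff.2 (hi z le_rfl)
    obtain ⟨w, -, hw⟩ := (isCompact_closedBall (0 : ℂ) B).ultrafilter_le_nhds _ h1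
    exact ⟨w, hw⟩
  choose f hf using hpt
  have hfl : ∀ (R K : ℝ), (∀ᶠ i in (u : Filter ι), ∀ z w : ℂ, ‖z‖ ≤ R → ‖w‖ ≤ R →
      ‖F i w - F i z‖ ≤ K * ‖w - z‖) → ∀ z w : ℂ, ‖z‖ ≤ R → ‖w‖ ≤ R →
      ‖f w - f z‖ ≤ K * ‖w - z‖ := by
    intro R K hK z w hz hw
    refine le_of_tendsto ((hf w).sub (hf z)).norm ?_
    filter_upwards [hK] with i hi
    exact hi z w hz hw
  have hloc : TendstoLocallyUniformly (fun i a => F i a) f (u : Filter ι) := by
    rw [Metric.tendstoLocallyUniformly_iff]
    intro ε hε x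
    obtain ⟨K, hK0, hK⟩ := hLip (‖x‖ + 1)
    have hKp : 0 < K + 1 := by linarith
    refine ⟨ball x (min 1 (ε / (3 * (K + 1)))), ball_mem_nhds _ (by positivity), ?_⟩
    have h3 : ∀ᶠ i in (u : Filter ι), ‖f x - F i x‖ < ε / 3 := by
      have h4 := (hf x).const_sub (f x)
      rw [sub_self] at h4
      have h5 := h4.norm
      rw [norm_zero] at h5
      exact h5.eventually_lt_const (by positivity)
    filter_upwards [hK, h3] with i hi hi3 y hy
    have hy1 : ‖y - x‖ < 1 := by
      rw [mem_ball, dist_eq_norm] at hy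
      exact hy.trans_le (min_le_left _ _)
    have hy2 : ‖y - x‖ < ε / (3 * (K + 1)) := by
      rw [mem_ball, dist_eq_norm] at hy
      exact hy.trans_le (min_le_right _ _)
    have hyn : ‖y‖ ≤ ‖x‖ + 1 := by
      have := norm_add_le x (y - x)
      simp only [add_sub_cancel] at this
      linarith
    have hxn : ‖x‖ ≤ ‖x‖ + 1 := by linarith
    have h6 := hi x y hxn hyn
    have h7 := hfl _ K hK x y hxn hyn
    have h8 : K * ‖y - x‖ < ε / 3 := by
      rw [lt_div_iff₀ (by positivity)] at hy2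
      have := norm_nonneg (y - x)
      nlinarith
    rw [dist_eq_norm]
    have h9 : f y - F i y = (f y - f x) + (f x - F i x) - (F i y - F i x) := by ring
    rw [h9]
    have h10 := norm_sub_le ((f y - f x) + (f x - F i x)) (F i y - F i x)
    have h11 := norm_add_le (f y - f x) (f x - F i x)
    linarith
  have hcont : Continuous f :=
    hloc.continuous (Frequently.of_forall fun i => (F i).continuous)
  refine ⟨⟨f, hcont⟩, ?_, ?_⟩
  · have h1 : TendstoLocallyUniformlyOn (fun i a => F i a) f (u : Filter ι) univ :=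
      tendstoLocallyUniformlyOn_univ.2 hloc
    have h2 := h1.differentiableOn (Eventually.of_forall fun i => (hF i).differentiableOn) isOpen_univ
    exact differentiableOn_univ.1 h2
  · rw [ContinuousMap.tendsto_iff_tendstoLocallyUniformly]
    exact hloc

end Pool.Agent.K4H47.BR
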