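import Pool.Agent.K4H47.BR.Spec

/-!
# Job F: no recurrence of periodic entire functions
-/

set_option autoImplicit false

open Filter Topology Metric Set

namespace Pool.Agent.K4H47.BR

namespace PerF

/-- reduction modulo the period -/
theorem red {h : ℂ → ℂ} (hp : ∀ z, h (z + 2 * Real.pi * Complex.I) = h z) (z : ℂ) :
    ∃ w : ℂ, w.re = z.re ∧ w.im ∈ Icc 0 (2 * Real.pi) ∧ ∀ b, h (z + b) = h (w + b) := by
  have hpi : (0 : ℝ) < 2 * Real.pi := by positivity
  have hint : ∀ (n : ℤ) (w : ℂ), h (w + n * (2 * Real.pi * Complex.I)) = h w := by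
    have hper : Function.Periodic h (2 * Real.pi * Complex.I) := hp
    intro n w
    exact hper.int_mul n w
  set n : ℤ := ⌊z.im / (2 * Real.pi)⌋ with hn
  refine ⟨z + ((-n : ℤ) : ℂ) * (2 * Real.pi * Complex.I), ?_, ?_, fun b => ?_⟩
  · simp
  · have e : (z + ((-n : ℤ) : ℂ) * (2 * Real.pi * Complex.I)).im = z.im - n * (2 * Real.pi) := by
      simp
      ring
    rw [e]
    have h1 := Int.floor_le (z.im / (2 * Real.pi))
    have h2 := Int.lt_floor_add_one (z.im / (2 * Real.pi))
    rw [← hn] at h1 h2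
    rw [le_div_iff₀ hpi] at h1
    rw [div_lt_iff₀ hpi] at h2
    constructor
    · linarith
    · linarith
  · rw [show z + ((-n : ℤ) : ℂ) * (2 * Real.pi * Complex.I) + b = z + b +
      ((-n : ℤ) : ℂ) * (2 * Real.pi * Complex.I) by ring, hint]

/-- the maximum principle in a strip for periodic functions -/
theorem strip {h : ℂ → ℂ} (hd : Differentiable ℂ h)
    (hp : ∀ z, h (z + 2 * Real.pi * Complex.I) = h z) {B a b : ℝ} (hab : a ≤ b)
    (ha : ∀ w : ℂ, w.re = a → ‖h w‖ ≤ B) (hb : ∀ w : ℂ, w.re = b → ‖h w‖ ≤ B) (z : ℂ)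
    (hza : a ≤ z.re) (hzb : z.re ≤ b) : ‖h z‖ ≤ B := by
  rcases hab.eq_or_lt with h0 | hlt
  · exact ha z (le_antisymm (h0 ▸ hzb) hza)
  obtain ⟨K, hK⟩ : ∃ K : ℝ, ∀ w : ℂ, a ≤ w.re → w.re ≤ b → ‖h w‖ ≤ K := by
    have hc : IsCompact (Icc a b ×ℂ Icc 0 (2 * Real.pi)) := isCompact_Icc.reProdIm isCompact_Icc
    obtain ⟨K, hK⟩ := (hc.image hd.continuous).isBounded.exists_norm_le
    refine ⟨K, fun w h1 h2 => ?_⟩
    obtain ⟨w', hw1, hw2, hw3⟩ := red hp w
    have := hw3 0
    rw [add_zero, add_zero] at this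
    rw [this]
    refine hK _ (mem_image_of_mem _ ?_)
    rw [Complex.mem_reProdIm]
    refine ⟨?_, hw2⟩
    rw [hw1]
    exact ⟨h1, h2⟩
  refine PhragmenLindelof.vertical_strip (a := a) (b := b) hd.diffContOnCl
    ⟨0, div_pos Real.pi_pos (sub_pos.2 hlt), 0, ?_⟩ ha hb hza hzb
  simp only [zero_mul, Real.exp_zero]
  rw [Asymptotics.isBigO_iff]
  refine ⟨K, ?_⟩
  rw [eventually_inf_principal]
  refine Eventually.of_forall fun w hw => ?_
  have hw' : w.re ∈ Ioo a b := hw
  simpa using hK w hw'.1.le hw'.2.le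

theorem main (g : ℂ → ℂ) (hg : Differentiable ℂ g)
    (hper : ∀ z, g (z + 2 * Real.pi * Complex.I) = g z) {ι : Type} (u : Ultrafilter ι)
    (b : ι → ℂ) (hb : Tendsto (fun k => |(b k).re|) (u : Filter ι) atTop)
    (hlim : TendstoLocallyUniformlyOn (fun k z => deriv g (z + b k)) (deriv g) (u : Filter ι) univ) :
    ∀ z w, g z = g w := by
  set h : ℂ → ℂ := deriv g with hh
  have hd : Differentiable ℂ h := by
    intro z
    exact (hg.analyticAt z).deriv.differentiableAt
  have hp : ∀ z, h (z + 2 * Real.pi * Complex.I) = h z := by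
    intro z
    have e : (fun z => g (z + 2 * Real.pi * Complex.I)) = g := funext hper
    have := deriv_comp_add_const g (2 * Real.pi * Complex.I) z
    rw [e] at this
    exact this.symm
  -- the bound on the circles
  obtain ⟨B, hB0, hBk⟩ : ∃ B : ℝ, (∀ w : ℂ, w.re = 0 → ‖h w‖ ≤ B) ∧
      ∀ᶠ k in (u : Filter ι), ∀ w : ℂ, w.re = (b k).re → ‖h w‖ ≤ B := by
    have hc : IsCompact (Icc (0 : ℝ) 0 ×ℂ Icc 0 (2 * Real.pi)) :=
      isCompact_Icc.reProdIm isCompact_Icc
    obtain ⟨K, hK⟩ := (hc.image hd.continuous).isBounded.exists_norm_le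
    have h1 := (tendstoLocallyUniformlyOn_iff_forall_isCompact isOpen_univ).1 hlim _
      (subset_univ _) hc
    rw [Metric.tendstoUniformlyOn_iff] at h1
    have h2 := h1 1 one_pos
    have hmem : ∀ w : ℂ, w.re = 0 → ∃ w' ∈ (Icc (0 : ℝ) 0 ×ℂ Icc 0 (2 * Real.pi)),
        ∀ b, h (w + b) = h (w' + b) := by
      intro w hw
      obtain ⟨w', hw1, hw2, hw3⟩ := red hp w
      refine ⟨w', ?_, hw3⟩
      rw [Complex.mem_reProdIm]
      refine ⟨?_, hw2⟩
      rw [hw1, hw]
      simp
    refine ⟨K + 1, fun w hw => ?_, ?_⟩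
    · obtain ⟨w', hw', hw3⟩ := hmem w hw
      have := hw3 0
      rw [add_zero, add_zero] at this
      rw [this]
      have := hK _ (mem_image_of_mem _ hw')
      linarith
    · filter_upwards [h2] with k hk w hw
      obtain ⟨w', hw', hw3⟩ := hmem (w - b k) (by simp [hw])
      have h3 := hw3 (b k)
      rw [sub_add_cancel] at h3
      rw [h3]
      have h4 := hk w' hw'
      have h5 := hK _ (mem_image_of_mem _ hw')
      have h6 : ‖h (w' + b k)‖ ≤ ‖h w'‖ + dist (h w') (h (w' + b k)) := by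
        rw [dist_comm, dist_eq_norm]
        calc ‖h (w' + b k)‖ = ‖h w' + (h (w' + b k) - h w')‖ := by rw [add_sub_cancel]
          _ ≤ _ := norm_add_le _ _
      linarith
  have hpt : ∀ z, Tendsto (fun k => h (z + b k)) (u : Filter ι) (𝓝 (h z)) := fun z =>
    hlim.tendsto_at (mem_univ z)
  have hbound : ∀ z, ‖h z‖ ≤ B := by
    have hclosed : ∀ z, (∀ᶠ k in (u : Filter ι), ‖h (z + b k)‖ ≤ B) → ‖h z‖ ≤ B := fun z hz =>
      le_of_tendsto (hpt z).norm hz
    rcases u.em (fun k => 0 ≤ (b k).re) with hs | hs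
    · have hb' : Tendsto (fun k => (b k).re) (u : Filter ι) atTop := by
        refine hb.congr' ?_
        filter_upwards [hs] with k hk
        exact abs_of_nonneg hk
      have hpos : ∀ z : ℂ, 0 ≤ z.re → ‖h z‖ ≤ B := by
        intro z hz
        obtain ⟨k, hk1, hk2⟩ := (hBk.and (hb'.eventually_ge_atTop z.re)).exists
        exact strip hd hp (hz.trans hk2) hB0 hk1 z hz hk2
      intro z
      refine hclosed z ?_
      filter_upwards [hb'.eventually_ge_atTop (-z.re)] with k hk
      refine hpos _ ?_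
      rw [Complex.add_re]
      linarith
    · have hb' : Tendsto (fun k => (b k).re) (u : Filter ι) atBot := by
        rw [← tendsto_neg_atTop_iff]
        refine hb.congr' ?_
        filter_upwards [hs] with k hk
        exact abs_of_neg (not_le.1 hk)
      have hpos : ∀ z : ℂ, z.re ≤ 0 → ‖h z‖ ≤ B := by
        intro z hz
        obtain ⟨k, hk1, hk2⟩ := (hBk.and (hb'.eventually_le_atBot z.re)).exists
        exact strip hd hp (hk2.trans hz) hk1 hB0 z hk2 hz
      intro z
      refine hclosed z ?_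
      filter_upwards [hb'.eventually_le_atBot (-z.re)] with k hk
      refine hpos _ ?_
      rw [Complex.add_re]
      linarith
  have hconst : ∀ z, h z = h 0 := fun z =>
    hd.apply_eq_apply_of_bounded (isBounded_iff_forall_norm_le.2 ⟨B, by
      rintro _ ⟨w, rfl⟩
      exact hbound w⟩) z 0
  have hlin : ∀ z w, g z - h 0 * z = g w - h 0 * w := by
    refine is_const_of_deriv_eq_zero (f := fun z => g z - h 0 * z)
      (hg.sub (differentiable_id.const_mul _)) fun z => ?_
    have h1 : HasDerivAt (fun z => g z - h 0 * z) (h z - h 0 * 1) z :=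
      ((hg z).hasDerivAt).sub ((hasDerivAt_id z).const_mul (h 0))
    rw [h1.deriv, hconst z]
    ring
  have h0 : h 0 = 0 := by
    have h1 := hlin (0 + 2 * Real.pi * Complex.I) 0
    rw [hper 0] at h1
    have h2 : h 0 * (2 * Real.pi * Complex.I) = 0 := by linear_combination -h1
    rcases mul_eq_zero.1 h2 with h3 | h3
    · exact h3
    · exact absurd h3 (by simp [Real.pi_ne_zero])
  intro z w
  have h1 := hlin z w
  rw [h0] at h1
  linear_combination h1

theorem f : S_F := by
  intro g hg hper ι u b c hb hlim hnc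
  obtain ⟨z, w, hzw⟩ := hnc
  refine hzw (main g hg hper u b hb ?_ z w)
  have h1 := ContinuousMap.tendsto_iff_tendstoLocallyUniformly.1 hlim
  rw [← tendstoLocallyUniformlyOn_univ] at h1
  have hF : ∀ k z, (g.comp (aff 1 (b k)) + ContinuousMap.const ℂ (c k) : C(ℂ, ℂ)) z =
      g (z + b k) + c k := by
    intro k z
    simp [aff]
  have hdk : ∀ k, Differentiable ℂ (fun z => (g.comp (aff 1 (b k)) +
      ContinuousMap.const ℂ (c k) : C(ℂ, ℂ)) z) := by
    intro k
    simp_rw [hF]
    exact (hg.comp (differentiable_id.add_const (b k))).add_const (c k)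
  have h2 := h1.deriv (Eventually.of_forall fun k => (hdk k).differentiableOn) isOpen_univ
  refine h2.congr fun k z _ => ?_
  show deriv (fun z => (g.comp (aff 1 (b k)) + ContinuousMap.const ℂ (c k) : C(ℂ, ℂ)) z) z = _
  simp_rw [hF]
  rw [deriv_add_const, deriv_comp_add_const]

end PerF

theorem f : S_F := PerF.f

end Pool.Agent.K4H47.BR
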