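import Pool.Agent.K4H47.BR.Spec

/-!
# Rescaling an entire function near given values (Job C3)
-/

set_option autoImplicit false

open Filter Topology Metric Set

namespace Pool.Agent.K4H47.BR

/-- `|φ z| ≤ 1` and `|φ| ≥ 2` somewhere in the ball -/
def Bad (φ : ℂ → ℂ) (z : ℂ) (r : ℝ) : Prop := ‖φ z‖ ≤ 1 ∧ ∃ x ∈ ball z r, 2 ≤ ‖φ x‖

lemma exists_bad {φ : ℂ → ℂ} (hφ : Differentiable ℂ φ) (hn : NC φ) :
    ∃ (z : ℂ) (r : ℝ), 0 < r ∧ Bad φ z r := by
  obtain ⟨a, b, hab⟩ := hn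
  have h1 : ∃ z, ‖φ z‖ ≤ 1 := by
    by_contra hcon
    push Not at hcon
    have h0 : ∀ z, φ z ≠ 0 := fun z hz => by
      have := hcon z
      rw [hz, norm_zero] at this
      linarith
    have hd : Differentiable ℂ fun z => (φ z)⁻¹ := fun z => (hφ z).inv (h0 z)
    have hb : Bornology.IsBounded (range fun z => (φ z)⁻¹) := by
      rw [isBounded_iff_forall_norm_le]
      refine ⟨1, ?_⟩
      rintro _ ⟨z, rfl⟩
      rw [norm_inv]
      exact inv_le_one_of_one_le₀ (hcon z).le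
    have := hd.apply_eq_apply_of_bounded hb a b
    exact hab (inv_injective this)
  have h2 : ∃ x, 2 ≤ ‖φ x‖ := by
    by_contra hcon
    push Not at hcon
    have hb : Bornology.IsBounded (range φ) := by
      rw [isBounded_iff_forall_norm_le]
      refine ⟨2, ?_⟩
      rintro _ ⟨z, rfl⟩
      exact (hcon z).le
    exact hab (hφ.apply_eq_apply_of_bounded hb a b)
  obtain ⟨z, hz⟩ := h1
  obtain ⟨x, hx⟩ := h2
  refine ⟨z, dist x z + 1, by positivity, hz, x, ?_, hx⟩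
  rw [mem_ball]
  linarith

/-- point picking -/
lemma pick {φ : ℂ → ℂ} (hφ : Differentiable ℂ φ) (hn : NC φ) (K : ℝ) :
    ∃ (z : ℂ) (r : ℝ), 0 < r ∧ Bad φ z r ∧ ∀ z', dist z' z ≤ K * r → ¬ Bad φ z' (r / 2) := by
  by_contra hcon
  push Not at hcon
  obtain ⟨z₀, r₀, hr₀, h₀⟩ := exists_bad hφ hn
  let T := {p : ℂ × ℝ // 0 < p.2 ∧ Bad φ p.1 p.2}
  have step : ∀ p : T, ∃ q : T, dist q.1.1 p.1.1 ≤ K * p.1.2 ∧ q.1.2 = p.1.2 / 2 := by
    rintro ⟨⟨z, r⟩, hr, hb⟩
    obtain ⟨z', hz', hb'⟩ := hcon z r hr hb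
    exact ⟨⟨(z', r / 2), by change 0 < r / 2; linarith, hb'⟩, hz', rfl⟩
  choose nxt hn1 hn2 using step
  let s : ℕ → T := fun n => Nat.rec ⟨(z₀, r₀), hr₀, h₀⟩ (fun _ p => nxt p) n
  have hs : ∀ n, s (n + 1) = nxt (s n) := fun n => rfl
  have hr : ∀ n, (s n).1.2 = r₀ / 2 ^ n := by
    intro n
    induction n with
    | zero => simp [s]
    | succ n ih => rw [hs, hn2, ih, pow_succ]; field_simp
  have hd : ∀ n, dist (s n).1.1 (s (n + 1)).1.1 ≤ K * r₀ * 2 / 2 / 2 ^ n := by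
    intro n
    rw [dist_comm, hs]
    refine (hn1 (s n)).trans (le_of_eq ?_)
    rw [hr]
    ring
  have hc : CauchySeq fun n => (s n).1.1 := cauchySeq_of_le_geometric_two hd
  obtain ⟨z, hz⟩ := cauchySeq_tendsto_of_complete hc
  have hb : ∀ n, ∃ x, dist x (s n).1.1 < r₀ / 2 ^ n ∧ 2 ≤ ‖φ x‖ := by
    intro n
    obtain ⟨-, x, hx, hx2⟩ := (s n).2.2
    rw [mem_ball, hr] at hx
    exact ⟨x, hx, hx2⟩
  choose x hx1 hx2 using hb
  have h0 : Tendsto (fun n : ℕ => r₀ / 2 ^ n) atTop (𝓝 0) :=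
    tendsto_const_nhds.div_atTop (tendsto_pow_atTop_atTop_of_one_lt one_lt_two)
  have hxz : Tendsto x atTop (𝓝 z) := by
    rw [tendsto_iff_dist_tendsto_zero] at hz ⊢
    have h1 : Tendsto (fun n => r₀ / 2 ^ n + dist (s n).1.1 z) atTop (𝓝 0) := by
      have := h0.add hz
      simpa using this
    refine squeeze_zero (fun n => dist_nonneg) (fun n => ?_) h1
    refine (dist_triangle _ (s n).1.1 _).trans ?_
    have := hx1 n
    linarith
  have hcont : Continuous fun y => ‖φ y‖ := hφ.continuous.norm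
  have h3 : ‖φ z‖ ≤ 1 := le_of_tendsto ((hcont.tendsto z).comp hz)
    (Eventually.of_forall fun n => (s n).2.2.1)
  have h4 : 2 ≤ ‖φ z‖ := ge_of_tendsto ((hcont.tendsto z).comp hxz)
    (Eventually.of_forall fun n => hx2 n)
  linarith

theorem c3 : S_C3 := by
  intro hC1 hC2 φ hφ hn w ρ hρ
  have hρ' : ∀ k, (ρ k : ℂ) ≠ 0 := fun k => by exact_mod_cast (hρ k).ne'
  let φk : ℕ → ℂ → ℂ := fun k z => (φ z - w k) / ρ k
  have hd : ∀ k, Differentiable ℂ (φk k) := fun k => (hφ.sub_const (w k)).div_const (ρ k : ℂ)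
  have hnk : ∀ k, NC (φk k) := by
    intro k
    obtain ⟨a, b, hab⟩ := hn
    refine ⟨a, b, fun h => hab ?_⟩
    have h1 : (φ a - w k) / ρ k = (φ b - w k) / ρ k := h
    rw [div_left_inj' (hρ' k)] at h1
    exact sub_left_injective h1
  have hp := fun k : ℕ => pick (hd k) (hnk k) k
  choose z r hr hbad hgood using hp
  have hr' : ∀ k, (r k : ℂ) ≠ 0 := fun k => by exact_mod_cast (hr k).ne'
  let F : ℕ → C(ℂ, ℂ) := fun k => ⟨fun x => φk k (r k * x + z k), by
    exact (hd k).continuous.comp (by fun_prop)⟩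
  have hF : ∀ k x, F k x = φk k (r k * x + z k) := fun k x => rfl
  have hFd : ∀ k, Differentiable ℂ (F k) := fun k => (hd k).comp (by fun_prop)
  have hF0 : ∀ k, ‖F k 0‖ ≤ 1 := by
    intro k
    rw [hF, mul_zero, zero_add]
    exact (hbad k).1
  have hF2 : ∀ k, ∃ x ∈ closedBall (0 : ℂ) 1, 2 ≤ ‖F k x‖ := by
    intro k
    obtain ⟨-, x, hx, hx2⟩ := hbad k
    refine ⟨(x - z k) / r k, ?_, ?_⟩
    · rw [mem_closedBall_zero_iff, norm_div, Complex.norm_real, Real.norm_of_nonneg (hr k).le,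
        div_le_one (hr k), ← dist_eq_norm]
      exact (mem_ball.mp hx).le
    · rw [hF]
      have : (r k : ℂ) * ((x - z k) / r k) + z k = x := by
        field_simp [hr' k]
        ring
      rwa [this]
  have hFg : ∀ (k : ℕ) (x : ℂ), ‖x‖ ≤ k → ‖F k x‖ ≤ 1 → ‖deriv (F k) x‖ ≤ 8 := by
    intro k x hx hx1
    have h1 : ¬ Bad (φk k) (r k * x + z k) (r k / 2) := by
      refine hgood k _ ?_
      rw [dist_eq_norm, add_sub_cancel_right, norm_mul, Complex.norm_real,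
        Real.norm_of_nonneg (hr k).le, mul_comm]
      exact mul_le_mul_of_nonneg_right hx (hr k).le
    have h2 : ∀ y ∈ sphere x (1 / 4), ‖F k y‖ ≤ 2 := by
      intro y hy
      by_contra hlt
      push Not at hlt
      refine h1 ⟨hx1, r k * y + z k, ?_, hlt.le⟩
      rw [mem_ball, dist_eq_norm]
      have h3 : (r k : ℂ) * y + z k - (r k * x + z k) = r k * (y - x) := by ring
      rw [h3, norm_mul, Complex.norm_real, Real.norm_of_nonneg (hr k).le]
      rw [mem_sphere, dist_eq_norm] at hy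
      rw [hy]
      have := hr k
      linarith
    have h3 := Complex.norm_deriv_le_of_forall_mem_sphere_norm_le (by norm_num : (0 : ℝ) < 1 / 4)
      (hFd k).diffContOnCl h2
    norm_num at h3
    exact h3
  obtain ⟨Ψ, hΨ, hlim⟩ := hC2 ℕ (hyperfilter ℕ) F hFd (by
    intro R
    refine ⟨Real.exp (4 * 8 * max R 1), ?_⟩
    have h1 : ∀ᶠ k : ℕ in atTop, 3 * max R 1 ≤ k := by
      filter_upwards [eventually_ge_atTop ⌈3 * max R 1⌉₊] with k hk
      exact Nat.ceil_le.mp hk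
    have h2 := Nat.hyperfilter_le_atTop h1
    filter_upwards [h2] with k hk x hx
    exact hC1 (F k) (max R 1) 8 (lt_of_lt_of_le one_pos (le_max_right _ _)) (by norm_num) (hFd k)
      (fun y hy hy1 => hFg k y (hy.trans hk) hy1) ⟨0, by simp, hF0 k⟩ x
      (hx.trans (le_max_left _ _)))
  refine ⟨fun k => r k, z, F, Ψ, hr', fun k x => ?_, hΨ, ?_, hlim⟩
  · rw [hF]
    change φ (r k * x + z k) = w k + ρ k * ((φ (r k * x + z k) - w k) / ρ k)
    rw [mul_div_cancel₀ _ (hρ' k)]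
    ring
  · have h0 : ‖Ψ 0‖ ≤ 1 := by
      have h1 : Tendsto (fun k => ‖F k 0‖) (hyperfilter ℕ) (𝓝 ‖Ψ 0‖) :=
        (((continuous_eval_const (0 : ℂ)).tendsto Ψ).comp hlim).norm
      exact le_of_tendsto h1 (Eventually.of_forall hF0)
    by_contra hnc
    have h2 : ∀ x, Ψ x = Ψ 0 := by
      intro x
      by_contra hne
      exact hnc ⟨x, 0, hne⟩
    have h3 : MapsTo Ψ (closedBall (0 : ℂ) 1) (ball (0 : ℂ) 2) := by
      intro x _
      rw [h2, mem_ball_zero_iff]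
      linarith
    have h4 := ContinuousMap.isOpen_setOfPred_mapsTo (isCompact_closedBall (0 : ℂ) 1)
      (isOpen_ball (x := (0 : ℂ)) (ε := (2 : ℝ)))
    have h5 : ∀ᶠ k in (hyperfilter ℕ : Filter ℕ),
        MapsTo (F k) (closedBall (0 : ℂ) 1) (ball (0 : ℂ) 2) := hlim (h4.mem_nhds h3)
    obtain ⟨k, hk⟩ := h5.exists
    obtain ⟨x, hx, hx2⟩ := hF2 k
    have h6 := mem_ball_zero_iff.mp (hk hx)
    linarith

end Pool.Agent.K4H47.BR
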