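import Pool.Agent.K4H47.BR.Spec

/-!
# Job A1: the Schwarz lemma
-/

set_option autoImplicit false

open Filter Topology Metric Set
open scoped Manifold

namespace Pool.Agent.K4H47.BR

section

variable (E : Type) [NormedAddCommGroup E] [NormedSpace ℂ E] [FiniteDimensional ℂ E] (M : Type)
  [MetricSpace M] [CompactSpace M] [ChartedSpace E M] [IsManifold 𝓘(ℂ, E) 1 M]

omit [FiniteDimensional ℂ E] [CompactSpace M] in
/-- a disc map in a chart -/
theorem diffOn_chart' {U : Set ℂ} {h : ℂ → M}
    (hh : MDifferentiableOn 𝓘(ℂ, ℂ) 𝓘(ℂ, E) h U) {c : M}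
    (hm : MapsTo h U (chartAt E c).source) :
    DifferentiableOn ℂ (fun z => chartAt E c (h z)) U := by
  have h1 : MDifferentiableOn 𝓘(ℂ, E) 𝓘(ℂ, E) (extChartAt 𝓘(ℂ, E) c) (chartAt E c).source :=
    mdifferentiableOn_extChartAt
  have h2 := h1.comp hh hm
  exact mdifferentiableOn_iff_differentiableOn.mp h2

omit [FiniteDimensional ℂ E] [CompactSpace M] in
/-- the Schwarz lemma in one chart -/
theorem sch_chart (p : M) (K : Set M) (hK : IsCompact K) (hKs : K ⊆ (chartAt E p).source)
    (ε : ℝ) (hε : 0 < ε) : ∃ δ : ℝ, 0 < δ ∧ ∀ (f : ℂ → M) (a : ℂ) (r : ℝ), 0 < r →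
      HolOn E (ball a r) f → MapsTo f (ball a r) K → ∀ z, z ∈ ball a r → dist z a < δ * r →
      dist (f z) (f a) < ε := by
  have hC : IsCompact (chartAt E p '' K) :=
    hK.image_of_continuousOn ((chartAt E p).continuousOn.mono hKs)
  obtain ⟨B, hB⟩ := hC.isBounded.exists_norm_le
  have hCt : chartAt E p '' K ⊆ (chartAt E p).target := by
    rintro _ ⟨x, hx, rfl⟩
    exact (chartAt E p).map_source (hKs hx)
  have hu := hC.uniformContinuousOn_of_continuous ((chartAt E p).continuousOn_symm.mono hCt)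
  rw [Metric.uniformContinuousOn_iff] at hu
  obtain ⟨δ', hδ', hu⟩ := hu ε hε
  set R : ℝ := 2 * |B| + 1 with hR
  have hR0 : 0 < R := by positivity
  refine ⟨δ' / R, by positivity, fun f a r hr hf hm z hz hza => ?_⟩
  have hd := diffOn_chart' E M hf (hm.mono_right hKs)
  have ha : a ∈ ball a r := mem_ball_self hr
  have hmaps : MapsTo (fun z => chartAt E p (f z)) (ball a r) (ball (chartAt E p (f a)) R) := by
    intro w hw
    rw [mem_ball]
    have h1 := hB _ (mem_image_of_mem _ (hm hw))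
    have h2 := hB _ (mem_image_of_mem _ (hm ha))
    have h3 := dist_le_norm_add_norm (chartAt E p (f w)) (chartAt E p (f a))
    have h4 := le_abs_self B
    show dist (chartAt E p (f w)) (chartAt E p (f a)) < R
    linarith
  have h5 := Complex.dist_le_div_mul_dist_of_mapsTo_ball hd
    (hmaps.mono_right ball_subset_closedBall) hz
  have h6 : dist (chartAt E p (f z)) (chartAt E p (f a)) < δ' := by
    refine h5.trans_lt ?_
    calc R / r * dist z a < R / r * (δ' / R * r) := by
          exact mul_lt_mul_of_pos_left hza (by positivity)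
      _ = δ' := by field_simp
  have h7 := hu _ (mem_image_of_mem _ (hm hz)) _ (mem_image_of_mem _ (hm ha)) h6
  rwa [(chartAt E p).left_inv (hKs (hm hz)), (chartAt E p).left_inv (hKs (hm ha))] at h7

theorem a1 : S_A1 E M := by
  have hK : ∀ c : M, ∃ K : Set M, IsCompact K ∧ c ∈ interior K ∧ K ⊆ (chartAt E c).source :=
    fun c => exists_compact_subset (chartAt E c).open_source (mem_chart_source E c)
  choose K hKc hcK hKs using hK
  obtain ⟨S, hScov⟩ := isCompact_univ.elim_nhds_subcover (fun c => interior (K c))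
    (fun c _ => isOpen_interior.mem_nhds (hcK c))
  obtain ⟨η, hη, hL⟩ := lebesgue_number_lemma_of_metric (s := (univ : Set M))
    (c := fun c : S => interior (K c)) isCompact_univ (fun c => isOpen_interior) (by
      intro x hx
      have := hScov.2 hx
      rw [mem_iUnion₂] at this
      obtain ⟨c, h1, h2⟩ := this
      exact mem_iUnion.2 ⟨⟨c, h1⟩, h2⟩)
  refine ⟨η / 2, by positivity, fun ε hε => ?_⟩
  have hδ := fun p : M => sch_chart E M p (K p) (hKc p) (hKs p) ε hε
  choose δ hδ0 hδ using hδ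
  have hev : ∀ᶠ t : ℝ in 𝓝[>] (0 : ℝ), (∀ p ∈ S, t ≤ δ p) ∧ t ≤ 1 ∧ 0 < t := by
    refine ((Filter.eventually_all_finset S).2 fun p _ => ?_).and ?_
    · exact mem_of_superset (Ioc_mem_nhdsGT (hδ0 p)) fun t ht => ht.2
    · exact mem_of_superset (Ioc_mem_nhdsGT zero_lt_one) fun t ht => ⟨ht.2, ht.1⟩
  obtain ⟨t, ht1, ht2, ht3⟩ := hev.exists
  refine ⟨t, ht3, ht2, fun f a r hr hf hn z hz => ?_⟩
  obtain ⟨⟨p, hp⟩, hpK⟩ := hL (f a) (mem_univ _)
  refine hδ p f a r hr hf (fun w hw => ?_) z ?_ (hz.trans_le ?_)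
  · refine interior_subset (hpK ?_)
    rw [mem_ball]
    have := hn w hw
    linarith
  · rw [mem_ball]
    refine hz.trans_le ?_
    nlinarith
  · exact mul_le_mul_of_nonneg_right (ht1 p hp) hr.le

end

end Pool.Agent.K4H47.BR
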