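import Pool.Agent.K4H47.BR.Tools

set_option autoImplicit false

open Filter Topology Metric Set
open scoped Manifold

namespace Pool.Agent.K4H47.BR

variable {E : Type} [NormedAddCommGroup E] [NormedSpace ℂ E] [FiniteDimensional ℂ E] {M : Type}
  [MetricSpace M] [CompactSpace M] [ChartedSpace E M] [IsManifold 𝓘(ℂ, E) 1 M]

/-- Stage 1: a curve of the countable set whose rescaled limits are centred near its periods. -/
theorem stage1 (hA2 : S_A2 E M) {η : ℝ} (hη : 0 < η)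
    (hK : IsCompact (K1 E M η) ∧ ∀ W : Set C(ℂ, M), W ⊆ HolSet E M → IsClosed W → Inv Aff W →
      (∃ f ∈ W, NC f) → (W ∩ K1 E M η).Nonempty)
    (hE1 : S_E1) (hE2 : S_E2) (hC3 : S_C3) (hC1 : S_C1) (hC2 : S_C2)
    {S : Set (ℂ → M)} {Z : Set ℂ} (hS : Countably E M S Z) (f₀ : ℂ → M) (hf₀ : Hol E f₀)
    (hn₀ : NC f₀) : ∃ s : C(ℂ, M), (s : ℂ → M) ∈ S ∧ Hol E s ∧ NC s ∧ Cen M s := by
  obtain ⟨hSc, hZc, hSH, hex, h2⟩ := hS
  obtain ⟨W, hW0, hWcl, hWinv, hWnc, hWmin⟩ := hE1 M Aff id_mem_Aff Aff_comp (HolSet E M)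
    (K1 E M η) hA2.1 inv_HolSet ⟨⟨f₀, hf₀.cont⟩, hf₀, hn₀⟩ hK.1 (by
      rintro f ⟨-, -, z, -, hz⟩
      refine ⟨z, 0, fun h => ?_⟩
      rw [h, dist_self] at hz
      exact absurd hz (not_le.2 hη)) hK.2
  obtain ⟨s₀, hs₀, j, U, hU, ⟨h, hhU, hhW⟩, hUW⟩ := hE2 M Aff W Aff_surj
    ⟨hWcl, hWinv, hWnc, hWmin⟩ S hSc (fun s hs => (hSH s hs).1.cont) (by
      intro g hg hgn
      obtain ⟨s, hs, φ, -, he⟩ := hex g (hW0 hg) hgn
      exact ⟨s, hs, φ 0, (he 0).symm⟩)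
  obtain ⟨hs₀H, hs₀N⟩ := hSH s₀ hs₀
  obtain ⟨s, rfl⟩ : ∃ s : C(ℂ, M), (s : ℂ → M) = s₀ := ⟨⟨s₀, hs₀H.cont⟩, rfl⟩
  have hhn : NC h := (hUW h hhU hhW).1
  obtain ⟨s', hs', φ, hφ, he⟩ := hex h (hW0 hhW) hhn
  have hφn : NC φ := by
    obtain ⟨z, z', hz⟩ := hhn
    exact ⟨z, z', fun h' => hz (by rw [he, he, h'])⟩
  have hss : s' = s := by
    obtain ⟨V, hV, r, hr, hVr⟩ := near_open h U hU hhU
    refine (hit hZc h2 hs₀ hs' hφ hφn hr (j := j) ?_).1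
    intro b hb
    have h3 := (hUW _ (hVr h (mem_of_mem_nhds hV) b hb)
      (hWinv _ hhW _ (Tra_sub_Aff ⟨b, rfl⟩))).2
    rw [← he b]
    simpa using h3
  subst hss
  refine ⟨s, hs₀, hs₀H, hs₀N, ?_⟩
  intro w ρ hρ g hg hgn
  obtain ⟨a, b, F, Ψ, ha, hF, hΨ, hΨn, hFΨ⟩ := hC3 hC1 hC2 ⟨φ, hφ.continuous⟩ hφ hφn w ρ hρ
  have hgH : Hol E g := by
    have : g ∈ HolSet E M := hA2.1.mem_of_tendsto hg
      (Eventually.of_forall fun k => Hol.comp_aff hs₀H _ _)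
    exact this
  have h4 : ∀ k, h.comp (aff (a k) (b k)) = (s.comp (aff (ρ k) (w k))).comp (F k) := by
    intro k
    ext z
    simp only [ContinuousMap.comp_apply, aff_apply]
    rw [he, show φ (a k * z + b k) = w k + ρ k * F k z from hF k z]
    congr 1
    ring
  have h5 : Tendsto (fun k => h.comp (aff (a k) (b k))) (hyperfilter ℕ) (𝓝 (g.comp Ψ)) := by
    simp only [h4]
    exact hg.compCM hFΨ
  have h6 : g.comp Ψ ∈ W := hWcl.mem_of_tendsto h5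
    (Eventually.of_forall fun k => hWinv _ hhW _ ⟨a k, b k, ha k, rfl⟩)
  have h7 : NC (g.comp Ψ) := NC.comp_entire (hA2.2.1 g hgH) hgn hΨ hΨn
  obtain ⟨_, hxU, A, hA, rfl⟩ : ∃ x, x ∈ U ∧ x ∈ {h | ∃ A ∈ Aff, h = (g.comp Ψ).comp A} := by
    have := hWmin _ h6 h7 hhW
    obtain ⟨x, hx1, hx2⟩ := mem_closure_iff.1 this U hU hhU
    exact ⟨x, hx1, hx2⟩
  obtain ⟨α, β, hα, rfl⟩ := hA
  obtain ⟨V, hV, r, hr, hVr⟩ := near_open _ U hU hxU
  have h8 : ∀ᶠ k in (hyperfilter ℕ : Filter ℕ), (h.comp (aff (a k) (b k))).comp (aff α β) ∈ V :=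
    (h5.compCM tendsto_const_nhds) hV
  -- boundedness of `F k`
  obtain ⟨B, hB0, hB⟩ : ∃ B : ℝ, 0 ≤ B ∧ ∀ᶠ k in (hyperfilter ℕ : Filter ℕ),
      ∀ z, ‖z‖ ≤ ‖α‖ * r + ‖β‖ → ‖F k z‖ ≤ B := by
    have hc : IsCompact (closedBall (0 : ℂ) (‖α‖ * r + ‖β‖)) := isCompact_closedBall _ _
    obtain ⟨B, hB⟩ := hc.exists_bound_of_continuousOn Ψ.continuous.continuousOn
    have hu := ContinuousMap.tendsto_iff_forall_isCompact_tendstoUniformlyOn.1 hFΨ _ hc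
    rw [Metric.tendstoUniformlyOn_iff] at hu
    refine ⟨|B| + 1, by positivity, ?_⟩
    filter_upwards [hu 1 one_pos] with k hk z hz
    have h9 := hk z (by simpa using hz)
    have h10 := hB z (by simpa using hz)
    rw [dist_eq_norm] at h9
    have h11 : ‖F k z‖ ≤ ‖Ψ z‖ + ‖Ψ z - F k z‖ := by
      have : F k z = Ψ z - (Ψ z - F k z) := by ring
      calc ‖F k z‖ = ‖Ψ z - (Ψ z - F k z)‖ := by rw [← this]
        _ ≤ _ := norm_sub_le _ _
    have := le_abs_self B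
    linarith
  refine ⟨B + j, ?_⟩
  filter_upwards [h8, hB] with k hk hBk
  -- the entire function to which `hit` is applied
  have hd : Differentiable ℂ fun z => φ (a k * (α * z + β) + b k) :=
    hφ.comp (by fun_prop)
  have hn : NC fun z => φ (a k * (α * z + β) + b k) := by
    obtain ⟨z, z', hz⟩ := hφn
    refine ⟨((z - b k) / a k - β) / α, ((z' - b k) / a k - β) / α, ?_⟩
    have hak := ha k
    have e1 : ∀ x : ℂ, a k * (α * (((x - b k) / a k - β) / α) + β) + b k = x := by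
      intro x
      field_simp
      ring
    simp only [e1]
    exact hz
  obtain ⟨-, b', hb', γ, hγ, hγ'⟩ := hit (s := s) (s' := s) hZc h2 hs₀ hs₀ hd hn hr (j := j) (by
    intro b' hb'
    have h9 := (hUW _ (hVr _ hk b' hb') (hWinv _ (hWinv _ (hWinv _ hhW _ ⟨a k, b k, ha k, rfl⟩) _
      ⟨α, β, hα, rfl⟩) _ (Tra_sub_Aff ⟨b', rfl⟩))).2
    rw [← he]
    simpa using h9)
  have h10 : φ (a k * (α * b' + β) + b k) = w k + ρ k * F k (α * b' + β) := hF k _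
  rw [h10] at hγ'
  have h11 : ‖F k (α * b' + β)‖ ≤ B := by
    apply hBk
    refine (norm_add_le _ _).trans ?_
    rw [norm_mul]
    have : ‖b'‖ ≤ r := by
      have := mem_ball_zero_iff.1 hb'
      exact this.le
    gcongr
  have h12 : infDist (w k) (Per s) ≤ dist (w k) γ := infDist_le_dist_of_mem hγ
  have h13 : dist (w k) γ ≤ j + ρ k * B := by
    rw [dist_eq_norm]
    have e : w k - γ = (w k + ρ k * F k (α * b' + β) - γ) - ρ k * F k (α * b' + β) := by ring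
    rw [e]
    refine (norm_sub_le _ _).trans (add_le_add hγ' ?_)
    rw [norm_mul, Complex.norm_real, Real.norm_eq_abs, abs_of_pos (hρ k)]
    exact mul_le_mul_of_nonneg_left h11 (hρ k).le
  have hj : (0 : ℝ) ≤ j := Nat.cast_nonneg j
  have h14 := (hρ k).le
  nlinarith [mul_nonneg hj h14]

end Pool.Agent.K4H47.BR
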