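import Pool.Agent.K4H47.BR.Spec

set_option autoImplicit false
set_option linter.unusedSectionVars false

open Filter Topology Metric Set
open scoped Manifold

namespace Pool.Agent.K4H47.BR

@[simp] theorem aff_apply (a b z : ℂ) : aff a b z = a * z + b := rfl

theorem aff_one_zero : aff 1 0 = ContinuousMap.id ℂ := by
  ext z
  simp

theorem aff_comp (a b a' b' : ℂ) : (aff a b).comp (aff a' b') = aff (a * a') (a * b' + b) := by
  ext z
  simp only [ContinuousMap.comp_apply, aff_apply]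
  ring

theorem continuous_aff : Continuous fun p : ℂ × ℂ => aff p.1 p.2 := by
  apply ContinuousMap.continuous_of_continuous_uncurry
  change Continuous fun q : (ℂ × ℂ) × ℂ => q.1.1 * q.2 + q.1.2
  fun_prop

theorem id_mem_Aff : ContinuousMap.id ℂ ∈ Aff := ⟨1, 0, one_ne_zero, aff_one_zero.symm⟩

theorem id_mem_Tra : ContinuousMap.id ℂ ∈ Tra := ⟨0, aff_one_zero.symm⟩

theorem Aff_comp : ∀ A ∈ Aff, ∀ B ∈ Aff, A.comp B ∈ Aff := by
  rintro _ ⟨a, b, ha, rfl⟩ _ ⟨a', b', ha', rfl⟩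
  exact ⟨a * a', a * b' + b, mul_ne_zero ha ha', aff_comp _ _ _ _⟩

theorem Tra_comp : ∀ A ∈ Tra, ∀ B ∈ Tra, A.comp B ∈ Tra := by
  rintro _ ⟨b, rfl⟩ _ ⟨b', rfl⟩
  refine ⟨b' + b, ?_⟩
  rw [aff_comp]
  simp

theorem Aff_surj : ∀ A ∈ Aff, Function.Surjective A := by
  rintro _ ⟨a, b, ha, rfl⟩ z
  refine ⟨(z - b) / a, ?_⟩
  rw [aff_apply]
  field_simp
  ring

theorem Tra_surj : ∀ A ∈ Tra, Function.Surjective A := by
  rintro _ ⟨b, rfl⟩ z
  exact ⟨z - b, by simp⟩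

theorem Tra_sub_Aff : Tra ⊆ Aff := by
  rintro _ ⟨b, rfl⟩
  exact ⟨1, b, one_ne_zero, rfl⟩

section top

variable {M : Type} [MetricSpace M]

/-- small translations do not leave an open set, locally uniformly -/
theorem near_open (g : C(ℂ, M)) (U : Set C(ℂ, M)) (hU : IsOpen U) (hg : g ∈ U) :
    ∃ V ∈ 𝓝 g, ∃ r : ℝ, 0 < r ∧ ∀ h ∈ V, ∀ b ∈ ball (0 : ℂ) r, h.comp (aff 1 b) ∈ U := by
  have hc : Continuous fun p : C(ℂ, M) × ℂ => p.1.comp (aff 1 p.2) := by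
    refine Continuous.compCM continuous_fst ?_
    exact continuous_aff.comp (by fun_prop : Continuous fun p : C(ℂ, M) × ℂ => ((1 : ℂ), p.2))
  have h0 : (fun p : C(ℂ, M) × ℂ => p.1.comp (aff 1 p.2)) (g, 0) ∈ U := by
    simp only [aff_one_zero, ContinuousMap.comp_id]
    exact hg
  have h1 := hc.continuousAt.preimage_mem_nhds (hU.mem_nhds h0)
  rw [nhds_prod_eq, mem_prod_iff] at h1
  obtain ⟨V, hV, B, hB, hVB⟩ := h1
  obtain ⟨r, hr, hrB⟩ := Metric.mem_nhds_iff.1 hB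
  exact ⟨V, hV, r, hr, fun h hh b hb => hVB (Set.mk_mem_prod hh (hrB hb))⟩

end top

/-- nonconstant entire functions take values off a countable set on every ball -/
theorem good {φ : ℂ → ℂ} (hφ : Differentiable ℂ φ) (hn : NC φ) {Z : Set ℂ} (hZ : Z.Countable)
    (a : ℂ) {r : ℝ} (hr : 0 < r) : ∃ b ∈ ball a r, φ b ∉ Z := by
  have hA : AnalyticOnNhd ℂ φ univ := fun z _ =>
    (hφ.differentiableOn (s := univ)).analyticAt univ_mem
  rcases hA.is_constant_or_isOpen isPreconnected_univ with ⟨w, hw⟩ | h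
  · obtain ⟨z, z', hz⟩ := hn
    exact absurd ((hw z (mem_univ _)).trans (hw z' (mem_univ _)).symm) hz
  · have h1 : IsOpen (φ '' ball a r) := h _ (subset_univ _) isOpen_ball
    have h2 : Dense Zᶜ := hZ.dense_compl ℂ
    obtain ⟨y, hy, hy'⟩ := h2.inter_open_nonempty _ h1 ⟨φ a, a, mem_ball_self hr, rfl⟩
    obtain ⟨b, hb, rfl⟩ := hy
    exact ⟨b, hb, hy'⟩

section man

variable {E : Type} [NormedAddCommGroup E] [NormedSpace ℂ E] {M : Type}
  [MetricSpace M] [ChartedSpace E M]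

theorem Hol.cont {f : ℂ → M} (hf : Hol E f) : Continuous f := hf.continuous

theorem Hol.compD {f : ℂ → M} (hf : Hol E f) {φ : ℂ → ℂ} (hφ : Differentiable ℂ φ) :
    Hol E (fun z => f (φ z)) := by
  have h : MDifferentiable 𝓘(ℂ, ℂ) 𝓘(ℂ, ℂ) φ := mdifferentiable_iff_differentiable.2 hφ
  exact MDifferentiable.comp (I' := 𝓘(ℂ, ℂ)) hf h

theorem Hol.comp_aff {f : C(ℂ, M)} (hf : Hol E f) (a b : ℂ) : Hol E (f.comp (aff a b)) :=
  hf.compD (φ := fun z => a * z + b) (by fun_prop)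

theorem NC.of_comp {M' : Type} {s : ℂ → M'} {φ : ℂ → ℂ} (h : NC fun z => s (φ z)) : NC φ := by
  obtain ⟨z, z', hz⟩ := h
  exact ⟨z, z', fun h => hz (congrArg s h)⟩

theorem NC.of_comp' {M' : Type} {s : ℂ → M'} {φ : ℂ → ℂ} (h : NC fun z => s (φ z)) : NC s := by
  obtain ⟨z, z', hz⟩ := h
  exact ⟨_, _, hz⟩

/-- the set of holomorphic curves is invariant -/
theorem inv_HolSet : Inv Aff (HolSet E M) := by
  rintro f hf _ ⟨a, b, _, rfl⟩
  exact Hol.comp_aff hf a b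

/-- a nonconstant curve composed with a nonconstant entire function is nonconstant -/
theorem NC.comp_entire {s : ℂ → M} (hid : ∀ z₀ : ℂ, (∃ᶠ z in 𝓝[≠] z₀, s z = s z₀) → ∀ z, s z = s z₀)
    (hs : NC s) {φ : ℂ → ℂ} (hφ : Differentiable ℂ φ) (hn : NC φ) : NC fun z => s (φ z) := by
  by_contra hcon
  have hcon' : ∀ z z', s (φ z) = s (φ z') := by
    intro z z'
    by_contra h
    exact hcon ⟨z, z', h⟩
  have hA : AnalyticOnNhd ℂ φ univ := fun z _ =>
    (hφ.differentiableOn (s := univ)).analyticAt univ_mem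
  rcases hA.is_constant_or_isOpen isPreconnected_univ with ⟨w, hw⟩ | h
  · obtain ⟨z, z', hz⟩ := hn
    exact absurd ((hw z (mem_univ _)).trans (hw z' (mem_univ _)).symm) hz
  · have h1 : IsOpen (φ '' univ) := h _ (subset_univ _) isOpen_univ
    have h2 : ∀ᶠ z in 𝓝[≠] (φ 0), s z = s (φ 0) := by
      have h3 : φ '' univ ∈ 𝓝 (φ 0) := h1.mem_nhds ⟨0, mem_univ _, rfl⟩
      filter_upwards [mem_nhdsWithin_of_mem_nhds h3] with z hz
      obtain ⟨y, -, rfl⟩ := hz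
      exact hcon' _ _
    have h4 := hid (φ 0) h2.frequently
    obtain ⟨z, z', hz⟩ := hs
    exact hz ((h4 z).trans (h4 z').symm)

/-- the Baire property identifies the curve and the periods -/
theorem hit {S : Set (ℂ → M)} {Z : Set ℂ} (hZ : Z.Countable)
    (h2 : ∀ s ∈ S, ∀ s' ∈ S, ∀ w w', w ∉ Z → s w = s' w' → s' = s ∧ ∀ z, s (z + (w' - w)) = s z)
    {s s' : ℂ → M} (hs : s ∈ S) (hs' : s' ∈ S) {φ : ℂ → ℂ} (hφ : Differentiable ℂ φ) (hn : NC φ)
    {r j : ℝ} (hr : 0 < r)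
    (h : ∀ b ∈ ball (0 : ℂ) r, s' (φ b) ∈ s '' closedBall (0 : ℂ) j) :
    s' = s ∧ ∃ b ∈ ball (0 : ℂ) r, ∃ γ ∈ Per s, ‖φ b - γ‖ ≤ j := by
  obtain ⟨b, hb, hbZ⟩ := good hφ hn hZ 0 hr
  obtain ⟨w', hw', he⟩ := h b hb
  obtain ⟨h3, h4⟩ := h2 s' hs' s hs (φ b) w' hbZ he.symm
  subst h3
  refine ⟨rfl, b, hb, φ b - w', ?_, ?_⟩
  · intro z
    have := h4 (z + (φ b - w'))
    rw [← this]
    congr 1
    ring
  · rw [sub_sub_cancel]
    simpa using hw'

/-- the periods form a group -/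
theorem Per_neg {s : ℂ → M} {γ : ℂ} (h : γ ∈ Per s) : -γ ∈ Per s := by
  intro z
  rw [← h (z + -γ)]
  congr 1
  ring

end man

end Pool.Agent.K4H47.BR
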