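import Pool.Agent.K4H47.BR.Spec

/-!
# Job N: uniqueness of lifts and no rational curves
-/

set_option autoImplicit false

open Filter Topology Metric Set
open scoped Manifold

namespace Pool.Agent.K4H47.BR

namespace Nn

lemma isol {φ : ℂ → ℂ} (hφ : Differentiable ℂ φ) (hn : NC φ) (v z₀ : ℂ) :
    ∀ᶠ z in 𝓝[≠] z₀, φ z ≠ v := by
  by_contra h
  have h1 : ∃ᶠ z in 𝓝[≠] z₀, φ z = (fun _ : ℂ => v) z := by
    rw [Filter.Frequently]
    exact h
  have h2 : AnalyticOnNhd ℂ φ univ := fun z _ => hφ.analyticAt z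
  have h3 := h2.eq_of_frequently_eq (g := fun _ => v) (fun z _ => analyticAt_const) h1
  obtain ⟨z, z', hz⟩ := hn
  apply hz
  rw [h3]

lemma fib {φ : ℂ → ℂ} (hφ : Differentiable ℂ φ) (hn : NC φ) (v : ℂ) :
    {z | φ z = v}.Countable := by
  have h1 : DiscreteTopology {z | φ z = v} := by
    rw [discreteTopology_subtype_iff]
    intro z hz
    rw [← disjoint_iff, Filter.disjoint_principal_right]
    exact isol hφ hn v z
  rw [← countable_coe_iff, ← TopologicalSpace.separableSpace_iff_countable]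
  infer_instance

lemma good_dense {φ : ℂ → ℂ} (hφ : Differentiable ℂ φ) (hn : NC φ) {Z : Set ℂ} (hZ : Z.Countable) :
    Dense {z | φ z ∉ Z} := by
  have h1 : {z | φ z ∈ Z}.Countable := by
    have h2 : {z | φ z ∈ Z} = ⋃ v ∈ Z, {z | φ z = v} := by
      ext z
      simp
    rw [h2]
    exact hZ.biUnion fun v _ => fib hφ hn v
  exact h1.dense_compl ℂ

/-- functions which agree off `0` -/
lemma const_of {X : Type} [TopologicalSpace X] [T2Space X] {f : ℂ → X} (hf : Continuous f) {p : X}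
    (h : ∀ z, f (Complex.exp z) = p) (z : ℂ) : f z = p := by
  have h1 : ∀ z : ℂ, z ≠ 0 → f z = p := by
    intro z hz
    rw [← Complex.exp_log hz]
    exact h _
  have h2 : Dense ({0}ᶜ : Set ℂ) := dense_compl_singleton 0
  have h3 : Set.EqOn f (fun _ => p) ({0}ᶜ : Set ℂ) := fun z hz => h1 z hz
  exact congrFun (Continuous.ext_on h2 hf continuous_const h3) z

end Nn

open Nn

section

variable (E : Type) [NormedAddCommGroup E] [NormedSpace ℂ E] [FiniteDimensional ℂ E] (M : Type)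
  [MetricSpace M] [CompactSpace M] [ChartedSpace E M] [IsManifold 𝓘(ℂ, E) 1 M]

lemma n1 (hA : S_A2 E M) {S : Set (ℂ → M)} {Z : Set ℂ} (hS : Countably E M S Z) {s s' : ℂ → M}
    (hs : s ∈ S) (hs' : s' ∈ S) {φ ψ : ℂ → ℂ} (hφ : Differentiable ℂ φ) (hn : NC φ)
    (hψ : Differentiable ℂ ψ) (h : ∀ z, s (φ z) = s' (ψ z)) :
    s' = s ∧ ∃ γ ∈ Per s, ∀ z, ψ z = φ z + γ := by
  obtain ⟨-, hZ, hol, -, huni⟩ := hS
  have hd := good_dense hφ hn hZ
  have hgood : ∀ z, φ z ∉ Z → s' = s ∧ (ψ z - φ z) ∈ Per s := by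
    intro z hz
    have h1 := huni s hs s' hs' (φ z) (ψ z) hz (h z)
    exact ⟨h1.1, fun w => h1.2 w⟩
  obtain ⟨z₀, hz₀⟩ := hd.nonempty
  refine ⟨(hgood z₀ hz₀).1, ψ z₀ - φ z₀, (hgood z₀ hz₀).2, ?_⟩
  -- the periods are discrete
  have hiso : ∀ᶠ γ in 𝓝[≠] (0 : ℂ), γ ∉ Per s := by
    by_contra hcon
    have h1 : ∃ᶠ z in 𝓝[≠] (0 : ℂ), s z = s 0 := by
      rw [Filter.Frequently]
      intro h2
      apply hcon
      filter_upwards [h2] with γ hγ hp
      apply hγ
      have h3 := hp 0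
      rwa [zero_add] at h3
    have h2 := hA.2.1 s (hol s hs).1 0 h1
    obtain ⟨z, z', hz⟩ := (hol s hs).2
    exact hz ((h2 z).trans (h2 z').symm)
  have hDc : Continuous (fun z => ψ z - φ z) := (hψ.sub hφ).continuous
  -- locally constant
  have hloc : ∀ᶠ z in 𝓝 z₀, ψ z - φ z = ψ z₀ - φ z₀ := by
    have h1 : ∀ᶠ γ in 𝓝 (0 : ℂ), γ ∈ Per s → γ = 0 := by
      have h2 := eventually_nhdsWithin_iff.mp hiso
      filter_upwards [h2] with γ hγ hp
      by_contra h0
      exact hγ h0 hp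
    have h2 : Tendsto (fun z => (ψ z - φ z) - (ψ z₀ - φ z₀)) (𝓝 z₀) (𝓝 0) := by
      have h3 := (hDc.tendsto z₀).sub_const (ψ z₀ - φ z₀)
      rwa [sub_self] at h3
    have h3 := h2.eventually h1
    obtain ⟨U, hU, hUo, hzU⟩ := _root_.eventually_nhds_iff.mp h3
    have h4 : ∀ z ∈ U, φ z ∉ Z → ψ z - φ z = ψ z₀ - φ z₀ := by
      intro z hz hzZ
      have h5 : (ψ z - φ z) - (ψ z₀ - φ z₀) ∈ Per s := by
        intro w
        have h6 := (hgood z hzZ).2
        have h7 := (hgood z₀ hz₀).2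
        calc s (w + ((ψ z - φ z) - (ψ z₀ - φ z₀))) =
            s (w + ((ψ z - φ z) - (ψ z₀ - φ z₀)) + (ψ z₀ - φ z₀)) := (h7 _).symm
          _ = s (w + (ψ z - φ z)) := by
              congr 1
              ring
          _ = s w := h6 w
      exact sub_eq_zero.mp (hU z hz h5)
    filter_upwards [hUo.mem_nhds hzU] with z hz
    have h5 : z ∈ closure (U ∩ {z | φ z ∉ Z}) := by
      exact hd.open_subset_closure_inter hUo hz
    have h6 : IsClosed {z | ψ z - φ z = ψ z₀ - φ z₀} := isClosed_eq hDc continuous_const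
    exact (h6.closure_subset_iff.mpr fun z hz => h4 z hz.1 hz.2) h5
  have h1 : AnalyticOnNhd ℂ (fun z => ψ z - φ z) univ := fun z _ => (hψ.sub hφ).analyticAt z
  have h2 := h1.eq_of_eventuallyEq (g := fun _ => ψ z₀ - φ z₀) (fun z _ => analyticAt_const) hloc
  intro z
  have h3 : ψ z - φ z = ψ z₀ - φ z₀ := congrFun h2 z
  rw [← h3]
  ring

/-- Job N. -/
theorem n : S_N E M := by
  intro hA S Z hS
  refine ⟨fun s hs s' hs' φ ψ hφ hn hψ h => n1 E M hA hS hs hs' hφ hn hψ h, ?_⟩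
  intro u₁ u₂ h₁ h₂ h hn
  have hn2 : NC u₂ := by
    by_contra hcon
    have hc : ∀ z, u₂ z = u₂ 0 := by
      intro z
      by_contra h0
      exact hcon ⟨z, 0, h0⟩
    obtain ⟨z, z', hz⟩ := hn
    have h3 : ∀ z, u₁ (Complex.exp z) = u₂ 0 := fun z => (h z).trans (hc _)
    exact hz ((const_of h₁.continuous h3 z).trans (const_of h₁.continuous h3 z').symm)
  obtain ⟨s₁, hs₁, φ₁, hφ₁, e₁⟩ := hS.2.2.2.1 u₁ h₁ hn
  obtain ⟨s₂, hs₂, φ₂, hφ₂, e₂⟩ := hS.2.2.2.1 u₂ h₂ hn2
  have hnφ : ¬ ∀ z, φ₁ z = φ₁ 0 := by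
    intro h0
    obtain ⟨z, z', hz⟩ := hn
    apply hz
    rw [e₁, e₁, h0 z, h0 z']
  have hn1 : NC (fun z => φ₁ (Complex.exp z)) := by
    by_contra hcon
    have hc : ∀ z, φ₁ (Complex.exp z) = φ₁ (Complex.exp 0) := by
      intro z
      by_contra h0
      exact hcon ⟨z, 0, h0⟩
    apply hnφ
    intro z
    rw [const_of hφ₁.continuous hc z, const_of hφ₁.continuous hc 0]
  obtain ⟨-, γ, -, hγ⟩ := n1 E M hA hS hs₁ hs₂ (φ := fun z => φ₁ (Complex.exp z))
    (ψ := fun z => φ₂ (Complex.exp (-z))) (hφ₁.comp Complex.differentiable_exp) hn1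
    (hφ₂.comp (Complex.differentiable_exp.comp differentiable_neg))
    (fun z => by
      rw [← e₁, ← e₂]
      exact h z)
  -- `φ₁` is bounded
  obtain ⟨B₁, hB₁⟩ := (isCompact_closedBall (0 : ℂ) 1).exists_bound_of_continuousOn
    hφ₁.continuous.continuousOn
  obtain ⟨B₂, hB₂⟩ := (isCompact_closedBall (0 : ℂ) 1).exists_bound_of_continuousOn
    hφ₂.continuous.continuousOn
  have hb : Bornology.IsBounded (range φ₁) := by
    rw [isBounded_iff_forall_norm_le]
    refine ⟨max B₁ (B₂ + ‖γ‖), ?_⟩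
    rintro _ ⟨x, rfl⟩
    by_cases hx : ‖x‖ ≤ 1
    · exact (hB₁ x (by simpa using hx)).trans (le_max_left _ _)
    · push Not at hx
      have hx0 : x ≠ 0 := by
        rintro rfl
        simp at hx
        linarith
      have h3 := hγ (Complex.log x)
      simp only [Complex.exp_neg, Complex.exp_log hx0] at h3
      have h4 : φ₁ x = φ₂ x⁻¹ - γ := by
        rw [h3]
        ring
      rw [h4]
      refine le_trans ?_ (le_max_right _ _)
      refine (norm_sub_le _ _).trans ?_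
      have h5 := hB₂ x⁻¹ (by
        rw [mem_closedBall, dist_zero_right, norm_inv]
        exact inv_le_one_of_one_le₀ hx.le)
      linarith
  exact hnφ fun z => hφ₁.apply_eq_apply_of_bounded hb z 0

end

end Pool.Agent.K4H47.BR
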