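import Pool.Agent.K4H47.BR.Stage1
import Pool.Agent.K4H47.BR.Stage2
import Pool.Agent.K4H47.BR.Uniq

/-!
# The theorem for closed subsets of a compact complex manifold
-/

set_option autoImplicit false
set_option linter.unusedSectionVars false

open Filter Topology Metric Set
open scoped Manifold

namespace Pool.Agent.K4H47.BR

namespace X

/-- the hypotheses for the entire curves in the closed set `X` -/
def Cou (E : Type) [NormedAddCommGroup E] [NormedSpace ℂ E] (M : Type)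
    [MetricSpace M] [ChartedSpace E M] (X : Set M) (S : Set (ℂ → M)) (Z : Set ℂ) : Prop :=
  S.Countable ∧ Z.Countable ∧ (∀ s ∈ S, Hol E s ∧ NC s) ∧
  (∀ f : ℂ → M, Hol E f → (∀ z, f z ∈ X) → NC f →
    ∃ s ∈ S, ∃ φ : ℂ → ℂ, Differentiable ℂ φ ∧ ∀ z, f z = s (φ z)) ∧
  ∀ s ∈ S, ∀ s' ∈ S, ∀ w w', w ∉ Z → s w = s' w' → s' = s ∧ ∀ z, s (z + (w' - w)) = s z

/-- the range of a nonconstant entire function is dense -/
theorem dense_entire {φ : ℂ → ℂ} (hφ : Differentiable ℂ φ) (hn : NC φ) : DenseRange φ := by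
  intro a
  by_contra hcon
  obtain ⟨r, hr, hball⟩ : ∃ r : ℝ, 0 < r ∧ ∀ z, r ≤ ‖φ z - a‖ := by
    have h1 : (closure (range φ))ᶜ ∈ 𝓝 a := isClosed_closure.isOpen_compl.mem_nhds hcon
    obtain ⟨r, hr, h2⟩ := Metric.mem_nhds_iff.1 h1
    refine ⟨r, hr, fun z => ?_⟩
    by_contra h3
    push Not at h3
    exact h2 (by rwa [mem_ball, dist_eq_norm]) (subset_closure ⟨z, rfl⟩)
  have hne : ∀ z, φ z - a ≠ 0 := fun z h => by
    have := hball z
    rw [h, norm_zero] at this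
    linarith
  have hd : Differentiable ℂ fun z => (φ z - a)⁻¹ := (hφ.sub_const a).inv hne
  have hb : Bornology.IsBounded (range fun z => (φ z - a)⁻¹) := by
    rw [isBounded_iff_forall_norm_le]
    refine ⟨r⁻¹, ?_⟩
    rintro _ ⟨z, rfl⟩
    rw [norm_inv]
    exact inv_anti₀ hr (hball z)
  obtain ⟨z, z', hz⟩ := hn
  have h1 := hd.apply_eq_apply_of_bounded hb z z'
  apply hz
  have h2 := inv_injective h1
  exact sub_left_injective h2

section

variable {E : Type} [NormedAddCommGroup E] [NormedSpace ℂ E] [FiniteDimensional ℂ E] {M : Type}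
  [MetricSpace M] [CompactSpace M] [ChartedSpace E M] [IsManifold 𝓘(ℂ, E) 1 M]

/-- if `s ∘ φ` has values in the closed set `X`, so has `s` -/
theorem mem_of_comp {X : Set M} (hX : IsClosed X) {s : ℂ → M} (hs : Continuous s) {φ : ℂ → ℂ}
    (hφ : Differentiable ℂ φ) (hn : NC φ) (h : ∀ z, s (φ z) ∈ X) (z : ℂ) : s z ∈ X := by
  have h1 : IsClosed (s ⁻¹' X) := hX.preimage hs
  have h2 : closure (range φ) ⊆ s ⁻¹' X := h1.closure_subset_iff.2 (by
    rintro _ ⟨w, rfl⟩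
    exact h w)
  exact h2 (dense_entire hφ hn z)

theorem closed_vals {X : Set M} (hX : IsClosed X) : IsClosed {f : C(ℂ, M) | ∀ z, f z ∈ X} := by
  have : {f : C(ℂ, M) | ∀ z, f z ∈ X} = ⋂ z : ℂ, {f : C(ℂ, M) | f z ∈ X} := by
    ext f
    simp
  rw [this]
  exact isClosed_iInter fun z => hX.preimage (ContinuousEvalConst.continuous_eval_const _)

open Nn in
theorem n1 {X : Set M} (hA : S_A2 E M) {S : Set (ℂ → M)} {Z : Set ℂ} (hS : Cou E M X S Z) {s s' : ℂ → M}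
    (hs : s ∈ S) (hs' : s' ∈ S) {φ ψ : ℂ → ℂ} (hφ : Differentiable ℂ φ) (hn : NC φ)
    (hψ : Differentiable ℂ ψ) (h : ∀ z, s (φ z) = s' (ψ z)) :
    s' = s ∧ ∃ γ ∈ Per s, ∀ z, ψ z = φ z + γ := by
  obtain ⟨-, hZ, hol, -, huni⟩ := hS
  have hd := good_dense hφ hn hZ
  have hgood : ∀ z, φ z ∉ Z → s' = s ∧ (ψ z - φ z) ∈ Per s := by
    intro z hz
    have h1 := huni s hs s' hs' (φ z) (ψ z) hz (h z)
    exact ⟨h1.1, fun w => h1.2 w⟩
  obtain ⟨z₀, hz₀⟩ := hd.nonempty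
  refine ⟨(hgood z₀ hz₀).1, ψ z₀ - φ z₀, (hgood z₀ hz₀).2, ?_⟩
  -- the periods are discrete
  have hiso : ∀ᶠ γ in 𝓝[≠] (0 : ℂ), γ ∉ Per s := by
    by_contra hcon
    have h1 : ∃ᶠ z in 𝓝[≠] (0 : ℂ), s z = s 0 := by
      rw [Filter.Frequently]
      intro h2
      apply hcon
      filter_upwards [h2] with γ hγ hp
      apply hγ
      have h3 := hp 0
      rwa [zero_add] at h3
    have h2 := hA.2.1 s (hol s hs).1 0 h1
    obtain ⟨z, z', hz⟩ := (hol s hs).2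
    exact hz ((h2 z).trans (h2 z').symm)
  have hDc : Continuous (fun z => ψ z - φ z) := (hψ.sub hφ).continuous
  -- locally constant
  have hloc : ∀ᶠ z in 𝓝 z₀, ψ z - φ z = ψ z₀ - φ z₀ := by
    have h1 : ∀ᶠ γ in 𝓝 (0 : ℂ), γ ∈ Per s → γ = 0 := by
      have h2 := eventually_nhdsWithin_iff.mp hiso
      filter_upwards [h2] with γ hγ hp
      by_contra h0
      exact hγ h0 hp
    have h2 : Tendsto (fun z => (ψ z - φ z) - (ψ z₀ - φ z₀)) (𝓝 z₀) (𝓝 0) := by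
      have h3 := (hDc.tendsto z₀).sub_const (ψ z₀ - φ z₀)
      rwa [sub_self] at h3
    have h3 := h2.eventually h1
    obtain ⟨U, hU, hUo, hzU⟩ := _root_.eventually_nhds_iff.mp h3
    have h4 : ∀ z ∈ U, φ z ∉ Z → ψ z - φ z = ψ z₀ - φ z₀ := by
      intro z hz hzZ
      have h5 : (ψ z - φ z) - (ψ z₀ - φ z₀) ∈ Per s := by
        intro w
        have h6 := (hgood z hzZ).2
        have h7 := (hgood z₀ hz₀).2
        calc s (w + ((ψ z - φ z) - (ψ z₀ - φ z₀))) =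
            s (w + ((ψ z - φ z) - (ψ z₀ - φ z₀)) + (ψ z₀ - φ z₀)) := (h7 _).symm
          _ = s (w + (ψ z - φ z)) := by
              congr 1
              ring
          _ = s w := h6 w
      exact sub_eq_zero.mp (hU z hz h5)
    filter_upwards [hUo.mem_nhds hzU] with z hz
    have h5 : z ∈ closure (U ∩ {z | φ z ∉ Z}) := by
      exact hd.open_subset_closure_inter hUo hz
    have h6 : IsClosed {z | ψ z - φ z = ψ z₀ - φ z₀} := isClosed_eq hDc continuous_const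
    exact (h6.closure_subset_iff.mpr fun z hz => h4 z hz.1 hz.2) h5
  have h1 : AnalyticOnNhd ℂ (fun z => ψ z - φ z) univ := fun z _ => (hψ.sub hφ).analyticAt z
  have h2 := h1.eq_of_eventuallyEq (g := fun _ => ψ z₀ - φ z₀) (fun z _ => analyticAt_const) hloc
  intro z
  have h3 : ψ z - φ z = ψ z₀ - φ z₀ := congrFun h2 z
  rw [← h3]
  ring

open Nn in
/-- no rational curves -/
theorem n2 {X : Set M} (hX : IsClosed X) (hA : S_A2 E M) {S : Set (ℂ → M)} {Z : Set ℂ}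
    (hS : Cou E M X S Z) (u₁ u₂ : ℂ → M) (h₁ : Hol E u₁) (h₂ : Hol E u₂)
    (hv : ∀ z, u₁ (Complex.exp z) ∈ X)
    (h : ∀ z, u₁ (Complex.exp z) = u₂ (Complex.exp (-z))) : ¬ NC u₁ := by
  intro hn
  have hnexp : NC Complex.exp := ⟨0, 1, by
    rw [Complex.exp_zero]
    intro h
    have := congrArg (‖·‖) h
    simp only [norm_one, Complex.norm_exp, Complex.one_re] at this
    exact absurd this.symm (Real.one_lt_exp_iff.2 one_pos).ne'⟩
  have hv1 : ∀ z, u₁ z ∈ X := mem_of_comp hX h₁.continuous Complex.differentiable_exp hnexp hv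
  have hv2 : ∀ z, u₂ z ∈ X := mem_of_comp hX h₂.continuous Complex.differentiable_exp hnexp (by
    intro z
    have h3 := h (-z)
    rw [neg_neg] at h3
    rw [← h3]
    exact hv _)
  have hn2 : NC u₂ := by
    by_contra hcon
    have hc : ∀ z, u₂ z = u₂ 0 := by
      intro z
      by_contra h0
      exact hcon ⟨z, 0, h0⟩
    obtain ⟨z, z', hz⟩ := hn
    have h3 : ∀ z, u₁ (Complex.exp z) = u₂ 0 := fun z => (h z).trans (hc _)
    exact hz ((const_of h₁.continuous h3 z).trans (const_of h₁.continuous h3 z').symm)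
  obtain ⟨s₁, hs₁, φ₁, hφ₁, e₁⟩ := hS.2.2.2.1 u₁ h₁ hv1 hn
  obtain ⟨s₂, hs₂, φ₂, hφ₂, e₂⟩ := hS.2.2.2.1 u₂ h₂ hv2 hn2
  have hnφ : ¬ ∀ z, φ₁ z = φ₁ 0 := by
    intro h0
    obtain ⟨z, z', hz⟩ := hn
    apply hz
    rw [e₁, e₁, h0 z, h0 z']
  have hn1 : NC (fun z => φ₁ (Complex.exp z)) := by
    by_contra hcon
    have hc : ∀ z, φ₁ (Complex.exp z) = φ₁ (Complex.exp 0) := by
      intro z
      by_contra h0
      exact hcon ⟨z, 0, h0⟩
    apply hnφ
    intro z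
    rw [const_of hφ₁.continuous hc z, const_of hφ₁.continuous hc 0]
  obtain ⟨-, γ, -, hγ⟩ := n1 hA hS hs₁ hs₂ (φ := fun z => φ₁ (Complex.exp z))
    (ψ := fun z => φ₂ (Complex.exp (-z))) (hφ₁.comp Complex.differentiable_exp) hn1
    (hφ₂.comp (Complex.differentiable_exp.comp differentiable_neg))
    (fun z => by
      rw [← e₁, ← e₂]
      exact h z)
  -- `φ₁` is bounded
  obtain ⟨B₁, hB₁⟩ := (isCompact_closedBall (0 : ℂ) 1).exists_bound_of_continuousOn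
    hφ₁.continuous.continuousOn
  obtain ⟨B₂, hB₂⟩ := (isCompact_closedBall (0 : ℂ) 1).exists_bound_of_continuousOn
    hφ₂.continuous.continuousOn
  have hb : Bornology.IsBounded (range φ₁) := by
    rw [isBounded_iff_forall_norm_le]
    refine ⟨max B₁ (B₂ + ‖γ‖), ?_⟩
    rintro _ ⟨x, rfl⟩
    by_cases hx : ‖x‖ ≤ 1
    · exact (hB₁ x (by simpa using hx)).trans (le_max_left _ _)
    · push Not at hx
      have hx0 : x ≠ 0 := by
        rintro rfl
        simp at hx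
        linarith
      have h3 := hγ (Complex.log x)
      simp only [Complex.exp_neg, Complex.exp_log hx0] at h3
      have h4 : φ₁ x = φ₂ x⁻¹ - γ := by
        rw [h3]
        ring
      rw [h4]
      refine le_trans ?_ (le_max_right _ _)
      refine (norm_sub_le _ _).trans ?_
      have h5 := hB₂ x⁻¹ (by
        rw [mem_closedBall, dist_zero_right, norm_inv]
        exact inv_le_one_of_one_le₀ hx.le)
      linarith
  exact hnφ fun z => hφ₁.apply_eq_apply_of_bounded hb z 0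

/-- Stage 1: a curve of the countable set whose rescaled limits are centred near its periods. -/
theorem stage1 {X : Set M} (hX : IsClosed X) (hA2 : S_A2 E M) {η : ℝ} (hη : 0 < η)
    (hK : IsCompact (K1 E M η) ∧ ∀ W : Set C(ℂ, M), W ⊆ HolSet E M → IsClosed W → Inv Aff W →
      (∃ f ∈ W, NC f) → (W ∩ K1 E M η).Nonempty)
    (hE1 : S_E1) (hE2 : S_E2) (hC3 : S_C3) (hC1 : S_C1) (hC2 : S_C2)
    {S : Set (ℂ → M)} {Z : Set ℂ} (hS : Cou E M X S Z) (f₀ : ℂ → M) (hf₀ : Hol E f₀)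
    (hv₀ : ∀ z, f₀ z ∈ X) (hn₀ : NC f₀) :
    ∃ s : C(ℂ, M), (s : ℂ → M) ∈ S ∧ Hol E s ∧ NC s ∧ (∀ z, s z ∈ X) ∧ Cen M s := by
  obtain ⟨hSc, hZc, hSH, hex, h2⟩ := hS
  obtain ⟨W, hWV, hWcl, hWinv, hWnc, hWmin⟩ := hE1 M Aff id_mem_Aff Aff_comp
    (HolSet E M ∩ {f : C(ℂ, M) | ∀ z, f z ∈ X})
    (K1 E M η) (hA2.1.inter (closed_vals hX)) (by
      intro f hf A hA
      exact ⟨inv_HolSet f hf.1 A hA, fun z => hf.2 _⟩) ⟨⟨f₀, hf₀.cont⟩, ⟨hf₀, hv₀⟩, hn₀⟩ hK.1 (by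
      rintro f ⟨-, -, z, -, hz⟩
      refine ⟨z, 0, fun h => ?_⟩
      rw [h, dist_self] at hz
      exact absurd hz (not_le.2 hη)) (fun W h1 => hK.2 W (h1.trans inter_subset_left))
  have hW0 : W ⊆ HolSet E M := hWV.trans inter_subset_left
  obtain ⟨s₀, hs₀, j, U, hU, ⟨h, hhU, hhW⟩, hUW⟩ := hE2 M Aff W Aff_surj
    ⟨hWcl, hWinv, hWnc, hWmin⟩ S hSc (fun s hs => (hSH s hs).1.cont) (by
      intro g hg hgn
      obtain ⟨s, hs, φ, -, he⟩ := hex g (hW0 hg) (hWV hg).2 hgn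
      exact ⟨s, hs, φ 0, (he 0).symm⟩)
  obtain ⟨hs₀H, hs₀N⟩ := hSH s₀ hs₀
  obtain ⟨s, rfl⟩ : ∃ s : C(ℂ, M), (s : ℂ → M) = s₀ := ⟨⟨s₀, hs₀H.cont⟩, rfl⟩
  have hhn : NC h := (hUW h hhU hhW).1
  obtain ⟨s', hs', φ, hφ, he⟩ := hex h (hW0 hhW) (hWV hhW).2 hhn
  have hφn : NC φ := by
    obtain ⟨z, z', hz⟩ := hhn
    exact ⟨z, z', fun h' => hz (by rw [he, he, h'])⟩
  have hss : s' = s := by
    obtain ⟨V, hV, r, hr, hVr⟩ := near_open h U hU hhU
    refine (hit hZc h2 hs₀ hs' hφ hφn hr (j := j) ?_).1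
    intro b hb
    have h3 := (hUW _ (hVr h (mem_of_mem_nhds hV) b hb)
      (hWinv _ hhW _ (Tra_sub_Aff ⟨b, rfl⟩))).2
    rw [← he b]
    simpa using h3
  subst hss
  refine ⟨s, hs₀, hs₀H, hs₀N, mem_of_comp hX hs₀H.cont hφ hφn (fun z => by
    rw [← he]; exact (hWV hhW).2 z), ?_⟩
  intro w ρ hρ g hg hgn
  obtain ⟨a, b, F, Ψ, ha, hF, hΨ, hΨn, hFΨ⟩ := hC3 hC1 hC2 ⟨φ, hφ.continuous⟩ hφ hφn w ρ hρ
  have hgH : Hol E g := by
    have : g ∈ HolSet E M := hA2.1.mem_of_tendsto hg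
      (Eventually.of_forall fun k => Hol.comp_aff hs₀H _ _)
    exact this
  have h4 : ∀ k, h.comp (aff (a k) (b k)) = (s.comp (aff (ρ k) (w k))).comp (F k) := by
    intro k
    ext z
    simp only [ContinuousMap.comp_apply, aff_apply]
    rw [he, show φ (a k * z + b k) = w k + ρ k * F k z from hF k z]
    congr 1
    ring
  have h5 : Tendsto (fun k => h.comp (aff (a k) (b k))) (hyperfilter ℕ) (𝓝 (g.comp Ψ)) := by
    simp only [h4]
    exact hg.compCM hFΨ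
  have h6 : g.comp Ψ ∈ W := hWcl.mem_of_tendsto h5
    (Eventually.of_forall fun k => hWinv _ hhW _ ⟨a k, b k, ha k, rfl⟩)
  have h7 : NC (g.comp Ψ) := NC.comp_entire (hA2.2.1 g hgH) hgn hΨ hΨn
  obtain ⟨_, hxU, A, hA, rfl⟩ : ∃ x, x ∈ U ∧ x ∈ {h | ∃ A ∈ Aff, h = (g.comp Ψ).comp A} := by
    have := hWmin _ h6 h7 hhW
    obtain ⟨x, hx1, hx2⟩ := mem_closure_iff.1 this U hU hhU
    exact ⟨x, hx1, hx2⟩
  obtain ⟨α, β, hα, rfl⟩ := hA
  obtain ⟨V, hV, r, hr, hVr⟩ := near_open _ U hU hxU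
  have h8 : ∀ᶠ k in (hyperfilter ℕ : Filter ℕ), (h.comp (aff (a k) (b k))).comp (aff α β) ∈ V :=
    (h5.compCM tendsto_const_nhds) hV
  -- boundedness of `F k`
  obtain ⟨B, hB0, hB⟩ : ∃ B : ℝ, 0 ≤ B ∧ ∀ᶠ k in (hyperfilter ℕ : Filter ℕ),
      ∀ z, ‖z‖ ≤ ‖α‖ * r + ‖β‖ → ‖F k z‖ ≤ B := by
    have hc : IsCompact (closedBall (0 : ℂ) (‖α‖ * r + ‖β‖)) := isCompact_closedBall _ _
    obtain ⟨B, hB⟩ := hc.exists_bound_of_continuousOn Ψ.continuous.continuousOn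
    have hu := ContinuousMap.tendsto_iff_forall_isCompact_tendstoUniformlyOn.1 hFΨ _ hc
    rw [Metric.tendstoUniformlyOn_iff] at hu
    refine ⟨|B| + 1, by positivity, ?_⟩
    filter_upwards [hu 1 one_pos] with k hk z hz
    have h9 := hk z (by simpa using hz)
    have h10 := hB z (by simpa using hz)
    rw [dist_eq_norm] at h9
    have h11 : ‖F k z‖ ≤ ‖Ψ z‖ + ‖Ψ z - F k z‖ := by
      have : F k z = Ψ z - (Ψ z - F k z) := by ring
      calc ‖F k z‖ = ‖Ψ z - (Ψ z - F k z)‖ := by rw [← this]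
        _ ≤ _ := norm_sub_le _ _
    have := le_abs_self B
    linarith
  refine ⟨B + j, ?_⟩
  filter_upwards [h8, hB] with k hk hBk
  -- the entire function to which `hit` is applied
  have hd : Differentiable ℂ fun z => φ (a k * (α * z + β) + b k) :=
    hφ.comp (by fun_prop)
  have hn : NC fun z => φ (a k * (α * z + β) + b k) := by
    obtain ⟨z, z', hz⟩ := hφn
    refine ⟨((z - b k) / a k - β) / α, ((z' - b k) / a k - β) / α, ?_⟩
    have hak := ha k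
    have e1 : ∀ x : ℂ, a k * (α * (((x - b k) / a k - β) / α) + β) + b k = x := by
      intro x
      field_simp
      ring
    simp only [e1]
    exact hz
  obtain ⟨-, b', hb', γ, hγ, hγ'⟩ := hit (s := s) (s' := s) hZc h2 hs₀ hs₀ hd hn hr (j := j) (by
    intro b' hb'
    have h9 := (hUW _ (hVr _ hk b' hb') (hWinv _ (hWinv _ (hWinv _ hhW _ ⟨a k, b k, ha k, rfl⟩) _
      ⟨α, β, hα, rfl⟩) _ (Tra_sub_Aff ⟨b', rfl⟩))).2
    rw [← he]
    simpa using h9)
  have h10 : φ (a k * (α * b' + β) + b k) = w k + ρ k * F k (α * b' + β) := hF k _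
  rw [h10] at hγ'
  have h11 : ‖F k (α * b' + β)‖ ≤ B := by
    apply hBk
    refine (norm_add_le _ _).trans ?_
    rw [norm_mul]
    have : ‖b'‖ ≤ r := by
      have := mem_ball_zero_iff.1 hb'
      exact this.le
    gcongr
  have h12 : infDist (w k) (Per s) ≤ dist (w k) γ := infDist_le_dist_of_mem hγ
  have h13 : dist (w k) γ ≤ j + ρ k * B := by
    rw [dist_eq_norm]
    have e : w k - γ = (w k + ρ k * F k (α * b' + β) - γ) - ρ k * F k (α * b' + β) := by ring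
    rw [e]
    refine (norm_sub_le _ _).trans (add_le_add hγ' ?_)
    rw [norm_mul, Complex.norm_real, Real.norm_eq_abs, abs_of_pos (hρ k)]
    exact mul_le_mul_of_nonneg_left h11 (hρ k).le
  have hj : (0 : ℝ) ≤ j := Nat.cast_nonneg j
  have h14 := (hρ k).le
  nlinarith [mul_nonneg hj h14]

/-- Stage 2, minimal sets. -/
theorem stage2a {X : Set M} (hX : IsClosed X) (hcl : IsClosed (HolSet E M)) {η c : ℝ} (hη : 0 < η) (hc : 0 < c)
    (hSch : Sch E M η) (hCmp : Cmp E M η) (hD1 : S_D1 E M) (hE1 : S_E1)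
    (T : C(ℂ, M)) (hT : T ∈ W2 E M η c) (hTX : ∀ z, T z ∈ X) (hTn : NC T) :
    ∃ W, W ⊆ W2 E M η c ∩ {f : C(ℂ, M) | ∀ z, f z ∈ X} ∧ Minimal' Tra W := by
  obtain ⟨δ, hδ, hδ1⟩ := hD1 η hη
  refine hE1 M Tra id_mem_Tra Tra_comp (W2 E M η c ∩ {f : C(ℂ, M) | ∀ z, f z ∈ X})
    (W2 E M η c ∩ K2 δ) ((W2_closed hcl η c).inter (closed_vals hX))
    (fun f hf A hA => ⟨W2_inv η c f hf.1 A hA, fun z => hf.2 _⟩) ⟨T, ⟨hT, hTX⟩, hTn⟩ ((W2_compact hcl hc hCmp).inter_right (K2_closed δ))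
    (fun f hf => K2_NC hδ hf.2) ?_
  rintro W hW' hWcl hWinv ⟨f, hf, hfn⟩
  have hW : W ⊆ W2 E M η c := hW'.trans inter_subset_left
  obtain ⟨hfH, hfp, hfc⟩ := hW hf
  have h1 : ∃ z z' : ℂ, z.re = z'.re ∧ δ ≤ dist (f z) (f z') := by
    by_contra hcon
    push Not at hcon
    have h2 : ∀ z, dist (f z) (f 0) ≤ η := by
      intro z
      refine hδ1 f (-(|z.re| + 1)) (|z.re| + 1) hfH.mdifferentiableOn hfp
        (fun w w' hw _ _ => (hcon w w' hw).le) z 0 ?_ ?_ ?_ ?_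
      · have := neg_abs_le z.re
        linarith
      · have := le_abs_self z.re
        linarith
      · rw [Complex.zero_re]
        have := abs_nonneg z.re
        linarith
      · rw [Complex.zero_re]
        have := abs_nonneg z.re
        linarith
    obtain ⟨z, z', hz⟩ := hfn
    exact hz (liouville hSch f hfH h2 z z')
  obtain ⟨z, z', hz, hd⟩ := h1
  have h3 : f.comp (aff 1 (z.re : ℂ)) ∈ W := hWinv _ hf _ ⟨_, rfl⟩
  exact ⟨_, h3, hW h3, mem_K2 hfp hz hd⟩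

/-- Stage 2: a nonconstant periodic Brody curve gives a doubly periodic curve. -/
theorem stage2 {X : Set M} (hX : IsClosed X) (hA2 : S_A2 E M) {η c : ℝ} (hη : 0 < η) (hc : 0 < c)
    (hSch : Sch E M η) (hCmp : Cmp E M η) (hD1 : S_D1 E M) (hD2 : S_D2 E M) (hE1 : S_E1)
    (hE2 : S_E2) (hC1 : S_C1) (hC2 : S_C2) (hH : S_H) (hL : S_L E M) (hF : S_F)
    {S : Set (ℂ → M)} {Z : Set ℂ} (hS : Cou E M X S Z)
    (T : C(ℂ, M)) (hT : T ∈ W2 E M η c) (hTX : ∀ z, T z ∈ X) (hTn : NC T) :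
    ∃ s ∈ S, (∀ z, s z ∈ X) ∧ ∃ ω₁ ω₂ : ℂ, LinearIndependent ℝ ![ω₁, ω₂] ∧ ω₁ ∈ Per s ∧ ω₂ ∈ Per s := by
  obtain ⟨W, hWV, hmin⟩ := stage2a hX hA2.1 hη hc hSch hCmp hD1 hE1 T hT hTX hTn
  have hW : W ⊆ W2 E M η c := hWV.trans inter_subset_left
  have hS' := hS
  obtain ⟨hSc, hZc, hSH, hex, h2⟩ := hS'
  obtain ⟨t₀, ht₀, j, U, hU, ⟨f, hfU, hfW⟩, hUW⟩ := hE2 M Tra W Tra_surj hmin S hSc
    (fun s hs => (hSH s hs).1.cont) (by
      intro g hg hgn
      obtain ⟨s, hs, φ, -, he⟩ := hex g (hW hg).1 (hWV hg).2 hgn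
      exact ⟨s, hs, φ 0, (he 0).symm⟩)
  obtain ⟨ht₀H, ht₀N⟩ := hSH t₀ ht₀
  obtain ⟨t, rfl⟩ : ∃ t : C(ℂ, M), (t : ℂ → M) = t₀ := ⟨⟨t₀, ht₀H.cont⟩, rfl⟩
  obtain ⟨hfH, hfp, hfc⟩ := hW hfW
  have hfn : NC f := (hUW f hfU hfW).1
  obtain ⟨s', hs', φ, hφ, he⟩ := hex f hfH (hWV hfW).2 hfn
  have hφn : NC φ := by
    obtain ⟨z, z', hz⟩ := hfn
    exact ⟨z, z', fun h' => hz (by rw [he, he, h'])⟩
  obtain ⟨V, hV, r, hr, hVr⟩ := near_open f U hU hfU
  have hWinv := hmin.2.1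
  have hss : s' = t := by
    refine (hit hZc h2 ht₀ hs' hφ hφn hr (j := j) ?_).1
    intro b hb
    have h3 := (hUW _ (hVr f (mem_of_mem_nhds hV) b hb) (hWinv _ hfW _ ⟨b, rfl⟩)).2
    rw [← he b]
    simpa using h3
  subst hss
  rcases stage2b hA2.1 hc hCmp hW hmin f hfW with hcalm | ⟨u, hu1, hu2⟩
  · -- calm ends: a rational curve
    exfalso
    obtain ⟨u₁, u₂, hu₁, hu₂, he1, he2⟩ := hD2 hD1 hA2 f hfH hfp hcalm
    refine n2 hX hA2 hS u₁ u₂ hu₁ hu₂ (fun z => by rw [he1]; exact (hWV hfW).2 z)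
      (fun z => (he1 z).trans (he2 z).symm) ?_
    obtain ⟨z, z', hz⟩ := hfn
    exact ⟨Complex.exp z, Complex.exp z', by rwa [he1, he1]⟩
  · -- the lifts of the translates
    have hev : ∀ᶠ b in (u : Filter ℂ), ∃ γ ∈ Per t, ∃ z, ‖z‖ ≤ r ∧ ‖φ (z + b) - γ‖ ≤ j := by
      filter_upwards [hu2 hV] with b hb
      have hd : Differentiable ℂ fun z => φ (z + b) := hφ.comp (by fun_prop)
      have hn : NC fun z => φ (z + b) := by
        obtain ⟨z, z', hz⟩ := hφn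
        exact ⟨z - b, z' - b, by simpa using hz⟩
      obtain ⟨-, b', hb', γ, hγ, hγ'⟩ := hit (s := t) (s' := t) hZc h2 ht₀ ht₀ hd hn hr (j := j) (by
        intro b' hb'
        have h9 := (hUW _ (hVr _ hb b' hb') (hWinv _ (hWinv _ hfW _ ⟨b, rfl⟩) _ ⟨b', rfl⟩)).2
        rw [← he]
        simpa using h9)
      exact ⟨γ, hγ, b', (mem_ball_zero_iff.1 hb').le, hγ'⟩
    have hγex : ∀ b : ℂ, ∃ γ ∈ Per t, (∃ γ' ∈ Per t, ∃ z, ‖z‖ ≤ r ∧ ‖φ (z + b) - γ'‖ ≤ j) →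
        ∃ z, ‖z‖ ≤ r ∧ ‖φ (z + b) - γ‖ ≤ j := by
      intro b
      by_cases h : ∃ γ' ∈ Per t, ∃ z, ‖z‖ ≤ r ∧ ‖φ (z + b) - γ'‖ ≤ j
      · obtain ⟨γ, hγ, h'⟩ := h
        exact ⟨γ, hγ, fun _ => h'⟩
      · exact ⟨0, fun z => by rw [add_zero], fun h' => absurd h' h⟩
    choose γ hγ hγ' using hγex
    -- the lifts
    let ψ : ℂ → C(ℂ, ℂ) := fun b => ⟨fun z => φ (z + b) - γ b, by
      have := hφ.continuous
      fun_prop⟩
    have hψ : ∀ b z, ψ b z = φ (z + b) - γ b := fun b z => rfl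
    have hψd : ∀ b, Differentiable ℂ (ψ b) := fun b =>
      (hφ.comp (by fun_prop : Differentiable ℂ fun z => z + b)).sub_const _
    have hψt : ∀ b z, t (ψ b z) = f (z + b) := by
      intro b z
      have h3 : t (φ (z + b) + -γ b) = t (φ (z + b)) := Per_neg (hγ b) _
      rw [hψ, sub_eq_add_neg, h3, he]
    have hbd : ∀ R : ℝ, ∃ B : ℝ, ∀ᶠ b in (u : Filter ℂ), ∀ z, ‖z‖ ≤ R → ‖ψ b z‖ ≤ B := by
      intro R
      obtain ⟨B, hB⟩ := hL hC1 hH η hη hSch t ht₀H ht₀N (hA2.2.1 t ht₀H) c hc j (max R r)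
        (lt_max_of_lt_right hr)
      refine ⟨B, ?_⟩
      filter_upwards [hev] with b hb z hz
      obtain ⟨z', hz', hz''⟩ := hγ' b hb
      refine hB (ψ b) (hψd b) ?_ ⟨z', hz'.trans (le_max_right _ _), hz''⟩ z
        (hz.trans (le_max_left _ _))
      intro x y hy
      simp only [hψt]
      refine hfc (x + b) (y + b) ?_
      rw [mem_ball] at hy ⊢
      simpa using hy
    obtain ⟨Ψ, hΨ, hΨt⟩ := hC2 ℂ u ψ hψd hbd
    -- the limit is a lift of `f`
    have h4 : t.comp Ψ = f := by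
      have h5 : Tendsto (fun b => t.comp (ψ b)) (u : Filter ℂ) (𝓝 (t.comp Ψ)) :=
        tendsto_const_nhds.compCM hΨt
      have h6 : (fun b => t.comp (ψ b)) = fun b : ℂ => f.comp (aff 1 b) := by
        funext b
        ext z
        simp only [ContinuousMap.comp_apply, aff_apply, one_mul]
        exact hψt b z
      rw [h6] at h5
      exact tendsto_nhds_unique h5 hu2
    obtain ⟨-, γ₀, hγ₀, hγ₀'⟩ := n1 hA2 hS ht₀ ht₀ hφ hφn hΨ (by
      intro z
      rw [← he, ← h4]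
      rfl)
    obtain ⟨-, ω, hω, hω'⟩ := n1 (ψ := fun z => φ (z + 2 * Real.pi * Complex.I)) hA2 hS ht₀ ht₀ hφ hφn
      (hφ.comp (by fun_prop)) (by
      intro z
      rw [← he, ← he, hfp])
    have hpi : (2 * Real.pi * Complex.I : ℂ) ≠ 0 := Complex.two_pi_I_ne_zero
    -- the periodic part
    let g : C(ℂ, ℂ) := ⟨fun z => φ z - ω * z / (2 * Real.pi * Complex.I), by
      have := hφ.continuous
      fun_prop⟩
    have hg : ∀ z, g z = φ z - ω * z / (2 * Real.pi * Complex.I) := fun z => rfl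
    have hgd : Differentiable ℂ g := hφ.sub (by fun_prop)
    have hgp : ∀ z, g (z + 2 * Real.pi * Complex.I) = g z := by
      intro z
      have h5 : φ (z + 2 * Real.pi * Complex.I) = φ z + ω := hω' z
      rw [hg, hg, h5]
      field_simp
      ring
    have hgc := hF g hgd hgp ℂ u (fun b => b)
      (fun b => ω * b / (2 * Real.pi * Complex.I) - γ b - γ₀) hu1 (by
      have h5 : (fun b : ℂ => g.comp (aff 1 b) +
          ContinuousMap.const ℂ (ω * b / (2 * Real.pi * Complex.I) - γ b - γ₀)) =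
          fun b => ψ b + (g - Ψ) := by
        funext b
        ext z
        simp only [ContinuousMap.add_apply, ContinuousMap.sub_apply, ContinuousMap.comp_apply,
          aff_apply, one_mul, ContinuousMap.const_apply, hg, hψ]
        rw [hγ₀' z]
        field_simp
        ring
      rw [h5]
      have h6 : Tendsto (fun b => ψ b + (g - Ψ)) (u : Filter ℂ) (𝓝 (Ψ + (g - Ψ))) :=
        hΨt.add tendsto_const_nhds
      have h7 : Ψ + (g - Ψ) = g := by abel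
      rwa [h7] at h6)
    have hgc' : ∀ z, φ z = ω * z / (2 * Real.pi * Complex.I) + φ 0 := by
      intro z
      have h5 : g z = g 0 := by
        by_contra h
        exact hgc ⟨z, 0, h⟩
      rw [hg, hg, mul_zero, zero_div, sub_zero] at h5
      rw [← h5]
      ring
    have hω0 : ω ≠ 0 := by
      rintro rfl
      obtain ⟨z, z', hz⟩ := hφn
      apply hz
      rw [hgc' z, hgc' z']
      simp
    -- the second period
    have h8 : Tendsto (fun b => ψ b 0) (u : Filter ℂ) (𝓝 (Ψ 0)) :=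
      ((ContinuousEvalConst.continuous_eval_const (0 : ℂ)).tendsto Ψ).comp hΨt
    have h9 : ∀ᶠ b in (u : Filter ℂ), ‖ψ b 0 - Ψ 0‖ < 1 := by
      have := Metric.tendsto_nhds.1 h8 1 one_pos
      simpa [dist_eq_norm] using this
    have h10 : ∀ᶠ b in (u : Filter ℂ),
        (‖Ψ 0‖ + ‖φ 0‖ + 1) / ‖ω‖ * (2 * Real.pi) < |b.re| :=
      hu1.eventually_gt_atTop _
    obtain ⟨b, hb1, hb2⟩ := (h9.and h10).exists
    refine ⟨t, ht₀, mem_of_comp hX ht₀H.cont hφ hφn (fun z => by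
      rw [← he]; exact (hWV hfW).2 z), ω, γ b, ?_, hω, hγ b⟩
    rw [LinearIndependent.pair_iff' hω0]
    intro a ha
    have h11 : ‖ω * b / (2 * Real.pi * Complex.I) - γ b‖ ≤ ‖Ψ 0‖ + ‖φ 0‖ + 1 := by
      have e : ω * b / (2 * Real.pi * Complex.I) - γ b = (ψ b 0 - Ψ 0) + Ψ 0 - φ 0 := by
        rw [hψ, zero_add, hgc' b]
        ring
      rw [e]
      have n1 := norm_sub_le ((ψ b 0 - Ψ 0) + Ψ 0) (φ 0)
      have n2 := norm_add_le (ψ b 0 - Ψ 0) (Ψ 0)
      linarith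
    have h12 : ω * b / (2 * Real.pi * Complex.I) - γ b =
        ω * (b / (2 * Real.pi * Complex.I) - a) := by
      rw [← ha, Complex.real_smul]
      ring
    rw [h12, norm_mul] at h11
    have h13 : |b.re| / (2 * Real.pi) ≤ ‖b / (2 * Real.pi * Complex.I) - a‖ := by
      refine le_trans ?_ (Complex.abs_im_le_norm _)
      have e : (b / (2 * Real.pi * Complex.I) - a : ℂ).im = -(b.re / (2 * Real.pi)) := by
        have e1 : b / (2 * Real.pi * Complex.I) = ((1 / (2 * Real.pi) : ℝ) : ℂ) * (b * -Complex.I) := by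
          have : (Real.pi : ℂ) ≠ 0 := Complex.ofReal_ne_zero.2 Real.pi_ne_zero
          push_cast
          field_simp
          rw [Complex.I_sq]
          ring
        rw [e1]
        simp
        ring
      rw [e, abs_neg, abs_div, abs_of_pos Real.two_pi_pos]
    have hωpos : 0 < ‖ω‖ := norm_pos_iff.2 hω0
    have h14 : ‖ω‖ * (|b.re| / (2 * Real.pi)) ≤ ‖Ψ 0‖ + ‖φ 0‖ + 1 :=
      (mul_le_mul_of_nonneg_left h13 hωpos.le).trans h11
    have h15 : (‖Ψ 0‖ + ‖φ 0‖ + 1) / ‖ω‖ < |b.re| / (2 * Real.pi) := by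
      rw [lt_div_iff₀ Real.two_pi_pos]
      exact hb2
    rw [div_lt_iff₀ hωpos] at h15
    linarith

end

end X

end Pool.Agent.K4H47.BR
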