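import Pool.Agent.K4H47.BR.Asm
import Pool.Agent.K4H47.BR.XStage
import Pool.Agent.K4H47.BR.Exp

set_option autoImplicit false
set_option linter.unusedSectionVars false

open Filter Topology Metric Set
open scoped Manifold

namespace Pool.Agent.K4H47.BR

namespace X

section

variable {E : Type} [NormedAddCommGroup E] [NormedSpace ℂ E] [FiniteDimensional ℂ E] {M : Type}
  [MetricSpace M] [CompactSpace M] [ChartedSpace E M] [IsManifold 𝓘(ℂ, E) 1 M]

theorem g2' {η : ℝ} (hη : 0 < η) (s : C(ℂ, M)) (hs : Hol E s) (hnc : NC s)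
    (h : ∃ c C : ℝ, 0 < c ∧ 0 < C ∧
    (∀ w : ℂ, C ≤ infDist w (Per s) → Near η s w (c * infDist w (Per s)))) :
    ∃ T : C(ℂ, M), Hol E T ∧ NC T ∧ (∀ z, ∃ w, T z = s w) ∧
      (∀ z, T (z + 2 * Real.pi * Complex.I) = T z) ∧ ∃ c : ℝ, 0 < c ∧ ∀ z, Near η T z c := by
  obtain ⟨c, C, hc, hC, hfar⟩ := h
  obtain ⟨r, hr, hnear⟩ := near_uniform hη s hc hC hfar
  by_cases hper : ∃ ω ∈ Per s, ω ≠ 0
  · obtain ⟨ω, hω, hω0⟩ := hper
    have hpi : (2 * Real.pi * Complex.I : ℂ) ≠ 0 := Complex.two_pi_I_ne_zero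
    set a : ℂ := ω / (2 * Real.pi * Complex.I) with ha
    have ha0 : a ≠ 0 := div_ne_zero hω0 hpi
    refine ⟨s.comp (aff a 0), ?_, ?_, fun z => ⟨_, rfl⟩, ?_, r / ‖a‖, by positivity, ?_⟩
    · have h1 : MDifferentiable 𝓘(ℂ, ℂ) 𝓘(ℂ, ℂ) (fun z : ℂ => a * z + 0) := by
        apply Differentiable.mdifferentiable
        fun_prop
      exact hs.comp h1
    · obtain ⟨z, z', hzz⟩ := hnc
      refine ⟨z / a, z' / a, ?_⟩
      change s (a * (z / a) + 0) ≠ s (a * (z' / a) + 0)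
      rw [mul_div_cancel₀ _ ha0, mul_div_cancel₀ _ ha0, add_zero, add_zero]
      exact hzz
    · intro z
      change s (a * (z + 2 * Real.pi * Complex.I) + 0) = s (a * z + 0)
      have e : a * (z + 2 * Real.pi * Complex.I) + 0 = (a * z + 0) + ω := by
        have : a * (2 * Real.pi * Complex.I) = ω := by
          rw [ha]
          exact div_mul_cancel₀ _ hpi
        rw [mul_add, this]
        ring
      rw [e]
      exact hω _
    · intro w z hz
      change dist (s (a * z + 0)) (s (a * w + 0)) ≤ η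
      apply hnear
      rw [mem_ball, add_zero, add_zero, dist_eq_norm, ← mul_sub, norm_mul, ← dist_eq_norm]
      rw [mem_ball] at hz
      rwa [lt_div_iff₀ (norm_pos_iff.2 ha0), mul_comm] at hz
  · have hper' : ∀ γ ∈ Per s, γ = 0 := by
      intro γ hγ
      by_contra hne
      exact hper ⟨γ, hγ, hne⟩
    have hP : Per (s : ℂ → M) = {0} := by
      apply Set.Subset.antisymm
      · intro γ hγ
        exact hper' γ hγ
      · intro γ hγ
        rw [mem_singleton_iff] at hγ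
        rw [hγ]
        exact zero_mem_Per _
    have hinf : ∀ w : ℂ, infDist w (Per (s : ℂ → M)) = ‖w‖ := by
      intro w
      rw [hP, infDist_singleton, dist_zero_right]
    have hcont : ContinuousAt (fun h : ℂ => ‖Complex.exp h - 1‖) 0 := by fun_prop
    have h0 : ‖Complex.exp 0 - 1‖ < min c (r / C) := by
      rw [Complex.exp_zero, sub_self, norm_zero]
      exact lt_min hc (by positivity)
    obtain ⟨c₃, hc₃, hc₃'⟩ := Metric.eventually_nhds_iff.1 (hcont.eventually_lt_const h0)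
    refine ⟨s.comp ⟨Complex.exp, Complex.continuous_exp⟩, ?_, ?_, fun z => ⟨_, rfl⟩, ?_, c₃, hc₃, ?_⟩
    · have h1 : MDifferentiable 𝓘(ℂ, ℂ) 𝓘(ℂ, ℂ) Complex.exp :=
        Complex.differentiable_exp.mdifferentiable
      exact hs.comp h1
    · by_contra hcon
      have hall : ∀ z z' : ℂ, s (Complex.exp z) = s (Complex.exp z') := by
        intro z z'
        by_contra hne
        exact hcon ⟨z, z', hne⟩
      have hconst : (s : ℂ → M) = fun _ => s 1 := by
        apply Continuous.ext_on (dense_compl_singleton (0 : ℂ)) s.continuous continuous_const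
        intro w hw
        have hw0 : w ≠ 0 := hw
        have h1 := hall (Complex.log w) 0
        rw [Complex.exp_log hw0, Complex.exp_zero] at h1
        exact h1
      obtain ⟨z, z', hzz⟩ := hnc
      apply hzz
      rw [hconst]
    · intro z
      change s (Complex.exp (z + 2 * Real.pi * Complex.I)) = s (Complex.exp z)
      rw [Complex.exp_periodic z]
    · intro w z hz
      change dist (s (Complex.exp z)) (s (Complex.exp w)) ≤ η
      rw [mem_ball] at hz
      have hh : ‖Complex.exp (z - w) - 1‖ < min c (r / C) := by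
        apply hc₃'
        rw [dist_zero_right, ← dist_eq_norm]
        exact hz
      have hexp : ‖Complex.exp z - Complex.exp w‖ = ‖Complex.exp w‖ * ‖Complex.exp (z - w) - 1‖ := by
        rw [← norm_mul, mul_sub, mul_one, ← Complex.exp_add, add_sub_cancel]
      have hpos : 0 < ‖Complex.exp w‖ := norm_pos_iff.2 (Complex.exp_ne_zero w)
      rcases le_or_gt C ‖Complex.exp w‖ with hw | hw
      · have h1 := hfar (Complex.exp w) (by rw [hinf]; exact hw)
        rw [hinf] at h1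
        apply h1
        rw [mem_ball, dist_eq_norm, hexp, mul_comm c]
        exact mul_lt_mul_of_pos_left (lt_of_lt_of_le hh (min_le_left _ _)) hpos
      · apply hnear
        rw [mem_ball, dist_eq_norm, hexp]
        have h2 : ‖Complex.exp (z - w) - 1‖ < r / C := lt_of_lt_of_le hh (min_le_right _ _)
        calc ‖Complex.exp w‖ * ‖Complex.exp (z - w) - 1‖ < C * (r / C) :=
              mul_lt_mul'' hw h2 hpos.le (norm_nonneg _)
          _ = r := mul_div_cancel₀ _ hC.ne'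

end

/-- the theorem from the jobs -/
theorem main {E : Type} [NormedAddCommGroup E] [NormedSpace ℂ E] [FiniteDimensional ℂ E]
    {M : Type} [MetricSpace M] [CompactSpace M] [ChartedSpace E M] [IsManifold 𝓘(ℂ, E) 1 M]
    (J : Jobs E M) {X : Set M} (hX : IsClosed X) {S : Set (ℂ → M)} {Z : Set ℂ}
    (hS : Cou E M X S Z) (f₀ : ℂ → M) (hf₀ : Hol E f₀) (hv₀ : ∀ z, f₀ z ∈ X) (hn₀ : NC f₀) :
    ∃ s ∈ S, (∀ z, s z ∈ X) ∧ ∃ ω₁ ω₂ : ℂ, LinearIndependent ℝ ![ω₁, ω₂] ∧ ω₁ ∈ Per s ∧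
      ω₂ ∈ Per s := by
  obtain ⟨η, hη, hSch⟩ := J.a1
  have hCmp := J.a3 η hη hSch J.a2.1
  obtain ⟨s, -, hsH, hsN, hsX, hCen⟩ := stage1 hX J.a2 hη (J.k η hη hSch J.a2.1 hCmp J.r) J.e1
    J.e2 J.c3 J.c1 J.c2 hS f₀ hf₀ hv₀ hn₀
  -- the periodic Brody curve; its values are in `X` by the closedness of `X`
  have hsd := J.g η hη hSch hCmp J.r s hsH hsN hCen
  obtain ⟨T, hTH, hTN, hTs, hTp, c, hc, hTc⟩ := g2' (E := E) hη s hsH hsN hsd
  have hTX : ∀ z, T z ∈ X := by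
    intro z
    obtain ⟨w, hw⟩ := hTs z
    rw [hw]
    exact hsX w
  exact stage2 hX J.a2 hη hc hSch hCmp J.d1 J.d2 J.e1 J.e2 J.c1 J.c2 J.h J.l J.f hS T
    ⟨hTH, hTp, hTc⟩ hTX hTN

end X

/-- **Theorem.** -/
theorem finalX (E : Type) [NormedAddCommGroup E] [NormedSpace ℂ E] [FiniteDimensional ℂ E]
    (J : ∀ (M : Type) [MetricSpace M] [CompactSpace M] [ChartedSpace E M]
      [IsManifold 𝓘(ℂ, E) 1 M], Jobs E M)
    (M : Type) [TopologicalSpace M] [T2Space M] [CompactSpace M] [ChartedSpace E M]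
    [IsManifold 𝓘(ℂ, E) 1 M] (X : Set M) (hX : IsClosed X) (S : Set (ℂ → M)) (hS : S.Countable)
    (hS1 : ∀ s ∈ S, MDifferentiable 𝓘(ℂ, ℂ) 𝓘(ℂ, E) s ∧ ∃ z z', s z ≠ s z')
    (hS2 : ∀ s ∈ S, {w : ℂ | ∃ w', s w' = s w ∧ ¬ ∀ z, s (z + (w' - w)) = s z}.Countable)
    (hS3 : ∀ s ∈ S, ∀ s' ∈ S, s ≠ s' → (range s ∩ range s').Countable)
    (hS4 : ∀ f : ℂ → M, MDifferentiable 𝓘(ℂ, ℂ) 𝓘(ℂ, E) f → range f ⊆ X → (∃ z z', f z ≠ f z') →
      ∃ s ∈ S, ∃ φ : ℂ → ℂ, Differentiable ℂ φ ∧ f = s ∘ φ)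
    (f : ℂ → M) (hf : MDifferentiable 𝓘(ℂ, ℂ) 𝓘(ℂ, E) f) (hfX : range f ⊆ X)
    (hf' : ∃ z z', f z ≠ f z') :
    ∃ s ∈ S, range s ⊆ closure (range f) ∧ ∃ ω₁ ω₂ : ℂ, LinearIndependent ℝ ![ω₁, ω₂] ∧
      (∀ z, s (z + ω₁) = s z) ∧ ∀ z, s (z + ω₂) = s z := by
  have : ProperSpace E := FiniteDimensional.proper ℂ E
  have hsc : SecondCountableTopology M := ChartedSpace.secondCountable_of_sigmaCompact E M
  have hmet : TopologicalSpace.MetrizableSpace M := inferInstance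
  letI : MetricSpace M := TopologicalSpace.metrizableSpaceMetric M
  have JM := J M
  have hcl : closure (range f) ⊆ X := hX.closure_subset_iff.2 hfX
  have hZ : ∃ Z : Set ℂ, Pool.Agent.K4H47.BR.X.Cou E M (closure (range f)) S Z := by
    refine ⟨(⋃ s ∈ S, {w : ℂ | ∃ w', s w' = s w ∧ ¬ ∀ z, s (z + (w' - w)) = s z}) ∪
      ⋃ s ∈ S, ⋃ s' ∈ S, ⋃ (_ : s ≠ s'), ⋃ p ∈ range s ∩ range s', s ⁻¹' {p}, hS, ?_, hS1, ?_, ?_⟩
    · refine (hS.biUnion hS2).union (hS.biUnion fun s hs => hS.biUnion fun s' hs' => ?_)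
      refine Set.countable_iUnion fun hne => ?_
      exact (hS3 s hs s' hs' hne).biUnion fun p _ =>
        fibre_countable (E := E) JM.a2.2.1 (hS1 s hs).1 (hS1 s hs).2 p
    · intro g hg hgX hgn
      obtain ⟨s, hs, φ, hφ, rfl⟩ := hS4 g hg (by
        rintro _ ⟨z, rfl⟩
        exact hcl (hgX z)) hgn
      exact ⟨s, hs, φ, hφ, fun z => rfl⟩
    · intro s hs s' hs' w w' hw he
      rw [mem_union, not_or] at hw
      obtain ⟨hw1, hw2⟩ := hw
      have hss : s' = s := by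
        by_contra hne
        apply hw2
        simp only [mem_iUnion]
        exact ⟨s, hs, s', hs', fun h => hne h.symm, s w, ⟨⟨w, rfl⟩, ⟨w', he.symm⟩⟩, rfl⟩
      subst hss
      refine ⟨rfl, ?_⟩
      by_contra hcon
      apply hw1
      simp only [mem_iUnion]
      exact ⟨s', hs, w', he.symm, hcon⟩
  obtain ⟨Z, hZ⟩ := hZ
  obtain ⟨s, hs, hsX, ω₁, ω₂, h1, h2, h3⟩ := Pool.Agent.K4H47.BR.X.main JM isClosed_closure hZ f hf
    (fun z => subset_closure ⟨z, rfl⟩) hf'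
  refine ⟨s, hs, ?_, ω₁, ω₂, h1, h2, h3⟩
  rintro _ ⟨z, rfl⟩
  exact hsX z

end Pool.Agent.K4H47.BR
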