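import Mathlib
import Pool.Agent.K4H47.BR.Spec

/-!
# Existence of minimal closed invariant sets of curves (job E1)
-/

set_option autoImplicit false

open Filter Topology Metric Set
open scoped Manifold

namespace Pool.Agent.K4H47.BR

theorem e1 : S_E1 := by
  intro M _ _ G hid hcomp W₀ K hW₀ hinv hnc hK hKnc hmeet
  let 𝒮 : Set (Set C(ℂ, M)) := {W | W ⊆ W₀ ∧ IsClosed W ∧ Inv G W ∧ ∃ f ∈ W, NC f}
  have hz : ∀ c ⊆ 𝒮, IsChain (· ⊆ ·) c → c.Nonempty → ∃ lb ∈ 𝒮, ∀ s ∈ c, lb ⊆ s := by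
    intro c hc hchain hne
    refine ⟨⋂₀ c, ⟨?_, ?_, ?_, ?_⟩, fun s hs => sInter_subset_of_mem hs⟩
    · obtain ⟨s, hs⟩ := hne
      exact (sInter_subset_of_mem hs).trans (hc hs).1
    · exact isClosed_sInter fun s hs => (hc hs).2.1
    · intro f hf A hA
      rw [mem_sInter] at hf ⊢
      exact fun s hs => (hc hs).2.2.1 f (hf s hs) A hA
    · have : Nonempty c := hne.to_subtype
      have h1 : (⋂ i : c, (i : Set C(ℂ, M)) ∩ K).Nonempty := by
        apply IsCompact.nonempty_iInter_of_directed_nonempty_isCompact_isClosed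
        · intro i j
          rcases hchain.total i.2 j.2 with h | h
          · exact ⟨i, subset_rfl, inter_subset_inter_left K h⟩
          · exact ⟨j, inter_subset_inter_left K h, subset_rfl⟩
        · intro i
          obtain ⟨h2, h3, h4, h5⟩ := hc i.2
          exact hmeet i h2 h3 h4 h5
        · intro i
          exact hK.inter_left (hc i.2).2.1
        · intro i
          exact (hc i.2).2.1.inter hK.isClosed
      obtain ⟨f, hf⟩ := h1
      rw [mem_iInter] at hf
      refine ⟨f, ?_, ?_⟩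
      · rw [mem_sInter]
        exact fun s hs => (hf ⟨s, hs⟩).1
      · obtain ⟨s, hs⟩ := hne
        exact hKnc f (hf ⟨s, hs⟩).2
  obtain ⟨W, hWW₀, hmin⟩ := zorn_superset_nonempty 𝒮 hz W₀ ⟨subset_rfl, hW₀, hinv, hnc⟩
  obtain ⟨h1, h2, h3, h4⟩ := hmin.prop
  refine ⟨W, hWW₀, h2, h3, h4, ?_⟩
  intro g hg hgnc
  set V : Set C(ℂ, M) := closure {h | ∃ A ∈ G, h = g.comp A} with hV
  have hVW : V ⊆ W := by
    refine closure_minimal ?_ h2
    rintro h ⟨A, hA, rfl⟩
    exact h3 g hg A hA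
  have hgV : g ∈ V := subset_closure ⟨ContinuousMap.id ℂ, hid, by ext; rfl⟩
  have hVS : V ∈ 𝒮 := by
    refine ⟨hVW.trans h1, isClosed_closure, ?_, g, hgV, hgnc⟩
    intro f hf A hA
    have h5 : MapsTo (fun k : C(ℂ, M) => k.comp A) {h | ∃ A ∈ G, h = g.comp A}
        {h | ∃ A ∈ G, h = g.comp A} := by
      rintro h ⟨B, hB, rfl⟩
      exact ⟨B.comp A, hcomp B hB A hA, by ext; rfl⟩
    have h6 : Continuous (fun k : C(ℂ, M) => k.comp A) := ContinuousMap.continuous_precomp A
    exact map_mem_closure (f := fun k : C(ℂ, M) => k.comp A) h6 hf h5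
  exact hmin.le_of_le hVS hVW

end Pool.Agent.K4H47.BR
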